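import Pool.Agent.Helper74.Robots.Family

namespace Pool.Agent.Helper74.Robots

open Filter Topology

namespace Fam

variable (A : Fam)

/-! ### First phase: `0 < t ≤ 1/2` -/

theorem low1 {r : ℕ} (hr : r < 2 * A.k + 1 + A.e) {t : ℝ} (ht0 : 0 < t) (ht : t ≤ 1 / 2) :
    A.h r < A.S1.F r t := by
  apply A.S1.lt_F
  intro a
  rw [lt_max_iff]
  rcases le_or_gt (r : ℤ) a with h | h
  · left
    have h1 : A.S1.α r ≤ A.S1.α a := A.S1.hα.monotone h
    rw [A.α1' hr] at h1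
    linarith
  · right
    have h1 := A.β_ge_one (b := r - a) (by omega)
    have h2 := A.P1 r hr
    linarith

theorem up1 {r : ℕ} (hr : r < 2 * A.k + 1 + A.e) {t : ℝ} (ht0 : 0 < t) (ht : t ≤ 1 / 2) :
    A.S1.F r t < A.h r + 1 := by
  refine lt_of_le_of_lt (A.S1.F_le r t r) ?_
  rw [sub_self, A.β_le_zero, A.α1' hr]
  have h1 := A.g0 (A.k - 1) (by have := A.hk; omega)
  have h2 := A.h_nonneg r
  apply max_lt <;> linarith

theorem low1n {m : ℕ} (hm : m < A.k) {t : ℝ} (ht0 : 0 < t) (ht : t ≤ 1 / 2) :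
    A.g m < A.S1.F ((2 * A.k + 1 + A.e + m : ℕ) : ℤ) t := by
  apply A.S1.lt_F
  intro a
  rw [lt_max_iff]
  rcases le_or_gt ((2 * A.k + 1 + A.e : ℕ) : ℤ) a with h | h
  · left
    have h1 : A.S1.α ((2 * A.k + 1 + A.e : ℕ) : ℤ) ≤ A.S1.α a := A.S1.hα.monotone h
    have h2 := A.α1 (i := 0) (by omega) 1
    rw [Nat.cast_zero, zero_add, mul_one] at h2
    rw [h2] at h1
    have h3 := A.g0 m hm
    have h4 := A.h0
    push_cast at h1
    linarith
  · right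
    have h1 := A.β1' hm
    have h2 : A.S1.β ((m : ℤ) + 1) ≤ A.S1.β (((2 * A.k + 1 + A.e + m : ℕ) : ℤ) - a) :=
      A.S1.hβ.monotone (by push_cast at h ⊢; omega)
    rw [h1] at h2
    linarith

theorem up1n {m : ℕ} (hm : m < A.k) {t : ℝ} (ht0 : 0 < t) (ht : t ≤ 1 / 2) :
    A.S1.F ((2 * A.k + 1 + A.e + m : ℕ) : ℤ) t < A.g m + 1 := by
  refine lt_of_le_of_lt (A.S1.F_le _ t ((2 * A.k + A.e : ℕ) : ℤ)) ?_
  have e : ((2 * A.k + 1 + A.e + m : ℕ) : ℤ) - ((2 * A.k + A.e : ℕ) : ℤ) = m + 1 := by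
    push_cast; ring
  rw [e, A.β1' hm, A.α1' (i := 2 * A.k + A.e) (by omega)]
  have h1 := A.P1 (2 * A.k + A.e) (by omega)
  have h2 := A.g0_le m
  apply max_lt <;> linarith

/-! ### Second phase: `1/2 ≤ t ≤ 1` -/

theorem α2_zero_le {a : ℤ} (ha : 0 ≤ a) : A.h 0 ≤ A.S2.α a := by
  have h1 := A.α2' (i := 0) (by omega)
  rw [← h1]
  exact A.S2.hα.monotone (by simpa using ha)

theorem low2 {r : ℕ} (hr : r < 2 * A.k + 1 + A.e) {t : ℝ} (ht0 : 1 / 2 ≤ t) (ht : t ≤ 1) :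
    A.h r < A.S2.F r t := by
  apply A.S2.lt_F
  intro a
  rw [lt_max_iff]
  have hhalf := A.h_lt_half hr
  have hP1 := A.P1 r hr
  rcases le_or_gt 0 a with h | h
  · left
    have h1 := A.α2_zero_le h
    have h2 := A.h0
    linarith
  · rcases le_or_gt ((A.k : ℤ) + 1) (r - a) with h' | h'
    · right
      have h1 : A.g 0 + 2 ≤ A.S2.β (r - a) := A.β_ge_succ h'
      linarith
    · -- the main case
      have hk := A.hk
      obtain ⟨b, hb⟩ : ∃ b : ℕ, (b : ℤ) = r - a - 1 := ⟨(r - a - 1).toNat, by omega⟩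
      have hbk : b < A.k := by omega
      have hrb : r ≤ b := by omega
      have h1 := A.P2 r b hrb hbk
      have h2 : A.S2.β (r - a) = A.g b + 1 := by
        have := A.β2' hbk
        rw [hb] at this
        have e : (r : ℤ) - a - 1 + 1 = r - a := by ring
        rw [e] at this
        exact this
      have h3 : A.S2.α a = A.h (A.k + A.e + r - b) - 1 := by
        have := A.α2 (i := A.k + A.e + r - b) (by omega) (-1)
        have e : ((A.k + A.e + r - b : ℕ) : ℤ) + ((A.k + 1 + A.e : ℕ) : ℤ) * (-1) = a := by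
          omega
        rw [e] at this
        rw [this]; push_cast; ring
      by_contra hcon
      push Not at hcon
      rw [h2, h3] at hcon
      linarith [hcon.1, hcon.2]

theorem up2 {r : ℕ} (hr : r < 2 * A.k + 1 + A.e) {t : ℝ} (ht0 : 1 / 2 ≤ t) (ht : t ≤ 1) :
    A.S2.F r t < A.h r + 1 := by
  have hk := A.hk
  rcases lt_or_ge r A.k with h | h
  · refine lt_of_le_of_lt (A.S2.F_le r t (-1)) ?_
    have e : (r : ℤ) - (-1) = r + 1 := by ring
    have h3 : A.S2.α (-1) = A.h (A.k + A.e) - 1 := by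
      have := A.α2 (i := A.k + A.e) (by omega) (-1)
      have e : ((A.k + A.e : ℕ) : ℤ) + ((A.k + 1 + A.e : ℕ) : ℤ) * (-1) = -1 := by
        push_cast; ring
      rw [e] at this
      rw [this]; push_cast; ring
    rw [e, A.β2' h, h3]
    have h4 := A.h_lt_half (j := A.k + A.e) (by omega)
    have h5 := A.h_nonneg r
    have h6 := A.g0 r h
    apply max_lt <;> linarith
  · refine lt_of_le_of_lt (A.S2.F_le r t ((r - A.k : ℕ) : ℤ)) ?_
    have e : (r : ℤ) - ((r - A.k : ℕ) : ℤ) = A.k := by omega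
    rw [e, A.α2' (i := r - A.k) (by omega)]
    have h4 : A.S2.β A.k = A.g (A.k - 1) + 1 := A.β_k
    rw [h4]
    have h5 := A.hh (show r - A.k < r by omega)
    have h6 := A.g0 (A.k - 1) (by omega)
    have h7 := A.h_nonneg r
    apply max_lt <;> linarith

/-! ### Third phase -/

theorem low3 {r : ℕ} (hr : r < 2 * A.k) (t : ℝ) : A.h r < A.S3.F r t := by
  have hk := A.hk
  apply A.S3.lt_F_avg
  intro a
  have hP1 := A.P1 r (by omega)
  obtain ⟨a0, w1, ha0, rfl⟩ := qper_repr hk a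
  obtain ⟨b0, w2, hb0, hb⟩ := qper_repr hk ((r : ℤ) - (a0 + A.k * w1) - 1)
  have hβ : A.S3.β ((r : ℤ) - (a0 + A.k * w1)) = A.g b0 + 1 + w2 := by
    have := A.β3 hb0 w2
    rw [← hb] at this
    have e : (r : ℤ) - (a0 + A.k * w1) - 1 + 1 = r - (a0 + A.k * w1) := by ring
    rw [e] at this
    exact this
  rw [hβ, A.α3 ha0 w1]
  have hw : (A.k : ℤ) * (w1 + w2) = r - 1 - a0 - b0 := by linarith
  have hkz : (0 : ℤ) < A.k := by exact_mod_cast hk
  have hwl : -2 < w1 + w2 := by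
    by_contra hcon
    push Not at hcon
    have : (A.k : ℤ) * (w1 + w2) ≤ A.k * (-2) := by
      apply mul_le_mul_of_nonneg_left hcon hkz.le
    omega
  have hwu : w1 + w2 < 2 := by
    by_contra hcon
    push Not at hcon
    have : (A.k : ℤ) * 2 ≤ A.k * (w1 + w2) := by
      apply mul_le_mul_of_nonneg_left hcon hkz.le
    omega
  have hcases : w1 + w2 = -1 ∨ w1 + w2 = 0 ∨ w1 + w2 = 1 := by omega
  have hg := A.g0_le b0
  have hgn := A.g0 0 hk
  have hhn := A.h_nonneg (1 + A.e + a0)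
  rcases hcases with h | h | h
  · have hwr : (w1 : ℝ) + w2 = -1 := by exact_mod_cast h
    rw [h] at hw
    have h1 := A.P2 r b0 (by omega) hb0
    have e : A.k + A.e + r - b0 = 1 + A.e + a0 := by omega
    rw [e] at h1
    linarith
  · have hwr : (w1 : ℝ) + w2 = 0 := by exact_mod_cast h
    linarith
  · have hwr : (w1 : ℝ) + w2 = 1 := by exact_mod_cast h
    linarith

theorem up3 {r : ℕ} (hr : r < 2 * A.k) (t : ℝ) : A.S3.F r t < A.h r + 1 := by
  have hk := A.hk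
  apply A.S3.F_le_avg
  intro a
  obtain ⟨a0, w1, ha0, rfl⟩ := qper_repr hk a
  obtain ⟨b0, w2, hb0, hb⟩ := qper_repr hk ((r : ℤ) + 1 - (a0 + A.k * w1) - 1)
  have hβ : A.S3.β ((r : ℤ) + 1 - (a0 + A.k * w1)) = A.g b0 + 1 + w2 := by
    have := A.β3 hb0 w2
    rw [← hb] at this
    have e : (r : ℤ) + 1 - (a0 + A.k * w1) - 1 + 1 = r + 1 - (a0 + A.k * w1) := by ring
    rw [e] at this
    exact this
  rw [hβ, A.α3 ha0 w1]
  have hw : (A.k : ℤ) * (w1 + w2) = r - a0 - b0 := by linarith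
  have hkz : (0 : ℤ) < A.k := by exact_mod_cast hk
  have hwu : w1 + w2 < 2 := by
    by_contra hcon
    push Not at hcon
    have : (A.k : ℤ) * 2 ≤ A.k * (w1 + w2) := by
      apply mul_le_mul_of_nonneg_left hcon hkz.le
    omega
  have hhn := A.h_nonneg r
  have hgn := A.g0 b0 hb0
  have hh2 := A.h_lt_half (j := 1 + A.e + a0) (by omega)
  rcases lt_or_ge (w1 + w2) 1 with h | h
  · have hwr : (w1 : ℝ) + w2 ≤ 0 := by
      have : w1 + w2 ≤ 0 := by omega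
      exact_mod_cast this
    linarith
  · have h' : w1 + w2 = 1 := by omega
    have hwr : (w1 : ℝ) + w2 = 1 := by exact_mod_cast h'
    rw [h'] at hw
    have hrk : A.k ≤ r := by omega
    have h1 := A.P3 (r - A.k) b0 (by omega) (by omega)
    have e1 : 1 + A.e + (r - A.k) - b0 = 1 + A.e + a0 := by omega
    have e2 : A.k + (r - A.k) = r := by omega
    rw [e1, e2] at h1
    linarith

/-! ### Values at the switching times -/

theorem j1_β {r : ℕ} (hr : r < A.k) :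
    A.S1.F r (1 / 2) = A.g r + 1 / 2 ∧ A.S1.vi r (1 / 2) = -1 ∧ A.S1.vo r (1 / 2) = -1 := by
  have e1 : ((-1 : ℤ) + (r + 1)) = r := by ring
  have h3 : A.S1.α (-1) = A.h (2 * A.k + A.e) - 1 := by
    have := A.α1 (i := 2 * A.k + A.e) (by omega) (-1)
    have e : ((2 * A.k + A.e : ℕ) : ℤ) + ((2 * A.k + 1 + A.e : ℕ) : ℤ) * (-1) = -1 := by
      push_cast; ring
    rw [e] at this
    rw [this]; push_cast; ring
  have h4 : A.S1.α (-1 + 1) = A.h 0 := by
    have := A.α1' (i := 0) (by omega)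
    simpa using this
  have h5 := A.P1 (2 * A.k + A.e) (by omega)
  have h6 := A.g0_le r
  have h7 := A.g0 r hr
  have h8 := A.h0
  have key := A.S1.on_β (a := -1) (b := r + 1) (t := 1 / 2)
    (by rw [h3, A.β1' hr]; linarith) (by rw [h4, A.β1' hr]; linarith)
  rw [e1, A.β1' hr] at key
  refine ⟨by rw [key.1]; ring, key.2.1, key.2.2⟩

theorem j2_β {r : ℕ} (hr : r < A.k) :
    A.S2.F r (1 / 2) = A.g r + 1 / 2 ∧ A.S2.vi r (1 / 2) = -1 ∧ A.S2.vo r (1 / 2) = -1 := by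
  have e1 : ((-1 : ℤ) + (r + 1)) = r := by ring
  have h3 : A.S2.α (-1) = A.h (A.k + A.e) - 1 := by
    have := A.α2 (i := A.k + A.e) (by omega) (-1)
    have e : ((A.k + A.e : ℕ) : ℤ) + ((A.k + 1 + A.e : ℕ) : ℤ) * (-1) = -1 := by
      push_cast; ring
    rw [e] at this
    rw [this]; push_cast; ring
  have h4 : A.S2.α (-1 + 1) = A.h 0 := by
    have := A.α2' (i := 0) (by omega)
    simpa using this
  have h5 := A.P1 (A.k + A.e) (by omega)
  have h6 := A.g0_le r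
  have h7 := A.g0 r hr
  have h8 := A.h0
  have key := A.S2.on_β (a := -1) (b := r + 1) (t := 1 / 2)
    (by rw [h3, A.β2' hr]; linarith) (by rw [h4, A.β2' hr]; linarith)
  rw [e1, A.β2' hr] at key
  refine ⟨by rw [key.1]; ring, key.2.1, key.2.2⟩

theorem j1_α {r : ℕ} (hk : A.k ≤ r) (hr : r < 3 * A.k + 1 + A.e) :
    A.S1.F r (1 / 2) = A.h (r - A.k) + 1 / 2 ∧ A.S1.vi r (1 / 2) = 1 ∧
      A.S1.vo r (1 / 2) = 1 := by
  have e1 : (((r - A.k : ℕ) : ℤ) + A.k) = r := by omega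
  have h1 : A.S1.α ((r - A.k : ℕ) : ℤ) = A.h (r - A.k) := A.α1' (by omega)
  have h5 := A.P1 (r - A.k) (by omega)
  have h7 := A.g0 (A.k - 1) (by have := A.hk; omega)
  have h8 := A.h_nonneg (r - A.k)
  have h9 := A.g0_gt
  have key := A.S1.on_α (a := ((r - A.k : ℕ) : ℤ)) (b := A.k) (t := 1 / 2)
    (by rw [h1, A.β_k]; linarith) (by rw [h1, A.β_succ_k]; linarith)
  rw [e1, h1] at key
  exact key

theorem j2_α {r : ℕ} (hk : A.k ≤ r) (hr : r < 2 * A.k + 1 + A.e) :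
    A.S2.F r (1 / 2) = A.h (r - A.k) + 1 / 2 ∧ A.S2.vi r (1 / 2) = 1 ∧
      A.S2.vo r (1 / 2) = 1 := by
  have e1 : (((r - A.k : ℕ) : ℤ) + A.k) = r := by omega
  have h1 : A.S2.α ((r - A.k : ℕ) : ℤ) = A.h (r - A.k) := A.α2' (by omega)
  have h5 := A.P1 (r - A.k) (by omega)
  have h7 := A.g0 (A.k - 1) (by have := A.hk; omega)
  have h8 := A.h_nonneg (r - A.k)
  have h9 := A.g0_gt
  have hb1 : A.S2.β A.k = A.g (A.k - 1) + 1 := A.β_k
  have hb2 : A.S2.β (A.k + 1) = A.g 0 + 2 := A.β_succ_k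
  have key := A.S2.on_α (a := ((r - A.k : ℕ) : ℤ)) (b := A.k) (t := 1 / 2)
    (by rw [h1, hb1]; linarith) (by rw [h1, hb2]; linarith)
  rw [e1, h1] at key
  exact key

/-- Values at time `1` in the second system. -/
theorem m2_a {r : ℕ} (hr : r < A.k) :
    A.S2.F r 1 = A.h (1 + A.e + r) ∧ A.S2.vi r 1 = 1 ∧ A.S2.vo r 1 = 1 := by
  have e1 : ((r : ℤ) - A.k + A.k) = r := by ring
  have h1 : A.S2.α ((r : ℤ) - A.k) = A.h (1 + A.e + r) - 1 := by
    have := A.α2 (i := 1 + A.e + r) (by omega) (-1)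
    have e : ((1 + A.e + r : ℕ) : ℤ) + ((A.k + 1 + A.e : ℕ) : ℤ) * (-1) = r - A.k := by
      push_cast; ring
    rw [e] at this
    rw [this]; push_cast; ring
  have h5 := A.P1 (1 + A.e + r) (by omega)
  have h7 := A.g0 (A.k - 1) (by have := A.hk; omega)
  have h8 := A.h_nonneg (1 + A.e + r)
  have h9 := A.g0_gt
  have hb1 : A.S2.β A.k = A.g (A.k - 1) + 1 := A.β_k
  have hb2 : A.S2.β (A.k + 1) = A.g 0 + 2 := A.β_succ_k
  have key := A.S2.on_α (a := (r : ℤ) - A.k) (b := A.k) (t := 1)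
    (by rw [h1, hb1]; linarith) (by rw [h1, hb2]; linarith)
  rw [e1, h1] at key
  refine ⟨by rw [key.1]; ring, key.2.1, key.2.2⟩

theorem m3_a {r : ℕ} (hr : r < A.k) :
    A.S3.F r 1 = A.h (1 + A.e + r) ∧ A.S3.vi r 1 = 1 ∧ A.S3.vo r 1 = 1 := by
  have e1 : ((r : ℤ) - A.k + A.k) = r := by ring
  have h1 : A.S3.α ((r : ℤ) - A.k) = A.h (1 + A.e + r) - 1 := by
    have := A.α3 (i := r) hr (-1)
    have e : (r : ℤ) + A.k * (-1) = r - A.k := by ring
    rw [e] at this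
    rw [this]; push_cast; ring
  have h5 := A.P1 (1 + A.e + r) (by omega)
  have h7 := A.g0 (A.k - 1) (by have := A.hk; omega)
  have h8 := A.h_nonneg (1 + A.e + r)
  have h9 := A.g0_gt
  have hb1 : A.S3.β A.k = A.g (A.k - 1) + 1 := A.β_k
  have hb2 : A.S3.β (A.k + 1) = A.g 0 + 2 := A.β_succ_k
  have key := A.S3.on_α (a := (r : ℤ) - A.k) (b := A.k) (t := 1)
    (by rw [h1, hb1]; linarith) (by rw [h1, hb2]; linarith)
  rw [e1, h1] at key
  refine ⟨by rw [key.1]; ring, key.2.1, key.2.2⟩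

theorem β_shift {i : ℕ} (hi : i < A.k) : A.S1.β ((A.k + i : ℕ) + 1) = A.g i + 2 := by
  have := A.β1 hi 1
  have e : (i : ℤ) + A.k * 1 + 1 = ((A.k + i : ℕ) : ℤ) + 1 := by push_cast; ring
  rw [e] at this
  rw [this]; push_cast; ring

theorem m2_b {i : ℕ} (hi : i < A.k) :
    A.S2.F ((A.k + i : ℕ) : ℤ) 1 = A.g i + 1 ∧ A.S2.vi ((A.k + i : ℕ) : ℤ) 1 = -1 ∧
      A.S2.vo ((A.k + i : ℕ) : ℤ) 1 = -1 := by
  have e1 : ((-1 : ℤ) + (((A.k + i : ℕ) : ℤ) + 1)) = ((A.k + i : ℕ) : ℤ) := by ring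
  have h3 : A.S2.α (-1) = A.h (A.k + A.e) - 1 := by
    have := A.α2 (i := A.k + A.e) (by omega) (-1)
    have e : ((A.k + A.e : ℕ) : ℤ) + ((A.k + 1 + A.e : ℕ) : ℤ) * (-1) = -1 := by
      push_cast; ring
    rw [e] at this
    rw [this]; push_cast; ring
  have h4 : A.S2.α (-1 + 1) = A.h 0 := by
    have := A.α2' (i := 0) (by omega)
    simpa using this
  have hb : A.S2.β (((A.k + i : ℕ) : ℤ) + 1) = A.g i + 2 := A.β_shift hi
  have h5 := A.P1 (A.k + A.e) (by omega)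
  have h6 := A.g0_le i
  have h7 := A.g0 i hi
  have h8 := A.h0
  have key := A.S2.on_β (a := -1) (b := ((A.k + i : ℕ) : ℤ) + 1) (t := 1)
    (by rw [h3, hb]; linarith) (by rw [h4, hb]; linarith)
  rw [e1, hb] at key
  refine ⟨by rw [key.1]; ring, key.2.1, key.2.2⟩

theorem m3_b {i : ℕ} (hi : i < A.k) :
    A.S3.F ((A.k + i : ℕ) : ℤ) 1 = A.g i + 1 ∧ A.S3.vi ((A.k + i : ℕ) : ℤ) 1 = -1 ∧
      A.S3.vo ((A.k + i : ℕ) : ℤ) 1 = -1 := by
  have hk := A.hk
  have e1 : ((-1 : ℤ) + (((A.k + i : ℕ) : ℤ) + 1)) = ((A.k + i : ℕ) : ℤ) := by ring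
  have h3 : A.S3.α (-1) = A.h (1 + A.e + (A.k - 1)) - 1 := by
    have := A.α3 (i := A.k - 1) (by omega) (-1)
    have e : ((A.k - 1 : ℕ) : ℤ) + (A.k : ℤ) * (-1) = -1 := by omega
    rw [e] at this
    rw [this]; push_cast; ring
  have h4 : A.S3.α (-1 + 1) = A.h (1 + A.e + 0) := by
    have := A.α3 (i := 0) hk 0
    simpa using this
  have hb : A.S3.β (((A.k + i : ℕ) : ℤ) + 1) = A.g i + 2 := A.β_shift hi
  have h5 := A.P1 (1 + A.e + (A.k - 1)) (by omega)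
  have h6 := A.g0_le i
  have h7 := A.g0 i hi
  have h8 := A.h_nonneg (1 + A.e + 0)
  have key := A.S3.on_β (a := -1) (b := ((A.k + i : ℕ) : ℤ) + 1) (t := 1)
    (by rw [h3, hb]; linarith) (by rw [h4, hb]; linarith)
  rw [e1, hb] at key
  refine ⟨by rw [key.1]; ring, key.2.1, key.2.2⟩

theorem m2_c {j : ℕ} (hj : j ≤ A.e) :
    A.S2.F ((2 * A.k + j : ℕ) : ℤ) 1 = A.h j + 1 ∧ A.S2.vi ((2 * A.k + j : ℕ) : ℤ) 1 = 1 ∧
      A.S2.vo ((2 * A.k + j : ℕ) : ℤ) 1 = 1 := by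
  have hk := A.hk
  have e1 : ((j : ℤ) + (((A.k + (A.k - 1) : ℕ) : ℤ) + 1)) = ((2 * A.k + j : ℕ) : ℤ) := by
    omega
  have h1 : A.S2.α (j : ℤ) = A.h j := A.α2' (by omega)
  have hb1 : A.S2.β (((A.k + (A.k - 1) : ℕ) : ℤ) + 1) = A.g (A.k - 1) + 2 :=
    A.β_shift (i := A.k - 1) (by omega)
  have hb2 : A.S2.β (((A.k + (A.k - 1) : ℕ) : ℤ) + 1 + 1) = A.g 0 + 3 := by
    have := A.β2 (i := 0) hk 2
    have e : ((0 : ℕ) : ℤ) + A.k * 2 + 1 = ((A.k + (A.k - 1) : ℕ) : ℤ) + 1 + 1 := by omega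
    rw [e] at this
    rw [this]; push_cast; ring
  have h5 := A.h_lt_half (j := j) (by omega)
  have h7 := A.g0 (A.k - 1) (by omega)
  have h8 := A.h_nonneg j
  have h9 := A.g0_gt
  have key := A.S2.on_α (a := (j : ℤ)) (b := ((A.k + (A.k - 1) : ℕ) : ℤ) + 1) (t := 1)
    (by rw [h1, hb1]; linarith) (by rw [h1, hb2]; linarith)
  rw [e1, h1] at key
  exact key

/-- Values at time `0`. -/
theorem z_a {r : ℕ} (hr : r < 2 * A.k + 1 + A.e) :
    A.S1.F r 0 = A.h r ∧ A.S1.vi r 0 = 1 ∧ A.S1.vo r 0 = 1 := by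
  have h1 : A.S1.α (r : ℤ) = A.h r := A.α1' hr
  have h5 := A.P1 r hr
  have h7 := A.g0 (A.k - 1) (by have := A.hk; omega)
  have h8 := A.h_nonneg r
  have h9 := A.β1' (i := 0) A.hk
  rw [Nat.cast_zero] at h9
  have key := A.S1.on_α (a := (r : ℤ)) (b := 0) (t := 0)
    (by rw [h1, A.β_le_zero]; linarith) (by rw [h1, h9]; linarith)
  rw [add_zero, h1, add_zero] at key
  exact key

theorem z_b {m : ℕ} (hm : m < A.k) :
    A.S1.F ((2 * A.k + 1 + A.e + m : ℕ) : ℤ) 0 = A.g m + 1 ∧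
      A.S1.vi ((2 * A.k + 1 + A.e + m : ℕ) : ℤ) 0 = -1 ∧
      A.S1.vo ((2 * A.k + 1 + A.e + m : ℕ) : ℤ) 0 = -1 := by
  have e1 : (((2 * A.k + A.e : ℕ) : ℤ) + (m + 1)) = ((2 * A.k + 1 + A.e + m : ℕ) : ℤ) := by
    push_cast; ring
  have h1 : A.S1.α ((2 * A.k + A.e : ℕ) : ℤ) = A.h (2 * A.k + A.e) := A.α1' (by omega)
  have h2 : A.S1.α (((2 * A.k + A.e : ℕ) : ℤ) + 1) = A.h 0 + 1 := by
    have := A.α1 (i := 0) (by omega) 1
    have e : ((0 : ℕ) : ℤ) + ((2 * A.k + 1 + A.e : ℕ) : ℤ) * 1 =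
      ((2 * A.k + A.e : ℕ) : ℤ) + 1 := by push_cast; ring
    rw [e] at this
    rw [this]; push_cast; ring
  have h5 := A.P1 (2 * A.k + A.e) (by omega)
  have h6 := A.g0_le m
  have h7 := A.g0 m hm
  have h8 := A.h0
  have key := A.S1.on_β (a := ((2 * A.k + A.e : ℕ) : ℤ)) (b := m + 1) (t := 0)
    (by rw [h1, A.β1' hm]; linarith) (by rw [h2, A.β1' hm]; linarith)
  rw [e1, A.β1' hm, sub_zero] at key
  exact key

end Fam

end Pool.Agent.Helper74.Robots
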