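import Pool.Agent.Helper74.Robots.Defs

/-!
Bouncing robots on the circle `ℝ/ℤ`: the local structure of motions.
-/

namespace Pool.Agent.Helper74.Robots

open Filter Topology

variable {n : ℕ}

/-! ### Real induction -/

theorem real_induction {P : ℝ → Prop} (h0 : P 0)
    (hr : ∀ t, 0 ≤ t → (∀ s, 0 ≤ s → s ≤ t → P s) → ∀ᶠ s in 𝓝[>] t, P s)
    (hl : ∀ t, 0 < t → (∀ s, 0 ≤ s → s < t → P s) → P t) : ∀ t, 0 ≤ t → P t := by
  by_contra hcon
  push Not at hcon
  obtain ⟨t0, ht0, hPt0⟩ := hcon
  set S : Set ℝ := {t | 0 ≤ t ∧ ¬ P t} with hS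
  have hne : S.Nonempty := ⟨t0, ht0, hPt0⟩
  have hbdd : BddBelow S := ⟨0, fun t ht => ht.1⟩
  set τ := sInf S with hτ
  have hτ0 : 0 ≤ τ := le_csInf hne fun t ht => ht.1
  have hlt : ∀ s, 0 ≤ s → s < τ → P s := by
    intro s hs hsτ
    by_contra hPs
    exact absurd (csInf_le hbdd (show s ∈ S from ⟨hs, hPs⟩)) (not_le.mpr hsτ)
  have hPτ : P τ := by
    rcases hτ0.eq_or_lt with h | h
    · rw [← h]; exact h0
    · exact hl τ h hlt
  have hev := hr τ hτ0 (by
    intro s hs hsτ
    rcases hsτ.eq_or_lt with h | h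
    · rw [h]; exact hPτ
    · exact hlt s hs h)
  rw [eventually_nhdsWithin_iff, Metric.eventually_nhds_iff] at hev
  obtain ⟨ε, hε, hev⟩ := hev
  obtain ⟨s, hsS, hsτ⟩ := exists_lt_of_csInf_lt hne (show sInf S < τ + ε by linarith)
  have hτs : τ ≤ s := csInf_le hbdd hsS
  rcases hτs.eq_or_lt with h | h
  · exact hsS.2 (h ▸ hPτ)
  · refine hsS.2 (hev ?_ h)
    rw [Real.dist_eq, abs_of_pos (by linarith)]
    linarith

/-- Real induction on a closed interval `[a,b]`. -/
theorem real_induction_Icc {a b : ℝ} {P : ℝ → Prop} (h0 : P a)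
    (hr : ∀ t, a ≤ t → t < b → (∀ s, a ≤ s → s ≤ t → P s) → ∀ᶠ s in 𝓝[>] t, P s)
    (hl : ∀ t, a < t → t ≤ b → (∀ s, a ≤ s → s < t → P s) → P t) :
    ∀ t, a ≤ t → t ≤ b → P t := by
  have key : ∀ u, 0 ≤ u → (a + u ≤ b → P (a + u)) := by
    apply real_induction (P := fun u => a + u ≤ b → P (a + u))
    · intro _; simpa using h0
    · intro t ht hP
      rcases lt_or_ge (a + t) b with hb | hb
      · have h1 := hr (a + t) (by linarith) hb (by
          intro s hs hst
          have := hP (s - a) (by linarith) (by linarith) (by linarith)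
          simpa using this)
        rw [eventually_nhdsWithin_iff, Metric.eventually_nhds_iff] at h1 ⊢
        obtain ⟨ε, hε, h1⟩ := h1
        refine ⟨ε, hε, fun s hs hst _ => h1 (y := a + s) ?_ ?_⟩
        · rw [Real.dist_eq] at hs ⊢
          have : a + s - (a + t) = s - t := by ring
          rw [this]; exact hs
        · simp only [Set.mem_Ioi] at hst ⊢; linarith
      · filter_upwards [self_mem_nhdsWithin] with s hs hsb
        exfalso
        simp only [Set.mem_Ioi] at hs
        linarith
    · intro t ht hP htb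
      apply hl (a + t) (by linarith) htb
      intro s hs hst
      have := hP (s - a) (by linarith) (by linarith) (by linarith)
      simpa using this
  intro t hat htb
  have := key (t - a) (by linarith) (by linarith)
  simpa using this

/-- Downward real induction on `[0,T]`. -/
theorem real_induction_down {T : ℝ} {Q : ℝ → Prop} (hT : Q T)
    (hl : ∀ t, 0 < t → t ≤ T → Q t → ∀ᶠ s in 𝓝[<] t, Q s)
    (hr : ∀ t, 0 ≤ t → t < T → (∀ s, t < s → s ≤ T → Q s) → Q t) :
    ∀ t, 0 ≤ t → t ≤ T → Q t := by
  intro t ht htT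
  have key := real_induction_Icc (a := 0) (b := T) (P := fun u => Q (T - u)) (by simpa using hT)
    (by
      intro u hu huT hP
      have h1 := hl (T - u) (by linarith) (by linarith) (hP u hu le_rfl)
      rw [eventually_nhdsWithin_iff, Metric.eventually_nhds_iff] at h1 ⊢
      obtain ⟨ε, hε, h1⟩ := h1
      refine ⟨ε, hε, fun s hs hst => h1 (y := T - s) ?_ ?_⟩
      · rw [Real.dist_eq] at hs ⊢
        have : T - s - (T - u) = -(s - u) := by ring
        rw [this, abs_neg]; exact hs
      · simp only [Set.mem_Ioi, Set.mem_Iio] at hst ⊢; linarith)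
    (by
      intro u hu huT hP
      apply hr (T - u) (by linarith) (by linarith)
      intro s hs hsT
      have := hP (T - s) (by linarith) (by linarith)
      simpa using this)
    (T - t) (by linarith) (by linarith)
  simpa using key

/-! ### Integers and small perturbations -/

theorem exists_eps_not_int (d : ℝ) :
    ∃ ε > 0, ∀ u : ℝ, |u| < ε → u ≠ 0 → ¬ ∃ m : ℤ, d + u = m := by
  by_cases hd : ∃ k : ℤ, d = k
  · obtain ⟨k, hk⟩ := hd
    refine ⟨1, one_pos, fun u hu hu0 => ?_⟩
    rintro ⟨m, hm⟩
    have h1 : u = ((m - k : ℤ) : ℝ) := by push_cast; linarith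
    rw [h1] at hu hu0
    have h2 : |m - k| < 1 := by exact_mod_cast hu
    have h3 : m - k ≠ 0 := by exact_mod_cast hu0
    have := Int.one_le_abs h3
    omega
  · have h1 : 0 < Int.fract d := by
      rcases (Int.fract_nonneg d).eq_or_lt with h | h
      · exfalso
        exact hd ⟨⌊d⌋, by have := Int.floor_add_fract d; linarith⟩
      · exact h
    have h2 : 0 < 1 - Int.fract d := by have := Int.fract_lt_one d; linarith
    refine ⟨min (Int.fract d) (1 - Int.fract d), lt_min h1 h2, fun u hu _ => ?_⟩
    rintro ⟨m, hm⟩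
    have h3 := Int.floor_add_fract d
    have h4 : |u| < Int.fract d := lt_of_lt_of_le hu (min_le_left _ _)
    have h5 : |u| < 1 - Int.fract d := lt_of_lt_of_le hu (min_le_right _ _)
    rw [abs_lt] at h4 h5
    have h6 : (⌊d⌋ : ℝ) < m := by linarith
    have h7 : (m : ℝ) < ⌊d⌋ + 1 := by linarith
    have h8 : ⌊d⌋ < m := by exact_mod_cast h6
    have h9 : m < ⌊d⌋ + 1 := by exact_mod_cast h7
    omega

/-! ### Local structure of motions -/

variable {home dir : Fin n → ℝ} {x vin vout : Fin n → ℝ → ℝ}

theorem Alive.mono {i : Fin n} {s t : ℝ} (h : Alive home x i t) (hst : s ≤ t) :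
    Alive home x i s := fun u hu hus => h u hu (hus.trans hst)

theorem Alive.before {i : Fin n} {t : ℝ} (h : Alive home x i t) : AliveBefore home x i t :=
  fun u hu hus => h u hu hus.le

theorem AliveBefore.alive {i : Fin n} {s t : ℝ} (h : AliveBefore home x i t) (hst : s < t) :
    Alive home x i s := fun u hu hus => h u hu (lt_of_le_of_lt hus hst)

theorem Survives.alive {i : Fin n} {t : ℝ} (h : Survives home x i) : Alive home x i t :=
  fun u hu _ => h u hu

theorem alive_zero (i : Fin n) : Alive home x i 0 := fun u hu hu0 => absurd hu0 (not_le.mpr hu)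

theorem aliveBefore_of_not {i : Fin n} {t : ℝ} (h : AliveBefore home x i t)
    (h' : ¬ Alive home x i t) (ht : 0 < t) : AtHome home x i t := by
  by_contra hcon
  apply h'
  intro s hs hst
  rcases hst.eq_or_lt with h1 | h1
  · rw [h1]; exact hcon
  · exact h s hs h1

theorem SamePoint.symm {a b : ℝ} (h : SamePoint a b) : SamePoint b a := by
  obtain ⟨m, hm⟩ := h
  exact ⟨-m, by push_cast; linarith⟩

theorem SamePoint.trans {a b c : ℝ} (h : SamePoint a b) (h' : SamePoint b c) : SamePoint a c := by
  obtain ⟨m, hm⟩ := h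
  obtain ⟨k, hk⟩ := h'
  exact ⟨m + k, by push_cast; linarith⟩

theorem SamePoint.refl (a : ℝ) : SamePoint a a := ⟨0, by simp⟩

theorem SamePoint.sub_right {a b : ℝ} (h : SamePoint a b) (c : ℝ) :
    SamePoint (a + c) (b + c) := by
  obtain ⟨m, hm⟩ := h
  exact ⟨m, by linarith⟩

namespace IsMotion

variable (M : IsMotion home dir x vin vout)
include M

theorem after_ev {i : Fin n} {t : ℝ} (ht : 0 ≤ t) (ha : Alive home x i t) :
    ∀ᶠ s in 𝓝[>] t, Alive home x i s ∧ x i s = x i t + vout i t * (s - t) ∧
      vout i s = vout i t ∧ vin i s = vout i t := by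
  obtain ⟨ε1, hε1, h1⟩ := M.after i t ht ha
  obtain ⟨ε2, hε2, h2⟩ := exists_eps_not_int (x i t - home i)
  have hε : 0 < min ε1 ε2 := lt_min hε1 hε2
  have hal : ∀ s, t ≤ s → s < t + min ε1 ε2 → Alive home x i s := by
    intro s hts hs u hu hus
    rcases le_or_gt u t with h | h
    · exact ha u hu h
    · rintro ⟨m, hm⟩
      have h3 := h1 u h.le (by have := min_le_left ε1 ε2; linarith)
      refine h2 (vout i t * (u - t)) ?_ ?_ ⟨m, ?_⟩
      · have hε2' : u - t < ε2 := by have := min_le_right ε1 ε2; linarith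
        rcases M.speed_out i t with hv | hv <;> rw [hv]
        · rw [one_mul, abs_of_pos (by linarith)]; exact hε2'
        · rw [neg_one_mul, abs_neg, abs_of_pos (by linarith)]; exact hε2'
      · rcases M.speed_out i t with hv | hv <;> rw [hv] <;> intro h0 <;> linarith
      · rw [← hm, h3]; ring
  rw [eventually_nhdsWithin_iff, Metric.eventually_nhds_iff]
  refine ⟨min ε1 ε2, hε, fun s hs hst => ?_⟩
  simp only [Set.mem_Ioi] at hst
  rw [Real.dist_eq, abs_of_pos (by linarith)] at hs
  have hs' : s < t + min ε1 ε2 := by linarith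
  have hsε1 : s < t + ε1 := by have := min_le_left ε1 ε2; linarith
  have hals := hal s hst.le hs'
  have hxs := h1 s hst.le hsε1
  refine ⟨hals, hxs, ?_, ?_⟩
  · obtain ⟨ε3, hε3, h3⟩ := M.after i s (by linarith) hals
    set δ := min ε3 (t + ε1 - s) / 2 with hδ
    have hδ0 : 0 < δ := by
      have : 0 < min ε3 (t + ε1 - s) := lt_min hε3 (by linarith)
      linarith
    have hδ1 : δ < ε3 := by have := min_le_left ε3 (t + ε1 - s); linarith
    have hδ2 : δ < t + ε1 - s := by have := min_le_right ε3 (t + ε1 - s); linarith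
    have e1 := h3 (s + δ) (by linarith) (by linarith)
    have e2 := h1 (s + δ) (by linarith) (by linarith)
    rw [e2, hxs] at e1
    have : δ * (vout i s - vout i t) = 0 := by nlinarith
    rcases mul_eq_zero.mp this with h | h <;> linarith
  · obtain ⟨ε3, hε3, h3⟩ := M.before i s (by linarith) hals.before
    set δ := min ε3 (s - t) / 2 with hδ
    have hδ0 : 0 < δ := by
      have : 0 < min ε3 (s - t) := lt_min hε3 (by linarith)
      linarith
    have hδ1 : δ < ε3 := by have := min_le_left ε3 (s - t); linarith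
    have hδ2 : δ < s - t := by have := min_le_right ε3 (s - t); linarith
    have e1 := h3 (s - δ) (by linarith) (by linarith)
    have e2 := h1 (s - δ) (by linarith) (by linarith)
    rw [e2, hxs] at e1
    have : δ * (vin i s - vout i t) = 0 := by nlinarith
    rcases mul_eq_zero.mp this with h | h <;> linarith

theorem before_ev {i : Fin n} {t : ℝ} (ht : 0 < t) (hb : AliveBefore home x i t) :
    ∀ᶠ s in 𝓝[<] t, Alive home x i s ∧ x i s = x i t + vin i t * (s - t) ∧
      vout i s = vin i t ∧ vin i s = vin i t := by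
  obtain ⟨ε1, hε1, h1⟩ := M.before i t ht hb
  rw [eventually_nhdsWithin_iff, Metric.eventually_nhds_iff]
  refine ⟨min ε1 t, lt_min hε1 ht, fun s hs hst => ?_⟩
  simp only [Set.mem_Iio] at hst
  rw [Real.dist_eq, abs_of_neg (by linarith)] at hs
  have hsε1 : t - ε1 < s := by have := min_le_left ε1 t; linarith
  have hs0 : 0 < s := by have := min_le_right ε1 t; linarith
  have hals := hb.alive hst
  have hxs := h1 s hsε1 hst.le
  refine ⟨hals, hxs, ?_, ?_⟩
  · obtain ⟨ε3, hε3, h3⟩ := M.after i s hs0.le hals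
    set δ := min ε3 (t - s) / 2 with hδ
    have hδ0 : 0 < δ := by
      have : 0 < min ε3 (t - s) := lt_min hε3 (by linarith)
      linarith
    have hδ1 : δ < ε3 := by have := min_le_left ε3 (t - s); linarith
    have hδ2 : δ < t - s := by have := min_le_right ε3 (t - s); linarith
    have e1 := h3 (s + δ) (by linarith) (by linarith)
    have e2 := h1 (s + δ) (by linarith) (by linarith)
    rw [e2, hxs] at e1
    have : δ * (vout i s - vin i t) = 0 := by nlinarith
    rcases mul_eq_zero.mp this with h | h <;> linarith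
  · obtain ⟨ε3, hε3, h3⟩ := M.before i s hs0 hals.before
    set δ := min ε3 (s - (t - ε1)) / 2 with hδ
    have hδ0 : 0 < δ := by
      have : 0 < min ε3 (s - (t - ε1)) := lt_min hε3 (by linarith)
      linarith
    have hδ1 : δ < ε3 := by have := min_le_left ε3 (s - (t - ε1)); linarith
    have hδ2 : δ < s - (t - ε1) := by have := min_le_right ε3 (s - (t - ε1)); linarith
    have e1 := h3 (s - δ) (by linarith) (by linarith)
    have e2 := h1 (s - δ) (by linarith) (by linarith)
    rw [e2, hxs] at e1
    have : δ * (vin i s - vin i t) = 0 := by nlinarith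
    rcases mul_eq_zero.mp this with h | h <;> linarith

omit M in
theorem dead_before_ev {i : Fin n} {t : ℝ} (hb : ¬ AliveBefore home x i t) :
    ∀ᶠ s in 𝓝[<] t, ¬ Alive home x i s := by
  unfold AliveBefore at hb
  push Not at hb
  obtain ⟨u, hu0, hut, hu⟩ := hb
  have : ∀ᶠ s in 𝓝[<] t, u < s := by
    apply eventually_nhdsWithin_of_eventually_nhds
    exact lt_mem_nhds hut
  filter_upwards [this] with s hs hal
  exact hal u hu0 hs.le hu

omit M in
theorem dead_after_ev {i : Fin n} {t : ℝ} (hb : ¬ Alive home x i t) :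
    ∀ᶠ s in 𝓝[>] t, ¬ Alive home x i s := by
  filter_upwards [self_mem_nhdsWithin] with s hs hal
  exact hb (hal.mono (le_of_lt hs))

/-- Uniform local structure to the right of `t`. -/
theorem after_all {t : ℝ} (ht : 0 ≤ t) :
    ∀ᶠ s in 𝓝[>] t, ∀ i, (Alive home x i s ↔ Alive home x i t) ∧
      (Alive home x i t → x i s = x i t + vout i t * (s - t) ∧
      vout i s = vout i t ∧ vin i s = vout i t) := by
  rw [eventually_all]
  intro i
  by_cases ha : Alive home x i t
  · filter_upwards [M.after_ev ht ha] with s hs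
    exact ⟨⟨fun _ => ha, fun _ => hs.1⟩, fun _ => hs.2⟩
  · filter_upwards [dead_after_ev ha] with s hs
    exact ⟨⟨fun h => absurd h hs, fun h => absurd h ha⟩, fun h => absurd h ha⟩

/-- Uniform local structure to the left of `t`. -/
theorem before_all {t : ℝ} (ht : 0 < t) :
    ∀ᶠ s in 𝓝[<] t, ∀ i, (Alive home x i s ↔ AliveBefore home x i t) ∧
      (AliveBefore home x i t → x i s = x i t + vin i t * (s - t) ∧
      vout i s = vin i t ∧ vin i s = vin i t) := by
  rw [eventually_all]
  intro i
  by_cases ha : AliveBefore home x i t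
  · filter_upwards [M.before_ev ht ha] with s hs
    exact ⟨⟨fun _ => ha, fun _ => hs.1⟩, fun _ => hs.2⟩
  · filter_upwards [dead_before_ev ha] with s hs
    exact ⟨⟨fun h => absurd h hs, fun h => absurd h ha⟩, fun h => absurd h ha⟩

end IsMotion

end Pool.Agent.Helper74.Robots
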