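import Pool.Agent.Helper74.Robots.Lines

namespace Pool.Agent.Helper74.Robots

open Filter Topology Finset

variable {n : ℕ} {home dir : Fin n → ℝ} {x vin vout : Fin n → ℝ → ℝ}

open Classical in
/-- The finset of robots alive at time `t`. -/
noncomputable def aliveSet (home : Fin n → ℝ) (x : Fin n → ℝ → ℝ) (t : ℝ) : Finset (Fin n) :=
  Finset.univ.filter fun i => Alive home x i t

theorem mem_aliveSet {i : Fin n} {t : ℝ} : i ∈ aliveSet home x t ↔ Alive home x i t := by
  simp [aliveSet]

theorem int_of_abs_lt_one {d : ℝ} (hd : |d| < 1) (h : ∃ m : ℤ, d = m) : d = 0 := by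
  obtain ⟨m, hm⟩ := h
  rw [hm] at hd ⊢
  have h2 : |m| < 1 := by exact_mod_cast hd
  have h3 : m = 0 := by rw [abs_lt] at h2; omega
  rw [h3]; simp

theorem home_inj (hmono : StrictMono home) (hspread : ∀ i j, home j < home i + 1)
    {i j : Fin n} (h : SamePoint (home i) (home j)) : i = j := by
  have h1 : |home i - home j| < 1 := by
    rw [abs_lt]
    constructor
    · linarith [hspread i j]
    · linarith [hspread j i]
  have := int_of_abs_lt_one h1 h
  exact hmono.injective (by linarith)

namespace IsMotion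

variable (M : IsMotion home dir x vin vout)
include M

/-- Collisions preserve the sum of the velocities. -/
theorem sum_vout_eq_sum_vin (hmono : StrictMono home) (hspread : ∀ i j, home j < home i + 1)
    {t : ℝ} (ht : 0 < t) :
    ∑ i ∈ aliveSet home x t, vout i t = ∑ i ∈ aliveSet home x t, vin i t := by
  classical
  rw [← sub_eq_zero, ← Finset.sum_sub_distrib]
  -- the partner map
  let pr : Fin n → Fin n := fun i =>
    if h : ∃ j, j ≠ i ∧ Alive home x j t ∧ SamePoint (x i t) (x j t) then h.choose else i
  have hpr1 : ∀ i, (∃ j, j ≠ i ∧ Alive home x j t ∧ SamePoint (x i t) (x j t)) →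
      pr i ≠ i ∧ Alive home x (pr i) t ∧ SamePoint (x i t) (x (pr i) t) := by
    intro i h
    have : pr i = h.choose := dif_pos h
    rw [this]; exact h.choose_spec
  have hpr2 : ∀ i, ¬ (∃ j, j ≠ i ∧ Alive home x j t ∧ SamePoint (x i t) (x j t)) →
      pr i = i := fun i h => dif_neg h
  have huniq : ∀ i, Alive home x i t → ∀ j k, j ≠ i → k ≠ i → Alive home x j t →
      Alive home x k t → SamePoint (x i t) (x j t) → SamePoint (x i t) (x k t) → j = k := by
    intro i hi j k hji hki hj hk h1 h2
    refine M.vout_inj hmono hspread ht.le hj hk (h1.symm.trans h2) ?_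
    rw [M.vout_opp hmono hspread hji.symm ht.le hi hj h1,
      M.vout_opp hmono hspread hki.symm ht.le hi hk h2]
  refine Finset.sum_involution (fun i _ => pr i) ?_ ?_ ?_ ?_
  · intro i hi
    rw [mem_aliveSet] at hi
    by_cases h : ∃ j, j ≠ i ∧ Alive home x j t ∧ SamePoint (x i t) (x j t)
    · obtain ⟨h1, h2, h3⟩ := hpr1 i h
      rw [M.exchange i (pr i) t ht h1.symm hi h2 h3, M.exchange (pr i) i t ht h1 h2 hi h3.symm]
      ring
    · rw [hpr2 i h]
      push Not at h
      rw [M.keep i t ht hi (fun j hj hja => h j hj hja)]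
      ring
  · intro i hi hne heq
    rw [mem_aliveSet] at hi
    by_cases h : ∃ j, j ≠ i ∧ Alive home x j t ∧ SamePoint (x i t) (x j t)
    · exact (hpr1 i h).1 heq
    · push Not at h
      apply hne
      rw [M.keep i t ht hi (fun j hj hja => h j hj hja)]
      ring
  · intro i hi
    rw [mem_aliveSet] at hi ⊢
    by_cases h : ∃ j, j ≠ i ∧ Alive home x j t ∧ SamePoint (x i t) (x j t)
    · exact (hpr1 i h).2.1
    · rw [hpr2 i h]; exact hi
  · intro i hi
    rw [mem_aliveSet] at hi
    by_cases h : ∃ j, j ≠ i ∧ Alive home x j t ∧ SamePoint (x i t) (x j t)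
    · obtain ⟨h1, h2, h3⟩ := hpr1 i h
      have h' : ∃ j, j ≠ pr i ∧ Alive home x j t ∧ SamePoint (x (pr i) t) (x j t) :=
        ⟨i, h1.symm, hi, h3.symm⟩
      obtain ⟨g1, g2, g3⟩ := hpr1 (pr i) h'
      exact huniq (pr i) h2 _ _ g1 h1.symm g2 hi g3 h3.symm
    · show pr (pr i) = i
      rw [hpr2 i h]; exact hpr2 i h

/-- The displacement after time `t` is at most `t`. -/
theorem disp_le {i : Fin n} : ∀ t, 0 ≤ t → Alive home x i t → |x i t - home i| ≤ t := by
  apply real_induction
  · intro _; rw [M.start_pos]; simp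
  · intro t ht hP
    by_cases hi : Alive home x i t
    swap
    · filter_upwards [dead_after_ev hi] with s hs hs'
      exact absurd hs' hs
    have h1 := hP t ht le_rfl hi
    filter_upwards [M.after_ev ht hi, self_mem_nhdsWithin] with s hs hs6 _
    simp only [Set.mem_Ioi] at hs6
    rw [hs.2.1]
    rw [abs_le] at h1 ⊢
    rcases M.speed_out i t with a | a <;> rw [a] <;> constructor <;> linarith
  · intro t ht hP hi
    have h0 : ∀ᶠ s in 𝓝[<] t, (0 : ℝ) < s :=
      eventually_nhdsWithin_of_eventually_nhds (lt_mem_nhds ht)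
    obtain ⟨s, hs, hs1, hs2⟩ := ((M.before_ev ht hi.before).and
      (h0.and self_mem_nhdsWithin)).exists
    replace hs2 : s < t := hs2
    have h1 := hP s hs1.le hs2 hs.1
    rw [hs.2.1] at h1
    rw [abs_le] at h1 ⊢
    rcases M.speed_in i t with a | a <;> rw [a] at h1 <;> constructor <;> linarith [h1.1, h1.2]

/-- A robot dying before time `1` dies moving against its initial direction. -/
theorem die_before_one {i : Fin n} {t : ℝ} (ht : 0 < t) (ht1 : t < 1)
    (hb : AliveBefore home x i t) (hd : ¬ Alive home x i t) : vin i t = - dir i := by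
  have hh := aliveBefore_of_not hb hd ht
  have h0 : ∀ᶠ s in 𝓝[<] t, (0 : ℝ) < s :=
    eventually_nhdsWithin_of_eventually_nhds (lt_mem_nhds ht)
  have h0' : ∀ᶠ s in 𝓝[<] t, t - (1 - t) / 2 < s :=
    eventually_nhdsWithin_of_eventually_nhds (lt_mem_nhds (by linarith))
  obtain ⟨s, hs, ⟨hs1, hs2⟩, hs3⟩ := ((M.before_ev ht hb).and
      ((h0.and self_mem_nhdsWithin).and h0')).exists
  replace hs2 : s < t := hs2
  have h1 := M.disp_le s hs1.le hs.1
  rw [hs.2.1, abs_le] at h1
  have hx : x i t = home i := by
    have : |x i t - home i| < 1 := by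
      rw [abs_lt]
      rcases M.speed_in i t with a | a <;> rw [a] at h1 <;> constructor <;> linarith [h1.1, h1.2]
    have := int_of_abs_lt_one this hh
    linarith
  rcases M.dir_eq i with hdir | hdir
  · have h2 := (M.pos_of_dir_one hdir s hs1.le hs.1 hs1).1
    rw [hs.2.1, hx] at h2
    rcases M.speed_in i t with a | a
    · rw [a] at h2; linarith
    · rw [a, hdir]
  · have h2 := (M.pos_of_dir_neg hdir s hs1.le hs.1 hs1).2
    rw [hs.2.1, hx] at h2
    rcases M.speed_in i t with a | a
    · rw [a, hdir]; norm_num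
    · rw [a] at h2; linarith

/-- Conservation law on `[0,1)`. -/
theorem conserve (hmono : StrictMono home) (hspread : ∀ i j, home j < home i + 1) :
    ∀ t, 0 ≤ t → t < 1 →
      ∑ i ∈ aliveSet home x t, (vout i t + dir i) = ∑ i, (dir i + dir i) := by
  apply real_induction
  · intro _
    have : aliveSet home x 0 = Finset.univ := by
      ext i; simp [mem_aliveSet, alive_zero]
    rw [this]
    simp only [M.start_vel]
  · intro t ht hP
    filter_upwards [M.after_all ht, self_mem_nhdsWithin] with s hs hs6 hs1
    simp only [Set.mem_Ioi] at hs6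
    rw [← hP t ht le_rfl (by linarith)]
    have hset : aliveSet home x s = aliveSet home x t := by
      ext i; rw [mem_aliveSet, mem_aliveSet]; exact (hs i).1
    rw [hset]
    apply Finset.sum_congr rfl
    intro i hi
    rw [((hs i).2 (mem_aliveSet.mp hi)).2.1]
  · intro t ht hP ht1
    have h0 : ∀ᶠ s in 𝓝[<] t, (0 : ℝ) < s :=
      eventually_nhdsWithin_of_eventually_nhds (lt_mem_nhds ht)
    obtain ⟨s, hs, hs1, hs2⟩ := ((M.before_all ht).and (h0.and self_mem_nhdsWithin)).exists
    replace hs2 : s < t := hs2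
    rw [← hP s hs1.le hs2 (by linarith)]
    have hsub : aliveSet home x t ⊆ aliveSet home x s := by
      intro i hi
      rw [mem_aliveSet] at hi ⊢
      exact hi.mono hs2.le
    have e1 : ∑ i ∈ aliveSet home x s, (vout i s + dir i) =
        ∑ i ∈ aliveSet home x s, (vin i t + dir i) := by
      apply Finset.sum_congr rfl
      intro i hi
      rw [mem_aliveSet] at hi
      rw [((hs i).2 ((hs i).1.mp hi)).2.1]
    rw [e1]
    have e2 : ∑ i ∈ aliveSet home x s, (vin i t + dir i) =
        ∑ i ∈ aliveSet home x t, (vin i t + dir i) := by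
      symm
      apply Finset.sum_subset hsub
      intro i hi hni
      rw [mem_aliveSet] at hi hni
      rw [M.die_before_one ht ht1 ((hs i).1.mp hi) hni]
      ring
    rw [e2, Finset.sum_add_distrib, Finset.sum_add_distrib,
      M.sum_vout_eq_sum_vin hmono hspread ht]

/-- If at least as many robots start in direction `+1` as in direction `-1`, then from time `1/2`
on every live robot of type `-` moves in direction `+`. -/
theorem neg_moves_pos (hmono : StrictMono home) (hspread : ∀ i j, home j < home i + 1)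
    (hdir : 0 ≤ ∑ i, dir i) {t : ℝ} (ht : 1 / 2 ≤ t) {j : Fin n} (hj : Alive home x j t)
    (hd : dir j = -1) : vout j t = 1 := by
  rcases M.speed_out j t with h | h
  · exact h
  exfalso
  obtain ⟨j', h1, h2, h3, -⟩ := M.trace_Ap hmono hspread hj h hd
    (show (0:ℝ) ≤ 1 / 2 by norm_num) ht
  have hc := M.conserve hmono hspread (1/2) (by norm_num) (by norm_num)
  have hneg : ∑ i ∈ aliveSet home x (1/2), (vout i (1/2) + dir i) < 0 := by
    apply Finset.sum_neg'
    · intro i hi
      rw [mem_aliveSet] at hi
      rcases M.dir_eq i with a | a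
      · rcases M.speed_out i (1/2) with b | b
        · exact (M.annihilate hmono hspread le_rfl hi b a h1 h2 h3).elim
        · rw [a, b]; norm_num
      · rcases M.speed_out i (1/2) with b | b <;> rw [a, b] <;> norm_num
    · exact ⟨j', mem_aliveSet.mpr h1, by rw [h2, h3]; norm_num⟩
  rw [hc, Finset.sum_add_distrib] at hneg
  linarith

/-- Under the same hypothesis every robot of type `-` is dead at time `2`. -/
theorem neg_dies (hmono : StrictMono home) (hspread : ∀ i j, home j < home i + 1)
    (hdir : 0 ≤ ∑ i, dir i) {j : Fin n} (hd : dir j = -1) : ¬ Alive home x j 2 := by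
  intro hal
  have key := real_induction_Icc (a := 1/2) (b := 2)
    (P := fun t => x j t = x j (1/2) + (t - 1/2)) (by simp)
    (by
      intro t ht ht2 hP
      have hj : Alive home x j t := hal.mono ht2.le
      have hv := M.neg_moves_pos hmono hspread hdir ht hj hd
      filter_upwards [M.after_ev (by linarith) hj] with s hs
      rw [hs.2.1, hP t ht le_rfl, hv]; ring)
    (by
      intro t ht ht2 hP
      have hj : Alive home x j t := hal.mono ht2
      have h0 : ∀ᶠ s in 𝓝[<] t, (1 / 2 : ℝ) < s :=
        eventually_nhdsWithin_of_eventually_nhds (lt_mem_nhds ht)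
      obtain ⟨s, hs, hs1, hs2⟩ := ((M.before_ev (by linarith) hj.before).and
        (h0.and self_mem_nhdsWithin)).exists
      replace hs2 : s < t := hs2
      have hv := M.neg_moves_pos hmono hspread hdir hs1.le hs.1 hd
      have h1 := hP s hs1.le hs2
      rw [hs.2.1, ← hs.2.2.1, hv] at h1
      linarith)
    2 (by norm_num) le_rfl
  have h1 := (M.pos_of_dir_neg hd (1/2) (by norm_num) (hal.mono (by norm_num)) (by norm_num)).1
  have h2 := (M.pos_of_dir_neg hd 2 (by norm_num) hal (by norm_num)).2
  linarith

omit M in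
/-- From some time on only survivors are alive. -/
theorem exists_final : ∃ T : ℝ, 2 ≤ T ∧ ∀ i, Alive home x i T → Survives home x i := by
  have h : ∀ i : Fin n, ∃ s : ℝ, ∀ t, s ≤ t → Alive home x i t → Survives home x i := by
    intro i
    by_cases hs : Survives home x i
    · exact ⟨0, fun _ _ _ => hs⟩
    · unfold Survives at hs
      push Not at hs
      obtain ⟨s, hs0, hs⟩ := hs
      exact ⟨s, fun t hst hal => absurd hs (hal s hs0 hst)⟩
  choose f hf using h
  obtain ⟨B, hB⟩ := (Set.finite_range f).bddAbove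
  refine ⟨max 2 B, le_max_left _ _, fun i hal => hf i _ ?_ hal⟩
  exact le_trans (hB ⟨i, rfl⟩) (le_max_right _ _)

/-- In the final regime the velocities of the live robots sum to zero. -/
theorem balanced (hmono : StrictMono home) (hspread : ∀ i j, home j < home i + 1)
    {T : ℝ} (hT : 0 < T) (hfin : ∀ i, Alive home x i T → Survives home x i) :
    ∑ i ∈ aliveSet home x T, vout i T = 0 := by
  set S := aliveSet home x T with hS
  set V := ∑ i ∈ S, vout i T with hV
  set Y := ∑ i ∈ S, x i T with hY
  have hSset : ∀ t, T ≤ t → aliveSet home x t = S := by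
    intro t ht
    ext i
    rw [hS, mem_aliveSet, mem_aliveSet]
    exact ⟨fun h => h.mono ht, fun h => (hfin i h).alive⟩
  have hSal : ∀ i ∈ S, ∀ t, Alive home x i t := by
    intro i hi t
    exact (hfin i (mem_aliveSet.mp hi)).alive
  have key : ∀ t, T ≤ t → ∑ i ∈ S, vout i t = V ∧ ∑ i ∈ S, x i t = Y + V * (t - T) := by
    intro b hb
    refine real_induction_Icc (a := T) (b := b)
      (P := fun t => ∑ i ∈ S, vout i t = V ∧ ∑ i ∈ S, x i t = Y + V * (t - T))
      ⟨rfl, by simp [hY]⟩ ?_ ?_ b hb le_rfl
    · intro t ht _ hP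
      obtain ⟨h1, h2⟩ := hP t ht le_rfl
      filter_upwards [M.after_all (show 0 ≤ t by linarith)] with s hs
      constructor
      · rw [← h1]
        apply Finset.sum_congr rfl
        intro i hi
        exact ((hs i).2 (hSal i hi t)).2.1
      · have : ∑ i ∈ S, x i s = ∑ i ∈ S, (x i t + vout i t * (s - t)) := by
          apply Finset.sum_congr rfl
          intro i hi
          exact ((hs i).2 (hSal i hi t)).1
        rw [this, Finset.sum_add_distrib, ← Finset.sum_mul, h1, h2]
        ring
    · intro t ht _ hP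
      have h0 : ∀ᶠ s in 𝓝[<] t, T < s :=
        eventually_nhdsWithin_of_eventually_nhds (lt_mem_nhds ht)
      obtain ⟨s, hs, hs1, hs2⟩ := ((M.before_all (show 0 < t by linarith)).and
        (h0.and self_mem_nhdsWithin)).exists
      replace hs2 : s < t := hs2
      obtain ⟨h1, h2⟩ := hP s hs1.le hs2
      have e1 : ∑ i ∈ S, vin i t = V := by
        rw [← h1]
        apply Finset.sum_congr rfl
        intro i hi
        exact (((hs i).2 (hSal i hi t).before).2.1).symm
      constructor
      · rw [← e1]
        have := M.sum_vout_eq_sum_vin hmono hspread (show 0 < t by linarith)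
        rwa [hSset t ht.le] at this
      · have : ∑ i ∈ S, x i s = ∑ i ∈ S, (x i t + vin i t * (s - t)) := by
          apply Finset.sum_congr rfl
          intro i hi
          exact ((hs i).2 (hSal i hi t).before).1
        rw [this, Finset.sum_add_distrib, ← Finset.sum_mul, e1] at h2
        linarith
  by_contra hV0
  have hbound : ∀ t, 0 < t → |∑ i ∈ S, x i t - ∑ i ∈ S, home i| ≤ n := by
    intro t ht
    rw [← Finset.sum_sub_distrib]
    refine (Finset.abs_sum_le_sum_abs _ _).trans ?_
    have : ∑ i ∈ S, |x i t - home i| ≤ ∑ i ∈ S, (1 : ℝ) := by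
      apply Finset.sum_le_sum
      intro i hi
      rcases M.dir_eq i with a | a
      · have := M.pos_of_dir_one a t ht.le (hSal i hi t) ht
        rw [abs_le]; constructor <;> linarith [this.1, this.2]
      · have := M.pos_of_dir_neg a t ht.le (hSal i hi t) ht
        rw [abs_le]; constructor <;> linarith [this.1, this.2]
    refine this.trans ?_
    rw [Finset.sum_const, nsmul_eq_mul, mul_one]
    exact_mod_cast (Finset.card_le_univ S).trans (by simp)
  have hVpos : 0 < |V| := abs_pos.mpr hV0
  set t := T + (2 * n + 1) / |V| with ht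
  have hdiv : 0 < (2 * (n:ℝ) + 1) / |V| := by positivity
  obtain ⟨-, h2⟩ := key t (by rw [ht]; linarith)
  have b1 := hbound t (by rw [ht]; linarith)
  have b2 := hbound T hT
  rw [h2] at b1
  rw [← hY] at b2
  have h3 : V * (t - T) = V * ((2 * n + 1) / |V|) := by rw [ht]; ring
  rw [h3] at b1
  have h4 : |V * ((2 * (n:ℝ) + 1) / |V|)| = 2 * n + 1 := by
    rw [abs_mul, abs_of_pos hdiv]; field_simp
  have h5 : |V * ((2 * (n:ℝ) + 1) / |V|)| ≤
      |Y + V * ((2 * (n:ℝ) + 1) / |V|) - ∑ i ∈ S, home i| + |Y - ∑ i ∈ S, home i| := by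
    have h6 : V * ((2 * (n:ℝ) + 1) / |V|) =
      (Y + V * ((2 * (n:ℝ) + 1) / |V|) - ∑ i ∈ S, home i) - (Y - ∑ i ∈ S, home i) := by ring
    calc |V * ((2 * (n:ℝ) + 1) / |V|)| =
      |(Y + V * ((2 * (n:ℝ) + 1) / |V|) - ∑ i ∈ S, home i) - (Y - ∑ i ∈ S, home i)| := by
          rw [← h6]
      _ ≤ _ := abs_sub _ _
  linarith

end IsMotion

end Pool.Agent.Helper74.Robots
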