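import Mathlib

/-!
Bouncing robots on the circle `ℝ/ℤ` of circumference `1`: the model.

Positions are given by real lifts: the real number `a` stands for the point `a + ℤ` of the circle.
Direction and velocity `+1` is counterclockwise, `-1` is clockwise.
-/

namespace Pool.Agent.Helper74.Robots

/-- A configuration of `n` robots: home bases `0 ≤ h_0 < h_1 < … < h_{n-1} < 1` and initial
directions `+1` or `-1`. -/
structure Config (n : ℕ) where
  home : Fin n → ℝ
  dir : Fin n → ℝ
  home_nonneg : ∀ i, 0 ≤ home i
  home_lt_one : ∀ i, home i < 1
  home_strictMono : StrictMono home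
  dir_eq : ∀ i, dir i = 1 ∨ dir i = -1

/-- Two real numbers represent the same point of the circle `ℝ/ℤ`. -/
def SamePoint (a b : ℝ) : Prop := ∃ m : ℤ, a - b = m

variable {n : ℕ}

/-- Robot `i` is at its home base at time `s`. -/
def AtHome (home : Fin n → ℝ) (x : Fin n → ℝ → ℝ) (i : Fin n) (s : ℝ) : Prop :=
  SamePoint (x i s) (home i)

/-- Robot `i` has not died before time `t`: it was never back home during `(0,t)`. -/
def AliveBefore (home : Fin n → ℝ) (x : Fin n → ℝ → ℝ) (i : Fin n) (t : ℝ) : Prop :=
  ∀ s, 0 < s → s < t → ¬ AtHome home x i s

/-- Robot `i` is alive at time `t`, a death at time `t` itself being taken into account: it was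
never back home during `(0,t]`. -/
def Alive (home : Fin n → ℝ) (x : Fin n → ℝ → ℝ) (i : Fin n) (t : ℝ) : Prop :=
  ∀ s, 0 < s → s ≤ t → ¬ AtHome home x i s

/-- Robot `i` never dies. -/
def Survives (home : Fin n → ℝ) (x : Fin n → ℝ → ℝ) (i : Fin n) : Prop :=
  ∀ s, 0 < s → ¬ AtHome home x i s

/-- The motion of the robots. `x i t` is (a lift of) the position of robot `i` at time `t`, and
`vin i t`, `vout i t` are its velocities just before and just after time `t`.
* Robots start at home with their initial direction and have speed `1`.
* As long as a robot is alive, it moves at constant velocity `vin i t` just before time `t` and at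
  constant velocity `vout i t` just after time `t`.
* A robot that is alive at time `t > 0` and meets no other robot alive at time `t` keeps its
  velocity; two robots alive at time `t` that are at the same point exchange their velocities.
A robot dies at the first time `t > 0` at which it is at its home base; by the definition of
`Alive` it takes no part in a meeting at that time or later (death takes priority), and nothing is
required of its data after that time. -/
structure IsMotion (home dir : Fin n → ℝ) (x vin vout : Fin n → ℝ → ℝ) : Prop where
  start_pos : ∀ i, x i 0 = home i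
  start_vel : ∀ i, vout i 0 = dir i
  speed_in : ∀ i t, vin i t = 1 ∨ vin i t = -1
  speed_out : ∀ i t, vout i t = 1 ∨ vout i t = -1
  before : ∀ i t, 0 < t → AliveBefore home x i t →
    ∃ ε > 0, ∀ s, t - ε < s → s ≤ t → x i s = x i t + vin i t * (s - t)
  after : ∀ i t, 0 ≤ t → Alive home x i t →
    ∃ ε > 0, ∀ s, t ≤ s → s < t + ε → x i s = x i t + vout i t * (s - t)
  keep : ∀ i t, 0 < t → Alive home x i t →
    (∀ j, j ≠ i → Alive home x j t → ¬ SamePoint (x i t) (x j t)) → vout i t = vin i t
  exchange : ∀ i j t, 0 < t → i ≠ j → Alive home x i t → Alive home x j t →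
    SamePoint (x i t) (x j t) → vout i t = vin j t

/-- No collision involves three or more robots. -/
def NoTriple (home : Fin n → ℝ) (x : Fin n → ℝ → ℝ) : Prop :=
  ∀ i j k t, 0 < t → i ≠ j → j ≠ k → i ≠ k → Alive home x i t → Alive home x j t →
    Alive home x k t → ¬ (SamePoint (x i t) (x j t) ∧ SamePoint (x j t) (x k t))

end Pool.Agent.Helper74.Robots
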