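import Pool.Agent.Helper74.Robots.Sys

/-!
The explicit family of configurations for the lower bound.
-/

namespace Pool.Agent.Helper74.Robots

open Filter Topology

/-- Quasi-periodic extension of a finite sequence. -/
noncomputable def qper (p : ℕ) (u : ℕ → ℝ) (a : ℤ) : ℝ := u (a % p).toNat + ((a / p : ℤ) : ℝ)

theorem qper_eval {p : ℕ} {u : ℕ → ℝ} {i : ℕ} (hi : i < p) (m : ℤ) :
    qper p u (i + p * m) = u i + m := by
  have hp : (p : ℤ) ≠ 0 := by omega
  have h1 : ((i : ℤ) + p * m) % p = i := by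
    rw [Int.add_mul_emod_self_left]
    exact Int.emod_eq_of_lt (by omega) (by omega)
  have h2 : ((i : ℤ) + p * m) / p = m := by
    rw [Int.add_mul_ediv_left _ _ hp, Int.ediv_eq_zero_of_lt (by omega) (by omega), zero_add]
  unfold qper
  rw [h1, h2]; simp

theorem qper_repr {p : ℕ} (hp : 0 < p) (a : ℤ) : ∃ i : ℕ, ∃ m : ℤ, i < p ∧ a = i + p * m := by
  refine ⟨(a % p).toNat, a / p, ?_, ?_⟩
  · have h1 := Int.emod_lt_of_pos a (show (0:ℤ) < p by omega)
    have h2 := Int.emod_nonneg a (show (p:ℤ) ≠ 0 by omega)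
    omega
  · have h2 := Int.emod_nonneg a (show (p:ℤ) ≠ 0 by omega)
    have h3 := Int.emod_add_mul_ediv a p
    rw [Int.toNat_of_nonneg h2]
    exact h3.symm

theorem qper_period {p : ℕ} (hp : 0 < p) {u : ℕ → ℝ} (a : ℤ) : qper p u (a + p) = qper p u a + 1 := by
  obtain ⟨i, m, hi, rfl⟩ := qper_repr hp a
  have : (i : ℤ) + p * m + p = i + p * (m + 1) := by ring
  rw [this, qper_eval hi, qper_eval hi]; push_cast; ring

theorem qper_strictMono {p : ℕ} (hp : 0 < p) {u : ℕ → ℝ} (hu : ∀ i, i + 1 < p → u i < u (i + 1))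
    (hw : u (p - 1) < u 0 + 1) : StrictMono (qper p u) := by
  apply strictMono_int_of_lt_succ
  intro a
  obtain ⟨i, m, hi, rfl⟩ := qper_repr hp a
  by_cases h : i + 1 < p
  · have : (i : ℤ) + p * m + 1 = ((i + 1 : ℕ) : ℤ) + p * m := by push_cast; ring
    rw [this, qper_eval hi, qper_eval h]
    linarith [hu i h]
  · have hip : i = p - 1 := by omega
    have : (i : ℤ) + p * m + 1 = ((0 : ℕ) : ℤ) + p * (m + 1) := by
      have : (i : ℤ) + 1 = p := by omega
      push_cast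
      linarith
    rw [this, qper_eval hi, qper_eval hp, hip]
    push_cast
    linarith

/-- Build an ideal system from the finite lists of its lines. -/
noncomputable def mkSys (p q : ℕ) (hp : 0 < p) (hq : 0 < q) (u w : ℕ → ℝ)
    (hu : ∀ i, i + 1 < p → u i < u (i + 1)) (hu' : u (p - 1) < u 0 + 1)
    (hw : ∀ i, i + 1 < q → w i < w (i + 1)) (hw' : w (q - 1) < w 0 + 1) : Sys where
  p := p
  q := q
  hp := hp
  hq := hq
  α := qper p u
  β := fun b => qper q w (b - 1)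
  hα := qper_strictMono hp hu hu'
  hβ := fun a b hab => qper_strictMono hq hw hw' (by omega)
  hαp := fun a => qper_period hp a
  hβq := fun b => by
    have : b + (q : ℤ) - 1 = (b - 1) + q := by ring
    rw [this]; exact qper_period hq _

/-- Parameters of the family. -/
structure Fam where
  k : ℕ
  e : ℕ
  hk : 0 < k
  h : ℕ → ℝ
  g : ℕ → ℝ
  hh : StrictMono h
  hg : StrictMono g
  h0 : 0 ≤ h 0
  g0 : ∀ b, b < k → g b < 0
  P1 : ∀ j, j < 2 * k + 1 + e → h j < 1 / 2 + g 0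
  P2 : ∀ i m, i ≤ m → m < k → 2 * h i < h (k + e + i - m) + g m
  P3 : ∀ m b, m < k → b ≤ m → h (1 + e + m - b) + g b < 2 * h (k + m)
  P4 : ∀ m b, m < k → b < k → 0 < h (k + 1 + e + m) + g b - 2 * g m

namespace Fam

variable (A : Fam)

theorem h_nonneg (j : ℕ) : 0 ≤ A.h j := A.h0.trans (A.hh.monotone (Nat.zero_le j))

theorem h_lt_half {j : ℕ} (hj : j < 2 * A.k + 1 + A.e) : A.h j < 1 / 2 := by
  have := A.P1 j hj
  have := A.g0 0 A.hk
  linarith

theorem g0_le (b : ℕ) : A.g 0 ≤ A.g b := A.hg.monotone (Nat.zero_le b)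

theorem g0_gt : - (1 / 2) < A.g 0 := by
  have := A.P1 0 (by omega)
  have := A.h0
  linarith

theorem hw' : A.g (A.k - 1) + 1 < A.g 0 + 1 + 1 := by
  have h1 := A.g0 (A.k - 1) (by have := A.hk; omega)
  have h2 := A.g0_gt
  linarith

/-- The three ideal systems. -/
noncomputable def S1 : Sys :=
  mkSys (2 * A.k + 1 + A.e) A.k (by omega) A.hk A.h (fun b => A.g b + 1)
    (fun i _ => A.hh (Nat.lt_succ_self i))
    (by
      have := A.h_lt_half (j := 2 * A.k + 1 + A.e - 1) (by omega)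
      have := A.h0
      linarith)
    (fun i _ => by have := A.hg (Nat.lt_succ_self i); linarith)
    A.hw'

noncomputable def S2 : Sys :=
  mkSys (A.k + 1 + A.e) A.k (by omega) A.hk A.h (fun b => A.g b + 1)
    (fun i _ => A.hh (Nat.lt_succ_self i))
    (by
      have := A.h_lt_half (j := A.k + 1 + A.e - 1) (by omega)
      have := A.h0
      linarith)
    (fun i _ => by have := A.hg (Nat.lt_succ_self i); linarith)
    A.hw'

noncomputable def S3 : Sys :=
  mkSys A.k A.k A.hk A.hk (fun a => A.h (1 + A.e + a)) (fun b => A.g b + 1)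
    (fun i _ => A.hh (by omega))
    (by
      have := A.h_lt_half (j := 1 + A.e + (A.k - 1)) (by have := A.hk; omega)
      have := A.h_nonneg (1 + A.e + 0)
      linarith)
    (fun i _ => by have := A.hg (Nat.lt_succ_self i); linarith)
    A.hw'

theorem α1 {i : ℕ} (hi : i < 2 * A.k + 1 + A.e) (m : ℤ) :
    A.S1.α (i + (2 * A.k + 1 + A.e : ℕ) * m) = A.h i + m := qper_eval hi m

theorem α2 {i : ℕ} (hi : i < A.k + 1 + A.e) (m : ℤ) :
    A.S2.α (i + (A.k + 1 + A.e : ℕ) * m) = A.h i + m := qper_eval hi m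

theorem α3 {i : ℕ} (hi : i < A.k) (m : ℤ) :
    A.S3.α (i + A.k * m) = A.h (1 + A.e + i) + m := qper_eval (u := fun a => A.h (1 + A.e + a)) hi m

theorem β1 {i : ℕ} (hi : i < A.k) (m : ℤ) : A.S1.β (i + A.k * m + 1) = A.g i + 1 + m := by
  show qper A.k (fun b => A.g b + 1) ((i + A.k * m + 1 : ℤ) - 1) = _
  rw [add_sub_cancel_right, qper_eval hi]

theorem β2 {i : ℕ} (hi : i < A.k) (m : ℤ) : A.S2.β (i + A.k * m + 1) = A.g i + 1 + m :=
  A.β1 hi m

theorem β3 {i : ℕ} (hi : i < A.k) (m : ℤ) : A.S3.β (i + A.k * m + 1) = A.g i + 1 + m :=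
  A.β1 hi m

theorem α1' {i : ℕ} (hi : i < 2 * A.k + 1 + A.e) : A.S1.α i = A.h i := by
  have := A.α1 hi 0; simpa using this

theorem α2' {i : ℕ} (hi : i < A.k + 1 + A.e) : A.S2.α i = A.h i := by
  have := A.α2 hi 0; simpa using this

theorem β1' {i : ℕ} (hi : i < A.k) : A.S1.β (i + 1) = A.g i + 1 := by
  have := A.β1 hi 0; simpa using this

theorem β2' {i : ℕ} (hi : i < A.k) : A.S2.β (i + 1) = A.g i + 1 := A.β1' hi

theorem β3' {i : ℕ} (hi : i < A.k) : A.S3.β (i + 1) = A.g i + 1 := A.β1' hi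

/-- `β b ≥ g 0 + 1` for `b ≥ 1`, for all three systems. -/
theorem β_ge_one {b : ℤ} (hb : 1 ≤ b) : A.g 0 + 1 ≤ A.S1.β b := by
  have h1 := A.β1' (i := 0) A.hk
  rw [← h1]
  exact A.S1.hβ.monotone (by simpa using hb)

theorem β_ge_succ {b : ℤ} (hb : (A.k : ℤ) + 1 ≤ b) : A.g 0 + 2 ≤ A.S1.β b := by
  have h1 := A.β1 (i := 0) A.hk 1
  have h2 : A.g 0 + 2 = A.S1.β (A.k + 1) := by
    have e : ((0:ℕ) : ℤ) + A.k * 1 + 1 = A.k + 1 := by push_cast; ring
    rw [e] at h1
    rw [h1]; push_cast; ring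
  rw [h2]
  exact A.S1.hβ.monotone hb

theorem β_le_zero : A.S1.β 0 = A.g (A.k - 1) := by
  have hk := A.hk
  have h1 := A.β1 (i := A.k - 1) (by omega) (-1)
  have e : ((A.k - 1 : ℕ) : ℤ) + A.k * (-1) + 1 = 0 := by omega
  rw [e] at h1
  rw [h1]; push_cast; ring

theorem β_k : A.S1.β A.k = A.g (A.k - 1) + 1 := by
  have hk := A.hk
  have h1 := A.β1 (i := A.k - 1) (by omega) 0
  have e : ((A.k - 1 : ℕ) : ℤ) + A.k * 0 + 1 = A.k := by omega
  rw [e] at h1
  rw [h1]; push_cast; ring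

theorem β_succ_k : A.S1.β (A.k + 1) = A.g 0 + 2 := by
  have h1 := A.β1 (i := 0) A.hk 1
  have e : ((0:ℕ) : ℤ) + A.k * 1 + 1 = A.k + 1 := by push_cast; ring
  rw [e] at h1
  rw [h1]; push_cast; ring

end Fam

end Pool.Agent.Helper74.Robots
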