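import Pool.Agent.Helper74.Robots.Barrier

namespace Pool.Agent.Helper74.Robots

open Filter Topology

namespace Fam

variable (A : Fam)

/-- Number of robots of the family. -/
abbrev N : ℕ := 3 * A.k + 1 + A.e

noncomputable def home (i : Fin A.N) : ℝ :=
  if (i : ℕ) < 2 * A.k + 1 + A.e then A.h i else A.g (i - (2 * A.k + 1 + A.e)) + 1

noncomputable def dir (i : Fin A.N) : ℝ := if (i : ℕ) < 2 * A.k + 1 + A.e then 1 else -1

open Classical in
noncomputable def x (i : Fin A.N) (t : ℝ) : ℝ :=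
  if t ≤ 1 / 2 then A.S1.F (i : ℕ) t
  else if (i : ℕ) < 2 * A.k then (if t ≤ 1 then A.S2.F (i : ℕ) t else A.S3.F (i : ℕ) t)
  else if (i : ℕ) < 2 * A.k + 1 + A.e then
    (if t ≤ 1 then A.S2.F (i : ℕ) t else A.h (i - 2 * A.k) + t)
  else A.h (i - A.k) + t

open Classical in
noncomputable def vin (i : Fin A.N) (t : ℝ) : ℝ :=
  if t ≤ 1 / 2 then A.S1.vi (i : ℕ) t
  else if (i : ℕ) < 2 * A.k then (if t ≤ 1 then A.S2.vi (i : ℕ) t else A.S3.vi (i : ℕ) t)
  else if (i : ℕ) < 2 * A.k + 1 + A.e then (if t ≤ 1 then A.S2.vi (i : ℕ) t else 1)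
  else 1

open Classical in
noncomputable def vout (i : Fin A.N) (t : ℝ) : ℝ :=
  if t < 1 / 2 then A.S1.vo (i : ℕ) t
  else if (i : ℕ) < 2 * A.k then (if t < 1 then A.S2.vo (i : ℕ) t else A.S3.vo (i : ℕ) t)
  else if (i : ℕ) < 2 * A.k + 1 + A.e then (if t < 1 then A.S2.vo (i : ℕ) t else 1)
  else 1

theorem vin_pm (i : Fin A.N) (t : ℝ) : A.vin i t = 1 ∨ A.vin i t = -1 := by
  unfold vin
  split_ifs
  · exact A.S1.vi_pm _ _
  · exact A.S2.vi_pm _ _
  · exact A.S3.vi_pm _ _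
  · exact A.S2.vi_pm _ _
  · exact Or.inl rfl
  · exact Or.inl rfl

theorem vout_pm (i : Fin A.N) (t : ℝ) : A.vout i t = 1 ∨ A.vout i t = -1 := by
  unfold vout
  split_ifs
  · exact A.S1.vo_pm _ _
  · exact A.S2.vo_pm _ _
  · exact A.S3.vo_pm _ _
  · exact A.S2.vo_pm _ _
  · exact Or.inl rfl
  · exact Or.inl rfl

/-! ### Segments -/

theorem x1 {i : Fin A.N} {t : ℝ} (ht : t ≤ 1 / 2) : A.x i t = A.S1.F (i : ℕ) t := by
  unfold x; rw [if_pos ht]

theorem x2 {i : Fin A.N} {t : ℝ} (hi : (i : ℕ) < 2 * A.k + 1 + A.e) (ht0 : 1 / 2 ≤ t)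
    (ht : t ≤ 1) : A.x i t = A.S2.F (i : ℕ) t := by
  rcases ht0.eq_or_lt with h | h
  · rw [A.x1 h.symm.le, ← h]
    rcases lt_or_ge (i : ℕ) A.k with h1 | h1
    · rw [(A.j1_β h1).1, (A.j2_β h1).1]
    · rw [(A.j1_α h1 (by omega)).1, (A.j2_α h1 hi).1]
  · unfold x
    rw [if_neg (not_le.mpr h)]
    by_cases h1 : (i : ℕ) < 2 * A.k
    · rw [if_pos h1, if_pos ht]
    · rw [if_neg h1, if_pos hi, if_pos ht]

theorem x2n {i : Fin A.N} {t : ℝ} (hi : 2 * A.k + 1 + A.e ≤ (i : ℕ)) (ht0 : 1 / 2 ≤ t) :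
    A.x i t = A.h (i - A.k) + t := by
  have hiN := i.isLt
  rcases ht0.eq_or_lt with h | h
  · rw [A.x1 h.symm.le, ← h, (A.j1_α (by omega) (by simpa using hiN)).1]
  · unfold x
    rw [if_neg (not_le.mpr h), if_neg (by omega), if_neg (by omega)]

theorem x3 {i : Fin A.N} {t : ℝ} (hi : (i : ℕ) < 2 * A.k) (ht : 1 ≤ t) :
    A.x i t = A.S3.F (i : ℕ) t := by
  rcases ht.eq_or_lt with h | h
  · rw [A.x2 (by omega) (by linarith) h.symm.le, ← h]
    rcases lt_or_ge (i : ℕ) A.k with h1 | h1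
    · rw [(A.m2_a h1).1, (A.m3_a h1).1]
    · obtain ⟨j, hj⟩ : ∃ j, (i : ℕ) = A.k + j := ⟨i - A.k, by omega⟩
      rw [hj, (A.m2_b (i := j) (by omega)).1, (A.m3_b (i := j) (by omega)).1]
  · unfold x
    rw [if_neg (by linarith), if_pos hi, if_neg (by linarith)]

theorem x3x {i : Fin A.N} {t : ℝ} (hi0 : 2 * A.k ≤ (i : ℕ)) (hi : (i : ℕ) < 2 * A.k + 1 + A.e)
    (ht : 1 ≤ t) : A.x i t = A.h (i - 2 * A.k) + t := by
  rcases ht.eq_or_lt with h | h
  · rw [A.x2 hi (by linarith) h.symm.le, ← h]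
    obtain ⟨j, hj⟩ : ∃ j, (i : ℕ) = 2 * A.k + j := ⟨i - 2 * A.k, by omega⟩
    have e : (i : ℕ) - 2 * A.k = j := by omega
    rw [e, hj, (A.m2_c (j := j) (by omega)).1]
  · unfold x
    rw [if_neg (by linarith), if_neg (by omega), if_pos hi, if_neg (by linarith)]

theorem vi1 {i : Fin A.N} {t : ℝ} (ht : t ≤ 1 / 2) : A.vin i t = A.S1.vi (i : ℕ) t := by
  unfold vin; rw [if_pos ht]

theorem vi2 {i : Fin A.N} {t : ℝ} (hi : (i : ℕ) < 2 * A.k + 1 + A.e) (ht0 : 1 / 2 < t)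
    (ht : t ≤ 1) : A.vin i t = A.S2.vi (i : ℕ) t := by
  unfold vin
  rw [if_neg (not_le.mpr ht0)]
  by_cases h1 : (i : ℕ) < 2 * A.k
  · rw [if_pos h1, if_pos ht]
  · rw [if_neg h1, if_pos hi, if_pos ht]

theorem vi2n {i : Fin A.N} {t : ℝ} (hi : 2 * A.k + 1 + A.e ≤ (i : ℕ)) (ht0 : 1 / 2 < t) :
    A.vin i t = 1 := by
  unfold vin
  rw [if_neg (not_le.mpr ht0), if_neg (by omega), if_neg (by omega)]

theorem vi3 {i : Fin A.N} {t : ℝ} (hi : (i : ℕ) < 2 * A.k) (ht : 1 < t) :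
    A.vin i t = A.S3.vi (i : ℕ) t := by
  unfold vin
  rw [if_neg (by linarith), if_pos hi, if_neg (by linarith)]

theorem vi3x {i : Fin A.N} {t : ℝ} (hi0 : 2 * A.k ≤ (i : ℕ)) (hi : (i : ℕ) < 2 * A.k + 1 + A.e)
    (ht : 1 < t) : A.vin i t = 1 := by
  unfold vin
  rw [if_neg (by linarith), if_neg (by omega), if_pos hi, if_neg (by linarith)]

theorem vo1 {i : Fin A.N} {t : ℝ} (ht : t ≤ 1 / 2) : A.vout i t = A.S1.vo (i : ℕ) t := by
  rcases ht.eq_or_lt with h | h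
  · unfold vout
    rw [if_neg (by linarith), h]
    have hiN := i.isLt
    rcases lt_or_ge (i : ℕ) A.k with h1 | h1
    · rw [if_pos (by omega), if_pos (by norm_num), (A.j1_β h1).2.2, (A.j2_β h1).2.2]
    · rw [(A.j1_α h1 (by simpa using hiN)).2.2]
      by_cases h2 : (i : ℕ) < 2 * A.k
      · rw [if_pos h2, if_pos (by norm_num), (A.j2_α h1 (by omega)).2.2]
      · rw [if_neg h2]
        by_cases h3 : (i : ℕ) < 2 * A.k + 1 + A.e
        · rw [if_pos h3, if_pos (by norm_num), (A.j2_α h1 h3).2.2]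
        · rw [if_neg h3]
  · unfold vout; rw [if_pos h]

theorem vo2 {i : Fin A.N} {t : ℝ} (hi : (i : ℕ) < 2 * A.k + 1 + A.e) (ht0 : 1 / 2 ≤ t)
    (ht : t ≤ 1) : A.vout i t = A.S2.vo (i : ℕ) t := by
  unfold vout
  rw [if_neg (not_lt.mpr ht0)]
  rcases ht.eq_or_lt with h | h
  · rw [h]
    rcases lt_or_ge (i : ℕ) A.k with h1 | h1
    · rw [if_pos (by omega), if_neg (by norm_num), (A.m2_a h1).2.2, (A.m3_a h1).2.2]
    · by_cases h2 : (i : ℕ) < 2 * A.k
      · obtain ⟨j, hj⟩ : ∃ j, (i : ℕ) = A.k + j := ⟨i - A.k, by omega⟩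
        rw [if_pos h2, if_neg (by norm_num), hj, (A.m2_b (i := j) (by omega)).2.2,
          (A.m3_b (i := j) (by omega)).2.2]
      · obtain ⟨j, hj⟩ : ∃ j, (i : ℕ) = 2 * A.k + j := ⟨i - 2 * A.k, by omega⟩
        rw [if_neg h2, if_pos hi, if_neg (by norm_num), hj, (A.m2_c (j := j) (by omega)).2.2]
  · by_cases h1 : (i : ℕ) < 2 * A.k
    · rw [if_pos h1, if_pos h]
    · rw [if_neg h1, if_pos hi, if_pos h]

theorem vo2n {i : Fin A.N} {t : ℝ} (hi : 2 * A.k + 1 + A.e ≤ (i : ℕ)) (ht0 : 1 / 2 ≤ t) :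
    A.vout i t = 1 := by
  unfold vout
  rw [if_neg (not_lt.mpr ht0), if_neg (by omega), if_neg (by omega)]

theorem vo3 {i : Fin A.N} {t : ℝ} (hi : (i : ℕ) < 2 * A.k) (ht : 1 ≤ t) :
    A.vout i t = A.S3.vo (i : ℕ) t := by
  unfold vout
  rw [if_neg (by linarith), if_pos hi, if_neg (by linarith)]

theorem vo3x {i : Fin A.N} {t : ℝ} (hi0 : 2 * A.k ≤ (i : ℕ)) (hi : (i : ℕ) < 2 * A.k + 1 + A.e)
    (ht : 1 ≤ t) : A.vout i t = 1 := by
  unfold vout
  rw [if_neg (by linarith), if_neg (by omega), if_pos hi, if_neg (by linarith)]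

/-! ### Deaths -/

theorem not_samePoint_of {y c : ℝ} (h1 : c < y) (h2 : y < c + 1) : ¬ SamePoint y c := by
  rintro ⟨m, hm⟩
  have h3 : (0 : ℝ) < m := by linarith
  have h4 : (m : ℝ) < 1 := by linarith
  have h3' : (0 : ℤ) < m := by exact_mod_cast h3
  have h4' : m < (1 : ℤ) := by exact_mod_cast h4
  omega

theorem not_home_plus {i : Fin A.N} (hi : (i : ℕ) < 2 * A.k + 1 + A.e) {s : ℝ} (h0 : 0 < s)
    (h1 : s ≤ 1) : ¬ AtHome A.home A.x i s := by
  unfold AtHome home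
  rw [if_pos hi]
  rcases le_or_gt s (1 / 2) with h | h
  · rw [A.x1 h]
    exact not_samePoint_of (A.low1 hi h0 h) (A.up1 hi h0 h)
  · rw [A.x2 hi h.le h1]
    exact not_samePoint_of (A.low2 hi h.le h1) (A.up2 hi h.le h1)

theorem not_home_surv {i : Fin A.N} (hi : (i : ℕ) < 2 * A.k) {s : ℝ} (h0 : 0 < s) :
    ¬ AtHome A.home A.x i s := by
  rcases le_or_gt s 1 with h | h
  · exact A.not_home_plus (by omega) h0 h
  · unfold AtHome home
    rw [if_pos (by omega), A.x3 hi h.le]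
    exact not_samePoint_of (A.low3 hi s) (A.up3 hi s)

theorem not_home_minus {i : Fin A.N} (hi : 2 * A.k + 1 + A.e ≤ (i : ℕ)) {s : ℝ} (h0 : 0 < s)
    (h1 : s ≤ 1 / 2) : ¬ AtHome A.home A.x i s := by
  have hiN := i.isLt
  obtain ⟨m, hm⟩ : ∃ m, (i : ℕ) = 2 * A.k + 1 + A.e + m := ⟨i - (2 * A.k + 1 + A.e), by omega⟩
  have hmk : m < A.k := by
    have : (i : ℕ) < 3 * A.k + 1 + A.e := hiN
    omega
  unfold AtHome home
  rw [if_neg (by omega), A.x1 h1]
  have e : (i : ℕ) - (2 * A.k + 1 + A.e) = m := by omega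
  rw [e, hm]
  rintro ⟨z, hz⟩
  apply not_samePoint_of (A.low1n hmk h0 h1) (A.up1n hmk h0 h1)
  exact ⟨z + 1, by rw [Int.cast_add, Int.cast_one]; linarith⟩

theorem alive_plus {i : Fin A.N} (hi : (i : ℕ) < 2 * A.k + 1 + A.e) {t : ℝ} (ht : t ≤ 1) :
    Alive A.home A.x i t := fun _ hs hst => A.not_home_plus hi hs (hst.trans ht)

theorem alive_half {i : Fin A.N} {t : ℝ} (ht : t ≤ 1 / 2) :
    Alive A.home A.x i t := by
  intro s hs hst
  rcases lt_or_ge (i : ℕ) (2 * A.k + 1 + A.e) with h | h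
  · exact A.not_home_plus h hs (by linarith)
  · exact A.not_home_minus h hs (by linarith)

theorem alive_surv {i : Fin A.N} (hi : (i : ℕ) < 2 * A.k) {t : ℝ} :
    Alive A.home A.x i t := fun _ hs _ => A.not_home_surv hi hs

theorem survives {i : Fin A.N} (hi : (i : ℕ) < 2 * A.k) : Survives A.home A.x i :=
  fun _ hs => A.not_home_surv hi hs

/-- A robot of type `+` that is not a survivor dies at the latest when its line reaches its home
after more than one turn. -/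
theorem alive_X {i : Fin A.N} (hi0 : 2 * A.k ≤ (i : ℕ)) (hi : (i : ℕ) < 2 * A.k + 1 + A.e)
    {t : ℝ} (ha : Alive A.home A.x i t) : t < 1 + A.h i - A.h (i - 2 * A.k) := by
  by_contra hcon
  push Not at hcon
  have hlt : A.h (i - 2 * A.k) < A.h i := A.hh (by have := A.hk; omega)
  refine ha (1 + A.h i - A.h (i - 2 * A.k)) (by linarith) hcon ?_
  unfold AtHome home
  rw [if_pos hi, A.x3x hi0 hi (by linarith)]
  exact ⟨1, by push_cast; ring⟩

theorem alive_minus {i : Fin A.N} (hi : 2 * A.k + 1 + A.e ≤ (i : ℕ)) {t : ℝ}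
    (ha : Alive A.home A.x i t) :
    t < 1 + A.g (i - (2 * A.k + 1 + A.e)) - A.h (i - A.k) := by
  by_contra hcon
  push Not at hcon
  have hiN : (i : ℕ) < 3 * A.k + 1 + A.e := i.isLt
  have h1 := A.P1 (i - A.k) (by omega)
  have h2 := A.g0_le (i - (2 * A.k + 1 + A.e))
  refine ha (1 + A.g (i - (2 * A.k + 1 + A.e)) - A.h (i - A.k)) (by linarith) hcon ?_
  unfold AtHome home
  rw [if_neg (by omega), A.x2n hi (by linarith)]
  exact ⟨0, by push_cast; ring⟩

/-! ### No coincidences between robots of different systems -/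

theorem h_ne_mod {i j : ℕ} (hi : i < 2 * A.k + 1 + A.e) (hj : j < 2 * A.k + 1 + A.e)
    (hij : i ≠ j) (m : ℤ) : A.h i - A.h j ≠ m := by
  intro h
  have h1 := A.h_lt_half hi
  have h2 := A.h_lt_half hj
  have h3 := A.h_nonneg i
  have h4 := A.h_nonneg j
  have h5 : (m : ℝ) < 1 := by linarith
  have h6 : (-1 : ℝ) < m := by linarith
  have h5' : m < (1 : ℤ) := by exact_mod_cast h5
  have h6' : (-1 : ℤ) < m := by exact_mod_cast h6
  have h7 : m = 0 := by omega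
  rw [h7] at h
  push_cast at h
  exact hij (A.hh.injective (by linarith))

theorem no_int {y : ℝ} {m z : ℤ} (h1 : (m : ℝ) - 1 < y) (h2 : y < m) : y ≠ z := by
  intro h
  rw [h] at h1 h2
  have h1' : m - 1 < z := by exact_mod_cast h1
  have h2' : z < m := by exact_mod_cast h2
  omega

/-- Robots of type `+` and live robots of type `-` do not meet after time `1/2`. -/
theorem cross2 {r : ℤ} {m : ℕ} (hm : m < A.k) {t : ℝ} (ht0 : 1 / 2 ≤ t)
    (ht : t < 1 + A.g m - A.h (A.k + 1 + A.e + m)) :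
    ¬ SamePoint (A.S2.F r t) (A.h (A.k + 1 + A.e + m) + t) := by
  rintro ⟨z, hz⟩
  rcases A.S2.F_on_line r t with ⟨a, ha⟩ | ⟨b, hb⟩
  · obtain ⟨i, w, hi, rfl⟩ := qper_repr (show 0 < A.k + 1 + A.e by omega) a
    rw [ha, A.α2 hi w] at hz
    refine A.h_ne_mod (i := i) (j := A.k + 1 + A.e + m) (by omega) (by omega) (by omega)
      (z - w) ?_
    push_cast
    linarith
  · obtain ⟨i, w, hi, hbw⟩ := qper_repr A.hk (b - 1)
    have hb' : b = i + A.k * w + 1 := by linarith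
    rw [hb, hb', A.β2 hi w] at hz
    have h4 := A.P4 m i hm hi
    have h5 := A.g0 i hi
    have h6 := A.h_nonneg (A.k + 1 + A.e + m)
    refine no_int (y := A.g i - A.h (A.k + 1 + A.e + m) - 2 * t) (m := -1)
      (z := z - w - 1) ?_ ?_ ?_
    · push_cast; linarith
    · push_cast; linarith
    · push_cast; linarith

/-- Survivors and the other live robots of type `+` do not meet after time `1`. -/
theorem cross3 {r : ℤ} {j : ℕ} (hj : j ≤ A.e) {t : ℝ} (ht0 : 1 ≤ t)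
    (ht : t < 1 + A.h (2 * A.k + j) - A.h j) :
    ¬ SamePoint (A.S3.F r t) (A.h j + t) := by
  rintro ⟨z, hz⟩
  rcases A.S3.F_on_line r t with ⟨a, ha⟩ | ⟨b, hb⟩
  · obtain ⟨i, w, hi, rfl⟩ := qper_repr A.hk a
    rw [ha, A.α3 hi w] at hz
    refine A.h_ne_mod (i := 1 + A.e + i) (j := j) (by omega) (by omega) (by omega)
      (z - w) ?_
    push_cast
    linarith
  · obtain ⟨i, w, hi, hbw⟩ := qper_repr A.hk (b - 1)
    have hb' : b = i + A.k * w + 1 := by linarith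
    rw [hb, hb', A.β3 hi w] at hz
    have h4 := A.P1 (2 * A.k + j) (by omega)
    have h5 := A.g0 i hi
    have h6 := A.h_nonneg j
    have h7 := A.g0_le i
    have h8 := A.g0 0 A.hk
    refine no_int (y := A.g i - A.h j - 2 * t) (m := -2)
      (z := z - w - 1) ?_ ?_ ?_
    · push_cast; linarith
    · push_cast; linarith
    · push_cast; linarith

/-! ### The motion -/

theorem exch_wlog {i j : Fin A.N} {t : ℝ} (ht : 0 < t) (hij : i < j)
    (hi : Alive A.home A.x i t) (hj : Alive A.home A.x j t)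
    (hsp : SamePoint (A.x i t) (A.x j t)) : A.vout i t = A.vin j t ∧ A.vout j t = A.vin i t := by
  have hk := A.hk
  have hiN : (i : ℕ) < 3 * A.k + 1 + A.e := i.isLt
  have hjN : (j : ℕ) < 3 * A.k + 1 + A.e := j.isLt
  have hij' : (i : ℕ) < j := hij
  rcases le_or_gt t (1 / 2) with h1 | h1
  · rw [A.x1 h1, A.x1 h1] at hsp
    rw [A.vo1 h1, A.vo1 h1, A.vi1 h1, A.vi1 h1]
    apply A.S1.exch (by exact_mod_cast hij') ?_ hsp
    show (j : ℤ) < i + ((2 * A.k + 1 + A.e + A.k : ℕ) : ℤ)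
    push_cast; omega
  rcases lt_or_ge (j : ℕ) (2 * A.k + 1 + A.e) with hj1 | hj1
  swap
  · -- `j` is of type minus
    exfalso
    have hjal := A.alive_minus hj1 hj
    have hxj := A.x2n hj1 h1.le
    rcases lt_or_ge (i : ℕ) (2 * A.k + 1 + A.e) with hi1 | hi1
    · obtain ⟨m, hm⟩ : ∃ m, (j : ℕ) = 2 * A.k + 1 + A.e + m :=
        ⟨j - (2 * A.k + 1 + A.e), by omega⟩
      have e1 : (j : ℕ) - (2 * A.k + 1 + A.e) = m := by omega
      have e2 : (j : ℕ) - A.k = A.k + 1 + A.e + m := by omega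
      rw [e1, e2] at hjal
      rw [e2] at hxj
      have hg := A.g0 m (by omega)
      have hh := A.h_nonneg (A.k + 1 + A.e + m)
      rw [A.x2 hi1 h1.le (by linarith), hxj] at hsp
      exact A.cross2 (by omega) h1.le hjal hsp
    · rw [A.x2n hi1 h1.le, hxj] at hsp
      obtain ⟨z, hz⟩ := hsp
      exact A.h_ne_mod (i := i - A.k) (j := j - A.k) (by omega) (by omega) (by omega) z
        (by linarith)
  have hi1 : (i : ℕ) < 2 * A.k + 1 + A.e := by omega
  rcases le_or_gt t 1 with h2 | h2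
  · rw [A.x2 hi1 h1.le h2, A.x2 hj1 h1.le h2] at hsp
    rw [A.vo2 hi1 h1.le h2, A.vo2 hj1 h1.le h2, A.vi2 hi1 h1 h2, A.vi2 hj1 h1 h2]
    apply A.S2.exch (by exact_mod_cast hij') ?_ hsp
    show (j : ℤ) < i + ((A.k + 1 + A.e + A.k : ℕ) : ℤ)
    push_cast; omega
  rcases lt_or_ge (j : ℕ) (2 * A.k) with hj2 | hj2
  · have hi2 : (i : ℕ) < 2 * A.k := by omega
    rw [A.x3 hi2 h2.le, A.x3 hj2 h2.le] at hsp
    rw [A.vo3 hi2 h2.le, A.vo3 hj2 h2.le, A.vi3 hi2 h2, A.vi3 hj2 h2]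
    apply A.S3.exch (by exact_mod_cast hij') ?_ hsp
    show (j : ℤ) < i + ((A.k + A.k : ℕ) : ℤ)
    push_cast; omega
  · exfalso
    have hjal := A.alive_X hj2 hj1 hj
    have hxj := A.x3x hj2 hj1 h2.le
    rcases lt_or_ge (i : ℕ) (2 * A.k) with hi2 | hi2
    · obtain ⟨l, hl⟩ : ∃ l, (j : ℕ) = 2 * A.k + l := ⟨j - 2 * A.k, by omega⟩
      have e1 : (j : ℕ) - 2 * A.k = l := by omega
      rw [e1, hl] at hjal
      rw [e1] at hxj
      rw [A.x3 hi2 h2.le, hxj] at hsp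
      exact A.cross3 (by omega) h2.le hjal hsp
    · rw [A.x3x hi2 hi1 h2.le, hxj] at hsp
      obtain ⟨z, hz⟩ := hsp
      exact A.h_ne_mod (i := i - 2 * A.k) (j := j - 2 * A.k) (by omega) (by omega) (by omega) z
        (by linarith)

theorem keep' {i : Fin A.N} {t : ℝ} (ht : 0 < t)
    (hno : ∀ j, j ≠ i → Alive A.home A.x j t → ¬ SamePoint (A.x i t) (A.x j t)) :
    A.vout i t = A.vin i t := by
  have hk := A.hk
  have hiN : (i : ℕ) < 3 * A.k + 1 + A.e := i.isLt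
  by_contra hne
  rcases le_or_gt t (1 / 2) with h1 | h1
  · rw [A.vo1 h1, A.vi1 h1] at hne
    have hpq : A.S1.p + A.S1.q = 2 * A.k + 1 + A.e + A.k := rfl
    obtain ⟨r', hr0, hrN, hrne, hsp⟩ := A.S1.turn_partner (r := (i : ℕ)) (t := t) (by omega)
      (by rw [hpq]; push_cast; omega) hne
    rw [hpq] at hrN
    push_cast at hrN
    obtain ⟨l, rfl⟩ := Int.eq_ofNat_of_zero_le hr0
    have hl : l < A.N := by show l < 3 * A.k + 1 + A.e; omega
    refine hno ⟨l, hl⟩ ?_ (A.alive_half h1) ?_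
    · intro h; apply hrne; rw [← h]
    · rw [A.x1 h1, A.x1 h1]; exact hsp
  rcases lt_or_ge (i : ℕ) (2 * A.k + 1 + A.e) with hi1 | hi1
  swap
  · rw [A.vo2n hi1 h1.le, A.vi2n hi1 h1] at hne
    exact hne rfl
  rcases le_or_gt t 1 with h2 | h2
  · rw [A.vo2 hi1 h1.le h2, A.vi2 hi1 h1 h2] at hne
    have hpq : A.S2.p + A.S2.q = A.k + 1 + A.e + A.k := rfl
    obtain ⟨r', hr0, hrN, hrne, hsp⟩ := A.S2.turn_partner (r := (i : ℕ)) (t := t) (by omega)
      (by rw [hpq]; push_cast; omega) hne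
    rw [hpq] at hrN
    push_cast at hrN
    obtain ⟨l, rfl⟩ := Int.eq_ofNat_of_zero_le hr0
    have hl : l < A.N := by show l < 3 * A.k + 1 + A.e; omega
    have hl' : l < 2 * A.k + 1 + A.e := by omega
    refine hno ⟨l, hl⟩ ?_ (A.alive_plus hl' h2) ?_
    · intro h; apply hrne; rw [← h]
    · rw [A.x2 hi1 h1.le h2, A.x2 (i := ⟨l, hl⟩) hl' h1.le h2]; exact hsp
  rcases lt_or_ge (i : ℕ) (2 * A.k) with hi2 | hi2
  swap
  · rw [A.vo3x hi2 hi1 h2.le, A.vi3x hi2 hi1 h2] at hne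
    exact hne rfl
  rw [A.vo3 hi2 h2.le, A.vi3 hi2 h2] at hne
  have hpq : A.S3.p + A.S3.q = A.k + A.k := rfl
  obtain ⟨r', hr0, hrN, hrne, hsp⟩ := A.S3.turn_partner (r := (i : ℕ)) (t := t) (by omega)
    (by rw [hpq]; push_cast; omega) hne
  rw [hpq] at hrN
  push_cast at hrN
  obtain ⟨l, rfl⟩ := Int.eq_ofNat_of_zero_le hr0
  have hl : l < A.N := by show l < 3 * A.k + 1 + A.e; omega
  have hl' : l < 2 * A.k := by omega
  refine hno ⟨l, hl⟩ ?_ (A.alive_surv (i := ⟨l, hl⟩) hl') ?_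
  · intro h; apply hrne; rw [← h]
  · rw [A.x3 hi2 h2.le, A.x3 (i := ⟨l, hl⟩) hl' h2.le]; exact hsp

theorem isMotion : IsMotion A.home A.dir A.x A.vin A.vout where
  start_pos i := by
    rw [A.x1 (by norm_num)]
    unfold home
    by_cases h : (i : ℕ) < 2 * A.k + 1 + A.e
    · rw [if_pos h, (A.z_a h).1]
    · have hiN : (i : ℕ) < 3 * A.k + 1 + A.e := i.isLt
      obtain ⟨m, hm⟩ : ∃ m, (i : ℕ) = 2 * A.k + 1 + A.e + m :=
        ⟨i - (2 * A.k + 1 + A.e), by omega⟩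
      have e : (i : ℕ) - (2 * A.k + 1 + A.e) = m := by omega
      rw [if_neg h, e, hm, (A.z_b (m := m) (by omega)).1]
  start_vel i := by
    rw [A.vo1 (by norm_num)]
    unfold dir
    by_cases h : (i : ℕ) < 2 * A.k + 1 + A.e
    · rw [if_pos h, (A.z_a h).2.2]
    · have hiN : (i : ℕ) < 3 * A.k + 1 + A.e := i.isLt
      obtain ⟨m, hm⟩ : ∃ m, (i : ℕ) = 2 * A.k + 1 + A.e + m :=
        ⟨i - (2 * A.k + 1 + A.e), by omega⟩
      rw [if_neg h, hm, (A.z_b (m := m) (by omega)).2.2]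
  speed_in := A.vin_pm
  speed_out := A.vout_pm
  before i t ht _ := by
    rcases le_or_gt t (1 / 2) with h1 | h1
    · obtain ⟨ε, hε, h⟩ := A.S1.F_before (i : ℕ) t
      refine ⟨ε, hε, fun s hs hst => ?_⟩
      rw [A.x1 h1, A.x1 (hst.trans h1), A.vi1 h1]
      exact h s hs hst
    rcases lt_or_ge (i : ℕ) (2 * A.k + 1 + A.e) with hi1 | hi1
    swap
    · refine ⟨t - 1 / 2, by linarith, fun s hs hst => ?_⟩
      rw [A.x2n hi1 h1.le, A.x2n hi1 (by linarith), A.vi2n hi1 h1]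
      ring
    rcases le_or_gt t 1 with h2 | h2
    · obtain ⟨ε, hε, h⟩ := A.S2.F_before (i : ℕ) t
      refine ⟨min ε (t - 1 / 2), lt_min hε (by linarith), fun s hs hst => ?_⟩
      have m1 := min_le_left ε (t - 1 / 2)
      have m2 := min_le_right ε (t - 1 / 2)
      rw [A.x2 hi1 h1.le h2, A.x2 hi1 (by linarith) (by linarith), A.vi2 hi1 h1 h2]
      exact h s (by linarith) hst
    rcases lt_or_ge (i : ℕ) (2 * A.k) with hi2 | hi2
    swap
    · refine ⟨t - 1, by linarith, fun s hs hst => ?_⟩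
      rw [A.x3x hi2 hi1 h2.le, A.x3x hi2 hi1 (by linarith), A.vi3x hi2 hi1 h2]
      ring
    · obtain ⟨ε, hε, h⟩ := A.S3.F_before (i : ℕ) t
      refine ⟨min ε (t - 1), lt_min hε (by linarith), fun s hs hst => ?_⟩
      have m1 := min_le_left ε (t - 1)
      have m2 := min_le_right ε (t - 1)
      rw [A.x3 hi2 h2.le, A.x3 hi2 (by linarith), A.vi3 hi2 h2]
      exact h s (by linarith) hst
  after i t ht _ := by
    rcases lt_or_ge t (1 / 2) with h1 | h1
    · obtain ⟨ε, hε, h⟩ := A.S1.F_after (i : ℕ) t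
      refine ⟨min ε (1 / 2 - t), lt_min hε (by linarith), fun s hs hst => ?_⟩
      have m1 := min_le_left ε (1 / 2 - t)
      have m2 := min_le_right ε (1 / 2 - t)
      rw [A.x1 h1.le, A.x1 (by linarith), A.vo1 h1.le]
      exact h s hs (by linarith)
    rcases lt_or_ge (i : ℕ) (2 * A.k + 1 + A.e) with hi1 | hi1
    swap
    · refine ⟨1, by linarith, fun s hs hst => ?_⟩
      rw [A.x2n hi1 h1, A.x2n hi1 (by linarith), A.vo2n hi1 h1]
      ring
    rcases lt_or_ge t 1 with h2 | h2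
    · obtain ⟨ε, hε, h⟩ := A.S2.F_after (i : ℕ) t
      refine ⟨min ε (1 - t), lt_min hε (by linarith), fun s hs hst => ?_⟩
      have m1 := min_le_left ε (1 - t)
      have m2 := min_le_right ε (1 - t)
      rw [A.x2 hi1 h1 h2.le, A.x2 hi1 (by linarith) (by linarith), A.vo2 hi1 h1 h2.le]
      exact h s hs (by linarith)
    rcases lt_or_ge (i : ℕ) (2 * A.k) with hi2 | hi2
    swap
    · refine ⟨1, by linarith, fun s hs hst => ?_⟩
      rw [A.x3x hi2 hi1 h2, A.x3x hi2 hi1 (by linarith), A.vo3x hi2 hi1 h2]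
      ring
    · obtain ⟨ε, hε, h⟩ := A.S3.F_after (i : ℕ) t
      refine ⟨ε, hε, fun s hs hst => ?_⟩
      rw [A.x3 hi2 h2, A.x3 hi2 (by linarith), A.vo3 hi2 h2]
      exact h s hs hst
  keep i t ht _ hno := A.keep' ht hno
  exchange i j t ht hij hi hj hsp := by
    rcases lt_or_gt_of_ne hij with h | h
    · exact (A.exch_wlog ht h hi hj hsp).1
    · exact (A.exch_wlog ht h hj hi hsp.symm).2

theorem home_strictMono : StrictMono A.home := by
  intro i j hij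
  have hij' : (i : ℕ) < j := hij
  have hjN : (j : ℕ) < 3 * A.k + 1 + A.e := j.isLt
  unfold home
  by_cases hj : (j : ℕ) < 2 * A.k + 1 + A.e
  · rw [if_pos hj, if_pos (by omega)]
    exact A.hh hij'
  · rw [if_neg hj]
    by_cases hi : (i : ℕ) < 2 * A.k + 1 + A.e
    · rw [if_pos hi]
      have h1 := A.P1 i hi
      have h2 := A.g0_le (j - (2 * A.k + 1 + A.e))
      linarith
    · rw [if_neg hi]
      have := A.hg (show (i : ℕ) - (2 * A.k + 1 + A.e) < j - (2 * A.k + 1 + A.e) by omega)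
      linarith

theorem home_nonneg (i : Fin A.N) : 0 ≤ A.home i := by
  unfold home
  split_ifs
  · exact A.h_nonneg _
  · have := A.g0_gt
    have := A.g0_le (i - (2 * A.k + 1 + A.e))
    linarith

theorem home_lt_one (i : Fin A.N) : A.home i < 1 := by
  have hiN : (i : ℕ) < 3 * A.k + 1 + A.e := i.isLt
  unfold home
  split_ifs with h
  · have := A.h_lt_half h
    linarith
  · have := A.g0 (i - (2 * A.k + 1 + A.e)) (by omega)
    linarith

theorem dir_pm (i : Fin A.N) : A.dir i = 1 ∨ A.dir i = -1 := by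
  unfold dir; split_ifs <;> simp

end Fam

end Pool.Agent.Helper74.Robots
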