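import Pool.Agent.Helper74.Robots.Upper
import Pool.Agent.Helper74.Robots.Motion

namespace Pool.Agent.Helper74.Robots

open Filter Topology

/-! ### The concrete member of the family -/

/-- Integer positions of the robots of type `+` (before scaling and shifting). -/
def Hn (M e j : ℕ) : ℕ := 2 ^ (j / (1 + e)) * (M + j % (1 + e))

theorem Hn_strictMono {M e : ℕ} (hM : e < M) : StrictMono (Hn M e) := by
  apply strictMono_nat_of_lt_succ
  intro j
  unfold Hn
  have hpos : 0 < 1 + e := by omega
  have h1 := Nat.div_add_mod j (1 + e)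
  have h2 := Nat.mod_lt j hpos
  rcases Nat.lt_or_ge (j % (1 + e) + 1) (1 + e) with h | h
  · have h3 : (j + 1) / (1 + e) = j / (1 + e) := by
      have h6 : (j / (1 + e)) * (1 + e) = (1 + e) * (j / (1 + e)) := Nat.mul_comm _ _
      have h7 : (j / (1 + e) + 1) * (1 + e) = (1 + e) * (j / (1 + e)) + (1 + e) := by ring
      apply Nat.div_eq_of_lt_le <;> omega
    have h4 : (j + 1) % (1 + e) = j % (1 + e) + 1 := by
      have h5 := Nat.div_add_mod (j + 1) (1 + e)
      rw [h3] at h5
      omega
    rw [h3, h4]
    have : 0 < 2 ^ (j / (1 + e)) := by positivity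
    nlinarith
  · have h0 : j % (1 + e) = e := by omega
    have h3 : j + 1 = (1 + e) * (j / (1 + e) + 1) := by
      have : (1 + e) * (j / (1 + e) + 1) = (1 + e) * (j / (1 + e)) + (1 + e) := by ring
      omega
    have h4 : (j + 1) / (1 + e) = j / (1 + e) + 1 := by
      rw [h3]; exact Nat.mul_div_cancel_left _ hpos
    have h5 : (j + 1) % (1 + e) = 0 := by rw [h3]; exact Nat.mul_mod_right _ _
    rw [h4, h5, h0, pow_succ]
    have : 0 < 2 ^ (j / (1 + e)) := by positivity
    nlinarith

theorem Hn_double (M e j : ℕ) : Hn M e (j + 1 + e) = 2 * Hn M e j := by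
  unfold Hn
  have hpos : 0 < 1 + e := by omega
  have h1 : j + 1 + e = j + (1 + e) := by ring
  rw [h1, Nat.add_div_right _ hpos, Nat.add_mod_right, pow_succ]
  ring

theorem Hn_zero (M e : ℕ) : Hn M e 0 = M := by simp [Hn]

/-- The member of the family with parameters `k > 0` and `e`. -/
noncomputable def theFam (k e : ℕ) (hk : 0 < k) : Fam := by
  have hmono : StrictMono (Hn (k + e + 1) e) := Hn_strictMono (by omega)
  have hge : ∀ d a : ℕ, d + Hn (k + e + 1) e a ≤ Hn (k + e + 1) e (d + a) :=
    fun d a => hmono.add_le_nat d a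
  set L : ℝ := 2 * (Hn (k + e + 1) e (2 * k + e)) + 1 with hL
  have hLpos : 0 < L := by positivity
  refine
    { k := k
      e := e
      hk := hk
      h := fun j => ((Hn (k + e + 1) e j : ℝ) - (k + e + 1)) / L
      g := fun b => ((b : ℝ) - (k + e)) / L
      hh := ?_
      hg := ?_
      h0 := ?_
      g0 := ?_
      P1 := ?_
      P2 := ?_
      P3 := ?_
      P4 := ?_ }
  · intro a b hab
    have h1 : (Hn (k + e + 1) e a : ℝ) < Hn (k + e + 1) e b := by exact_mod_cast hmono hab
    show _ / L < _ / L
    rw [div_lt_div_iff_of_pos_right hLpos]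
    linarith
  · intro a b hab
    have h1 : (a : ℝ) < b := by exact_mod_cast hab
    show _ / L < _ / L
    rw [div_lt_div_iff_of_pos_right hLpos]
    linarith
  · show 0 ≤ _ / L
    rw [Hn_zero]
    apply div_nonneg _ hLpos.le
    push_cast
    linarith
  · intro b hb
    have h1 : (b : ℝ) < k := by exact_mod_cast hb
    show _ / L < 0
    apply div_neg_of_neg_of_pos _ hLpos
    have : (0 : ℝ) ≤ e := by positivity
    linarith
  · intro j hj
    have h1 : (Hn (k + e + 1) e j : ℝ) ≤ Hn (k + e + 1) e (2 * k + e) := by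
      exact_mod_cast hmono.monotone (by omega)
    show _ / L < 1 / 2 + _ / L
    rw [← sub_lt_iff_lt_add, ← sub_div, div_lt_div_iff₀ hLpos (by norm_num)]
    push_cast
    rw [hL]
    linarith
  · intro i m him hmk
    have h1 : 2 * Hn (k + e + 1) e i ≤ Hn (k + e + 1) e (k + e + i - m) := by
      rw [← Hn_double]
      exact hmono.monotone (by omega)
    have h2 : (2 : ℝ) * Hn (k + e + 1) e i ≤ Hn (k + e + 1) e (k + e + i - m) := by
      exact_mod_cast h1
    show 2 * (_ / L) < _ / L + _ / L
    rw [← add_div, ← mul_div_assoc, div_lt_div_iff_of_pos_right hLpos]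
    have h3 : (0 : ℝ) ≤ m := by positivity
    linarith
  · intro m b hmk hbm
    have h1 : Hn (k + e + 1) e (1 + e + m - b) + 2 * b + 2 ≤ 2 * Hn (k + e + 1) e (k + m) := by
      have e1 : 1 + e + m - b = (m - b) + 1 + e := by omega
      rw [e1, Hn_double]
      have h2 := hge b (m - b)
      have h3 := hge k m
      have e2 : b + (m - b) = m := by omega
      rw [e2] at h2
      omega
    have h2 : (Hn (k + e + 1) e (1 + e + m - b) : ℝ) + 2 * b + 2 ≤
        2 * Hn (k + e + 1) e (k + m) := by exact_mod_cast h1
    show _ / L + _ / L < 2 * (_ / L)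
    rw [← add_div, ← mul_div_assoc, div_lt_div_iff_of_pos_right hLpos]
    have h3 : (0 : ℝ) ≤ b := by positivity
    linarith
  · intro m b hmk hbk
    have h1 : (k + 1 + e + m) + (k + e + 1) ≤ Hn (k + e + 1) e (k + 1 + e + m) := by
      have := hge (k + 1 + e + m) 0
      rw [Hn_zero, add_zero] at this
      exact this
    have h2 : ((k : ℝ) + 1 + e + m) + (k + e + 1) ≤ Hn (k + e + 1) e (k + 1 + e + m) := by
      exact_mod_cast h1
    show 0 < _ / L + _ / L - 2 * (_ / L)
    rw [← add_div, ← mul_div_assoc, ← sub_div]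
    apply div_pos _ hLpos
    have h3 : (0 : ℝ) ≤ b := by positivity
    have h4 : (m : ℝ) < k := by exact_mod_cast hmk
    have h5 : (0 : ℝ) ≤ e := by positivity
    linarith

theorem IsMotion.noTriple {n : ℕ} {home dir : Fin n → ℝ} {x vin vout : Fin n → ℝ → ℝ}
    (M : IsMotion home dir x vin vout) (hmono : StrictMono home)
    (hspread : ∀ i j, home j < home i + 1) : NoTriple home x := by
  rintro i j k t ht hij hjk hik hi hj hk ⟨h1, h2⟩
  have e1 := M.vout_opp hmono hspread hij ht.le hi hj h1
  have e2 := M.vout_opp hmono hspread hik ht.le hi hk (h1.trans h2)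
  have e3 := M.vout_opp hmono hspread hjk ht.le hj hk h2
  rcases M.speed_out i t with a | a <;> rw [a] at e1 e2 <;> rw [e1, e2] at e3 <;> norm_num at e3

theorem Config.spread {n : ℕ} (c : Config n) (i j : Fin n) : c.home j < c.home i + 1 := by
  have := c.home_lt_one j
  have := c.home_nonneg i
  linarith

open Classical in
theorem ncard_eq {n : ℕ} (home : Fin n → ℝ) (x : Fin n → ℝ → ℝ) :
    Set.ncard {i | Survives home x i} =
      (Finset.univ.filter fun i => Survives home x i).card := by
  rw [← Set.ncard_coe_finset]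
  congr 1
  ext i; simp

/-- All robots start in direction `+1`. -/
noncomputable def trivialConfig (n : ℕ) : Config n where
  home i := (i : ℝ) / (n + 1)
  dir _ := 1
  home_nonneg i := by positivity
  home_lt_one i := by
    have h : ((i : ℕ) : ℝ) < n := by exact_mod_cast i.isLt
    rw [div_lt_one (by positivity)]
    linarith
  home_strictMono := by
    intro i j hij
    have h : ((i : ℕ) : ℝ) < (j : ℕ) := by exact_mod_cast hij
    show _ / _ < _ / _
    have hn : (0 : ℝ) < n + 1 := by positivity
    rw [div_lt_div_iff_of_pos_right hn]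
    exact h
  dir_eq _ := Or.inl rfl

theorem trivial_motion (n : ℕ) : IsMotion (trivialConfig n).home (trivialConfig n).dir
    (fun i t => (trivialConfig n).home i + t) (fun _ _ => 1) (fun _ _ => 1) where
  start_pos i := by simp
  start_vel _ := rfl
  speed_in _ _ := Or.inl rfl
  speed_out _ _ := Or.inl rfl
  before i t _ _ := ⟨1, one_pos, fun s _ _ => by ring⟩
  after i t _ _ := ⟨1, one_pos, fun s _ _ => by ring⟩
  keep _ _ _ _ _ := rfl
  exchange i j t _ hij _ _ _ := rfl

theorem Fam.exists_motion (A : Fam) : ∃ (c : Config A.N) (x vin vout : Fin A.N → ℝ → ℝ),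
    IsMotion c.home c.dir x vin vout ∧ 2 * A.k ≤ Set.ncard {i | Survives c.home x i} := by
  classical
  refine ⟨{ home := A.home
            dir := A.dir
            home_nonneg := A.home_nonneg
            home_lt_one := A.home_lt_one
            home_strictMono := A.home_strictMono
            dir_eq := A.dir_pm }, A.x, A.vin, A.vout, A.isMotion, ?_⟩
  rw [ncard_eq]
  have h1 : (Finset.univ.filter fun i : Fin A.N => (i : ℕ) < 2 * A.k) ⊆
      (Finset.univ.filter fun i => Survives A.home A.x i) := by
    intro i hi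
    simp only [Finset.mem_filter, Finset.mem_univ, true_and] at hi ⊢
    exact A.survives hi
  have h2 : (Finset.univ.filter fun i : Fin A.N => (i : ℕ) < 2 * A.k).card = 2 * A.k := by
    rw [Fin.card_filter_val_lt]
    show min (3 * A.k + 1 + A.e) (2 * A.k) = 2 * A.k
    omega
  have h3 := Finset.card_le_card h1
  rw [h2] at h3
  convert h3

theorem main (n : ℕ) :
    IsGreatest {s : ℕ | ∃ (c : Config n) (x vin vout : Fin n → ℝ → ℝ),
      IsMotion c.home c.dir x vin vout ∧ NoTriple c.home x ∧
        s = Set.ncard {i | Survives c.home x i}} (2 * ((n - 1) / 3)) := by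
  classical
  have hub : ∀ (c : Config n) (x vin vout : Fin n → ℝ → ℝ),
      IsMotion c.home c.dir x vin vout →
        Set.ncard {i | Survives c.home x i} ≤ 2 * ((n - 1) / 3) := by
    intro c x vin vout M
    rw [ncard_eq]
    convert M.upper c.home_strictMono c.spread
  constructor
  · rcases Nat.eq_zero_or_pos ((n - 1) / 3) with h | h
    · refine ⟨trivialConfig n, _, _, _, trivial_motion n,
        (trivial_motion n).noTriple (trivialConfig n).home_strictMono (trivialConfig n).spread,
        ?_⟩
      have := hub _ _ _ _ (trivial_motion n)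
      omega
    · obtain ⟨k, e, hk, he, hn⟩ : ∃ k e, 0 < k ∧ e ≤ 2 ∧ n = 3 * k + 1 + e :=
        ⟨(n - 1) / 3, (n - 1) % 3, h, by omega, by omega⟩
      subst hn
      obtain ⟨c, x, vin, vout, hM, hc⟩ : ∃ (c : Config (3 * k + 1 + e))
          (x vin vout : Fin (3 * k + 1 + e) → ℝ → ℝ), IsMotion c.home c.dir x vin vout ∧
            2 * k ≤ Set.ncard {i | Survives c.home x i} := (theFam k e hk).exists_motion
      refine ⟨c, x, vin, vout, hM, hM.noTriple c.home_strictMono c.spread, ?_⟩
      have h4 : (3 * k + 1 + e - 1) / 3 = k := by omega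
      have h5 := hub c x vin vout hM
      rw [h4] at h5 ⊢
      omega
  · rintro s ⟨c, x, vin, vout, M, -, rfl⟩
    exact hub c x vin vout M

end Pool.Agent.Helper74.Robots
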