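import Pool.Agent.Helper74.Robots.Order

namespace Pool.Agent.Helper74.Robots

open Filter Topology

variable {n : ℕ} {home dir : Fin n → ℝ} {x vin vout : Fin n → ℝ → ℝ}

/-- An integer in `[0,1]` is `0` or `1`. -/
theorem int_zero_or_one {d : ℝ} (h0 : 0 ≤ d) (h1 : d ≤ 1) (hd : ∃ m : ℤ, d = m) :
    d = 0 ∨ d = 1 := by
  obtain ⟨m, hm⟩ := hd
  rw [hm] at h0 h1
  have h0' : 0 ≤ m := by exact_mod_cast h0
  have h1' : m ≤ 1 := by exact_mod_cast h1
  have : m = 0 ∨ m = 1 := by omega
  rcases this with h | h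
  · left; rw [hm, h]; simp
  · right; rw [hm, h]; simp

namespace IsMotion

variable (M : IsMotion home dir x vin vout)
include M

theorem pair_lt (hmono : StrictMono home) (hspread : ∀ i j, home j < home i + 1)
    {i j : Fin n} (hij : i < j) {t : ℝ} (ht : 0 ≤ t) (hi : Alive home x i t)
    (hj : Alive home x j t) (hsp : SamePoint (x i t) (x j t)) :
    (x j t = x i t ∧ vout i t = -1 ∧ vout j t = 1) ∨
    (x j t = x i t + 1 ∧ vout i t = 1 ∧ vout j t = -1) := by
  obtain ⟨h0, h1, h2, h3⟩ := M.ordOut hmono hspread hij t ht hi hj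
  obtain ⟨m, hm⟩ := hsp.symm
  rcases int_zero_or_one h0 h1 ⟨m, hm⟩ with h | h
  · left; exact ⟨by linarith, h2 h⟩
  · right; exact ⟨by linarith, h3 h⟩

theorem pair_lt_in (hmono : StrictMono home) (hspread : ∀ i j, home j < home i + 1)
    {i j : Fin n} (hij : i < j) {t : ℝ} (ht : 0 < t) (hi : AliveBefore home x i t)
    (hj : AliveBefore home x j t) (hsp : SamePoint (x i t) (x j t)) :
    (x j t = x i t ∧ vin i t = 1 ∧ vin j t = -1) ∨
    (x j t = x i t + 1 ∧ vin i t = -1 ∧ vin j t = 1) := by
  obtain ⟨h0, h1, h2, h3⟩ := M.ordIn hmono hspread hij ht hi hj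
  obtain ⟨m, hm⟩ := hsp.symm
  rcases int_zero_or_one h0 h1 ⟨m, hm⟩ with h | h
  · left; exact ⟨by linarith, h2 h⟩
  · right; exact ⟨by linarith, h3 h⟩

/-- Two different robots at the same point have opposite outgoing velocities. -/
theorem vout_opp (hmono : StrictMono home) (hspread : ∀ i j, home j < home i + 1)
    {i j : Fin n} (hij : i ≠ j) {t : ℝ} (ht : 0 ≤ t) (hi : Alive home x i t)
    (hj : Alive home x j t) (hsp : SamePoint (x i t) (x j t)) : vout j t = - vout i t := by
  rcases lt_or_gt_of_ne hij with h | h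
  · rcases M.pair_lt hmono hspread h ht hi hj hsp with ⟨-, a, b⟩ | ⟨-, a, b⟩ <;> rw [a, b] <;> norm_num
  · rcases M.pair_lt hmono hspread h ht hj hi hsp.symm with ⟨-, a, b⟩ | ⟨-, a, b⟩ <;>
      rw [a, b] <;> norm_num

theorem vin_opp (hmono : StrictMono home) (hspread : ∀ i j, home j < home i + 1)
    {i j : Fin n} (hij : i ≠ j) {t : ℝ} (ht : 0 < t) (hi : AliveBefore home x i t)
    (hj : AliveBefore home x j t) (hsp : SamePoint (x i t) (x j t)) : vin j t = - vin i t := by
  rcases lt_or_gt_of_ne hij with h | h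
  · rcases M.pair_lt_in hmono hspread h ht hi hj hsp with ⟨-, a, b⟩ | ⟨-, a, b⟩ <;>
      rw [a, b] <;> norm_num
  · rcases M.pair_lt_in hmono hspread h ht hj hi hsp.symm with ⟨-, a, b⟩ | ⟨-, a, b⟩ <;>
      rw [a, b] <;> norm_num

theorem vout_inj (hmono : StrictMono home) (hspread : ∀ i j, home j < home i + 1)
    {i j : Fin n} {t : ℝ} (ht : 0 ≤ t) (hi : Alive home x i t)
    (hj : Alive home x j t) (hsp : SamePoint (x i t) (x j t)) (hv : vout i t = vout j t) :
    i = j := by
  by_contra hij
  have h1 := M.vout_opp hmono hspread hij ht hi hj hsp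
  rcases M.speed_out i t with a | a <;> rw [← hv, a] at h1 <;> norm_num at h1

theorem vin_inj (hmono : StrictMono home) (hspread : ∀ i j, home j < home i + 1)
    {i j : Fin n} {t : ℝ} (ht : 0 < t) (hi : AliveBefore home x i t)
    (hj : AliveBefore home x j t) (hsp : SamePoint (x i t) (x j t)) (hv : vin i t = vin j t) :
    i = j := by
  by_contra hij
  have h1 := M.vin_opp hmono hspread hij ht hi hj hsp
  rcases M.speed_in i t with a | a <;> rw [← hv, a] at h1 <;> norm_num at h1

/-- If a robot of type `+` leaves a meeting in direction `+`, its partner is of type `+`. -/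
theorem coll_dir_pos (hmono : StrictMono home) (hspread : ∀ i j, home j < home i + 1)
    {i j : Fin n} (hij : i ≠ j) {t : ℝ} (ht : 0 < t) (hi : Alive home x i t)
    (hj : Alive home x j t) (hsp : SamePoint (x i t) (x j t)) (hv : vout i t = 1)
    (hd : dir i = 1) : dir j = 1 := by
  have hp := (M.pos_of_dir_one hd t ht.le hi ht).1
  rcases M.dir_eq j with h | h
  · exact h
  exfalso
  have hn := (M.pos_of_dir_neg h t ht.le hj ht).2
  rcases lt_or_gt_of_ne hij with h' | h'
  · rcases M.pair_lt hmono hspread h' ht.le hi hj hsp with ⟨e, a, b⟩ | ⟨e, a, b⟩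
    · rw [hv] at a; norm_num at a
    · have := hspread i j
      linarith
  · rcases M.pair_lt hmono hspread h' ht.le hj hi hsp.symm with ⟨e, a, b⟩ | ⟨e, a, b⟩
    · have := hmono h'
      linarith
    · rw [hv] at b; norm_num at b

/-- If a robot of type `-` leaves a meeting in direction `-`, its partner is of type `-`. -/
theorem coll_dir_neg (hmono : StrictMono home) (hspread : ∀ i j, home j < home i + 1)
    {i j : Fin n} (hij : i ≠ j) {t : ℝ} (ht : 0 < t) (hi : Alive home x i t)
    (hj : Alive home x j t) (hsp : SamePoint (x i t) (x j t)) (hv : vout i t = -1)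
    (hd : dir i = -1) : dir j = -1 := by
  have hp := (M.pos_of_dir_neg hd t ht.le hi ht).2
  rcases M.dir_eq j with h | h
  swap
  · exact h
  exfalso
  have hn := (M.pos_of_dir_one h t ht.le hj ht).1
  rcases lt_or_gt_of_ne hij with h' | h'
  · rcases M.pair_lt hmono hspread h' ht.le hi hj hsp with ⟨e, a, b⟩ | ⟨e, a, b⟩
    · have := hmono h'
      linarith
    · rw [hv] at a; norm_num at a
  · rcases M.pair_lt hmono hspread h' ht.le hj hi hsp.symm with ⟨e, a, b⟩ | ⟨e, a, b⟩
    · rw [hv] at b; norm_num at b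
    · have := hspread j i
      linarith

/-- Backward tracing of a line of velocity `σ` whose carriers are of a type `τ` that is closed
under passing to the collision partner. -/
theorem trace_back (σ : ℝ) (τ : Fin n → Prop)
    (hcl : ∀ i j t, 0 < t → i ≠ j → Alive home x i t → Alive home x j t →
      SamePoint (x i t) (x j t) → vout i t = σ → τ i → τ j)
    {i : Fin n} {T : ℝ} (hT : Alive home x i T) (hv : vout i T = σ) (hτ : τ i) :
    ∀ s, 0 ≤ s → s ≤ T → ∃ i', Alive home x i' s ∧ vout i' s = σ ∧ τ i' ∧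
      SamePoint (x i' s - σ * s) (x i T - σ * T) := by
  apply real_induction_down (Q := fun s => ∃ i', Alive home x i' s ∧ vout i' s = σ ∧ τ i' ∧
      SamePoint (x i' s - σ * s) (x i T - σ * T))
  · exact ⟨i, hT, hv, hτ, SamePoint.refl _⟩
  · rintro t ht htT ⟨i', h1, h2, h3, h4⟩
    -- find the carrier just before `t`
    have hcar : ∃ k, Alive home x k t ∧ vin k t = σ ∧ τ k ∧ SamePoint (x k t) (x i' t) := by
      by_cases hc : ∃ j, j ≠ i' ∧ Alive home x j t ∧ SamePoint (x i' t) (x j t)
      · obtain ⟨j, hj1, hj2, hj3⟩ := hc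
        refine ⟨j, hj2, ?_, hcl i' j t ht hj1.symm h1 hj2 hj3 h2 h3, hj3.symm⟩
        rw [← M.exchange i' j t ht hj1.symm h1 hj2 hj3, h2]
      · push Not at hc
        refine ⟨i', h1, ?_, h3, SamePoint.refl _⟩
        rw [← M.keep i' t ht h1 (fun j hj hja => hc j hj hja), h2]
    obtain ⟨k, hk1, hk2, hk3, hk4⟩ := hcar
    filter_upwards [M.before_ev ht hk1.before] with s hs
    refine ⟨k, hs.1, by rw [hs.2.2.1, hk2], hk3, ?_⟩
    have e : x k s - σ * s = x k t + (-σ * t) := by rw [hs.2.1, hk2]; ring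
    rw [e]
    have e2 : x i' t - σ * t = x i' t + (-σ * t) := by ring
    rw [e2] at h4
    exact (hk4.sub_right _).trans h4
  · intro t ht htT hQ
    have h5 : ∀ᶠ s in 𝓝[>] t, s < T :=
      eventually_nhdsWithin_of_eventually_nhds (gt_mem_nhds htT)
    obtain ⟨s, hs, hs1, hs2⟩ := ((M.after_all ht).and (h5.and self_mem_nhdsWithin)).exists
    obtain ⟨i', h1, h2, h3, h4⟩ := hQ s hs2 hs1.le
    have hal := (hs i').1.mp h1
    obtain ⟨e1, e2, -⟩ := (hs i').2 hal
    refine ⟨i', hal, by rw [← e2, h2], h3, ?_⟩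
    have e : x i' t - σ * t = x i' s - σ * s := by rw [e1, ← e2, h2]; ring
    rw [e]; exact h4

/-- The line of a robot of type `+` moving in direction `+` was always carried by such robots. -/
theorem trace_A (hmono : StrictMono home) (hspread : ∀ i j, home j < home i + 1)
    {i : Fin n} {T : ℝ} (hT : Alive home x i T) (hv : vout i T = 1) (hd : dir i = 1)
    {s : ℝ} (hs : 0 ≤ s) (hsT : s ≤ T) : ∃ i', Alive home x i' s ∧ vout i' s = 1 ∧ dir i' = 1 ∧
      SamePoint (x i' s - s) (x i T - T) := by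
  have := M.trace_back 1 (fun k => dir k = 1) (fun i j t ht hij hi hj hsp hv hd =>
    M.coll_dir_pos hmono hspread hij ht hi hj hsp hv hd) hT hv hd s hs hsT
  simpa using this

theorem trace_Ap (hmono : StrictMono home) (hspread : ∀ i j, home j < home i + 1)
    {i : Fin n} {T : ℝ} (hT : Alive home x i T) (hv : vout i T = -1) (hd : dir i = -1)
    {s : ℝ} (hs : 0 ≤ s) (hsT : s ≤ T) : ∃ i', Alive home x i' s ∧ vout i' s = -1 ∧ dir i' = -1 ∧
      SamePoint (x i' s + s) (x i T + T) := by
  have := M.trace_back (-1) (fun k => dir k = -1) (fun i j t ht hij hi hj hsp hv hd =>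
    M.coll_dir_neg hmono hspread hij ht hi hj hsp hv hd) hT hv hd s hs hsT
  simpa using this

theorem trace_neg {i : Fin n} {T : ℝ} (hT : Alive home x i T) (hv : vout i T = -1)
    {s : ℝ} (hs : 0 ≤ s) (hsT : s ≤ T) : ∃ i', Alive home x i' s ∧ vout i' s = -1 ∧
      SamePoint (x i' s + s) (x i T + T) := by
  have := M.trace_back (-1) (fun _ => True) (fun _ _ _ _ _ _ _ _ _ _ => trivial) hT hv trivial
    s hs hsT
  simpa using this

/-- After time `1/2` there are not both a `+` robot moving `+` and a `-` robot moving `-`. -/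
theorem annihilate (hmono : StrictMono home) (hspread : ∀ i j, home j < home i + 1)
    {t : ℝ} (ht : 1 / 2 ≤ t) {i j : Fin n} (hi : Alive home x i t) (hvi : vout i t = 1)
    (hdi : dir i = 1) (hj : Alive home x j t) (hvj : vout j t = -1) (hdj : dir j = -1) : False := by
  set s : ℝ := Int.fract ((x j t + t) - (x i t - t)) / 2 with hs
  have hf0 := Int.fract_nonneg ((x j t + t) - (x i t - t))
  have hf1 := Int.fract_lt_one ((x j t + t) - (x i t - t))
  have hs0 : 0 ≤ s := by rw [hs]; linarith
  have hs1 : s < 1 / 2 := by rw [hs]; linarith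
  obtain ⟨a, ha1, ha2, ha3, ha4⟩ := M.trace_A hmono hspread hi hvi hdi hs0 (by linarith)
  obtain ⟨b, hb1, hb2, hb3, hb4⟩ := M.trace_Ap hmono hspread hj hvj hdj hs0 (by linarith)
  have hab : a ≠ b := by
    intro h; rw [h, hb3] at ha3; norm_num at ha3
  have hsp : SamePoint (x a s) (x b s) := by
    obtain ⟨m1, hm1⟩ := ha4
    obtain ⟨m2, hm2⟩ := hb4
    refine ⟨m1 - m2 - ⌊(x j t + t) - (x i t - t)⌋, ?_⟩
    have h2s : 2 * s = Int.fract ((x j t + t) - (x i t - t)) := by rw [hs]; ring
    have h3 := Int.floor_add_fract ((x j t + t) - (x i t - t))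
    push_cast
    linarith
  rcases hs0.eq_or_lt with h0 | h0
  · rw [← h0, M.start_pos, M.start_pos] at hsp
    obtain ⟨m, hm⟩ := hsp
    have h1 : |home a - home b| < 1 := by
      rw [abs_lt]
      constructor
      · linarith [hspread a b]
      · linarith [hspread b a]
    rw [hm] at h1
    have h2 : |m| < 1 := by exact_mod_cast h1
    have h3 : m = 0 := by
      rw [abs_lt] at h2; omega
    rw [h3] at hm
    exact hab (hmono.injective (by push_cast at hm; linarith))
  · have := M.coll_dir_pos hmono hspread hab h0 ha1 hb1 hsp ha2 ha3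
    rw [hb3] at this; norm_num at this

end IsMotion

end Pool.Agent.Helper74.Robots
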