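import Pool.Agent.Helper74.Robots.Basic

namespace Pool.Agent.Helper74.Robots

open Filter Topology

variable {n : ℕ} {home dir : Fin n → ℝ} {x vin vout : Fin n → ℝ → ℝ}

/-- Cyclic order of two robots at time `t` together with the outgoing velocities at contact. -/
def OrdOut (x vout : Fin n → ℝ → ℝ) (i j : Fin n) (t : ℝ) : Prop :=
  0 ≤ x j t - x i t ∧ x j t - x i t ≤ 1 ∧
    (x j t - x i t = 0 → vout i t = -1 ∧ vout j t = 1) ∧
    (x j t - x i t = 1 → vout i t = 1 ∧ vout j t = -1)

def OrdIn (x vin : Fin n → ℝ → ℝ) (i j : Fin n) (t : ℝ) : Prop :=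
  0 ≤ x j t - x i t ∧ x j t - x i t ≤ 1 ∧
    (x j t - x i t = 0 → vin i t = 1 ∧ vin j t = -1) ∧
    (x j t - x i t = 1 → vin i t = -1 ∧ vin j t = 1)

namespace IsMotion

variable (M : IsMotion home dir x vin vout)
include M

theorem dir_eq (i : Fin n) : dir i = 1 ∨ dir i = -1 := by
  rw [← M.start_vel i]; exact M.speed_out i 0

theorem ordIn_of {i j : Fin n} {t : ℝ} (ht : 0 < t)
    (hi : AliveBefore home x i t) (hj : AliveBefore home x j t)
    (h : ∀ s, 0 ≤ s → s < t → Alive home x i s → Alive home x j s → OrdOut x vout i j s) :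
    OrdIn x vin i j t := by
  have hev : ∀ᶠ s in 𝓝[<] t, 0 < s ∧ s < t ∧ OrdOut x vout i j s ∧
      x i s = x i t + vin i t * (s - t) ∧ vout i s = vin i t ∧
      x j s = x j t + vin j t * (s - t) ∧ vout j s = vin j t := by
    have h0 : ∀ᶠ s in 𝓝[<] t, (0 : ℝ) < s :=
      eventually_nhdsWithin_of_eventually_nhds (lt_mem_nhds ht)
    filter_upwards [M.before_ev ht hi, M.before_ev ht hj, h0, self_mem_nhdsWithin]
      with s h1 h2 h3 h4
    exact ⟨h3, h4, h s h3.le h4 h1.1 h2.1, h1.2.1, h1.2.2.1, h2.2.1, h2.2.2.1⟩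
  -- bounds
  have hlow : 0 ≤ x j t - x i t := by
    by_contra hneg
    push Not at hneg
    have h5 : ∀ᶠ s in 𝓝[<] t, t - (-(x j t - x i t)) / 2 < s :=
      eventually_nhdsWithin_of_eventually_nhds (lt_mem_nhds (by linarith))
    obtain ⟨s, ⟨hs0, hst, ho, e1, -, e2, -⟩, h6⟩ := (hev.and h5).exists
    have h7 := ho.1
    rw [e1, e2] at h7
    rcases M.speed_in i t with a | a <;> rcases M.speed_in j t with b | b <;>
      rw [a, b] at h7 <;> linarith
  have hhigh : x j t - x i t ≤ 1 := by
    by_contra hneg
    push Not at hneg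
    have h5 : ∀ᶠ s in 𝓝[<] t, t - (x j t - x i t - 1) / 2 < s :=
      eventually_nhdsWithin_of_eventually_nhds (lt_mem_nhds (by linarith))
    obtain ⟨s, ⟨hs0, hst, ho, e1, -, e2, -⟩, h6⟩ := (hev.and h5).exists
    have h7 := ho.2.1
    rw [e1, e2] at h7
    rcases M.speed_in i t with a | a <;> rcases M.speed_in j t with b | b <;>
      rw [a, b] at h7 <;> linarith
  obtain ⟨s, hs0, hst, ho, e1, e3, e2, e4⟩ := hev.exists
  refine ⟨hlow, hhigh, fun hD => ?_, fun hD => ?_⟩
  · have h7 := ho.1
    have h8 := ho.2.2.1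
    rw [e1, e2] at h7 h8
    rw [e3, e4] at h8
    rcases M.speed_in i t with a | a <;> rcases M.speed_in j t with b | b <;>
      rw [a, b] at h7 h8 ⊢
    · have := (h8 (by linarith)).1
      norm_num at this
    · exact ⟨rfl, rfl⟩
    · exfalso; linarith
    · have := (h8 (by linarith)).2
      norm_num at this
  · have h7 := ho.2.1
    have h8 := ho.2.2.2
    rw [e1, e2] at h7 h8
    rw [e3, e4] at h8
    rcases M.speed_in i t with a | a <;> rcases M.speed_in j t with b | b <;>
      rw [a, b] at h7 h8 ⊢
    · have := (h8 (by linarith)).2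
      norm_num at this
    · exfalso; linarith
    · exact ⟨rfl, rfl⟩
    · have := (h8 (by linarith)).1
      norm_num at this

theorem ordOut_of_ordIn {i j : Fin n} {t : ℝ} (hij : i ≠ j) (ht : 0 < t)
    (hi : Alive home x i t) (hj : Alive home x j t) (h : OrdIn x vin i j t) :
    OrdOut x vout i j t := by
  obtain ⟨h0, h1, h2, h3⟩ := h
  refine ⟨h0, h1, fun hD => ?_, fun hD => ?_⟩
  · obtain ⟨a, b⟩ := h2 hD
    have hsp : SamePoint (x i t) (x j t) := ⟨0, by push_cast; linarith⟩
    rw [M.exchange i j t ht hij hi hj hsp, M.exchange j i t ht hij.symm hj hi hsp.symm]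
    exact ⟨b, a⟩
  · obtain ⟨a, b⟩ := h3 hD
    have hsp : SamePoint (x i t) (x j t) := ⟨-1, by push_cast; linarith⟩
    rw [M.exchange i j t ht hij hi hj hsp, M.exchange j i t ht hij.symm hj hi hsp.symm]
    exact ⟨b, a⟩

/-- Robots never pass each other. -/
theorem ordOut (hmono : StrictMono home) (hspread : ∀ i j, home j < home i + 1)
    {i j : Fin n} (hij : i < j) :
    ∀ t, 0 ≤ t → Alive home x i t → Alive home x j t → OrdOut x vout i j t := by
  apply real_induction
  · intro _ _
    have h1 := hmono hij
    have h2 := hspread i j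
    unfold OrdOut
    rw [M.start_pos, M.start_pos]
    refine ⟨by linarith, by linarith, fun h => ?_, fun h => ?_⟩ <;> exfalso <;> linarith
  · intro t ht hP
    by_cases hi : Alive home x i t
    swap
    · filter_upwards [dead_after_ev hi] with s hs hs'
      exact absurd hs' hs
    by_cases hj : Alive home x j t
    swap
    · filter_upwards [dead_after_ev hj] with s hs _ hs'
      exact absurd hs' hs
    obtain ⟨h0, h1, h2, h3⟩ := hP t ht le_rfl hi hj
    -- choose a small window
    set D := x j t - x i t with hDdef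
    have hwin : ∃ δ > 0, ∀ s, t < s → s < t + δ →
        0 < D + (vout j t - vout i t) * (s - t) ∧ D + (vout j t - vout i t) * (s - t) < 1 := by
      rcases h0.eq_or_lt with hD0 | hD0
      · obtain ⟨a, b⟩ := h2 hD0.symm
        refine ⟨1/2, by norm_num, fun s hs hs' => ?_⟩
        rw [a, b, ← hD0]
        constructor <;> linarith
      · rcases h1.eq_or_lt with hD1 | hD1
        · obtain ⟨a, b⟩ := h3 hD1
          refine ⟨1/2, by norm_num, fun s hs hs' => ?_⟩
          rw [a, b, hD1]
          constructor <;> linarith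
        · refine ⟨min D (1 - D) / 2, by
            have : 0 < min D (1 - D) := lt_min hD0 (by linarith)
            linarith, fun s hs hs' => ?_⟩
          have m1 := min_le_left D (1 - D)
          have m2 := min_le_right D (1 - D)
          rcases M.speed_out i t with a | a <;> rcases M.speed_out j t with b | b <;>
            rw [a, b] <;> constructor <;> linarith
    obtain ⟨δ, hδ, hwin⟩ := hwin
    have h5 : ∀ᶠ s in 𝓝[>] t, s < t + δ :=
      eventually_nhdsWithin_of_eventually_nhds (gt_mem_nhds (by linarith))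
    filter_upwards [M.after_ev ht hi, M.after_ev ht hj, h5, self_mem_nhdsWithin]
      with s hsi hsj hs5 hs6 _ _
    obtain ⟨w1, w2⟩ := hwin s hs6 hs5
    have e : x j s - x i s = D + (vout j t - vout i t) * (s - t) := by
      rw [hsi.2.1, hsj.2.1, hDdef]; ring
    unfold OrdOut
    rw [e]
    refine ⟨w1.le, w2.le, fun h => ?_, fun h => ?_⟩ <;> exfalso <;> linarith
  · intro t ht hP hi hj
    exact M.ordOut_of_ordIn hij.ne ht hi hj (M.ordIn_of ht hi.before hj.before hP)

theorem ordIn (hmono : StrictMono home) (hspread : ∀ i j, home j < home i + 1)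
    {i j : Fin n} (hij : i < j) {t : ℝ} (ht : 0 < t) (hi : AliveBefore home x i t)
    (hj : AliveBefore home x j t) : OrdIn x vin i j t :=
  M.ordIn_of ht hi hj (fun s hs _ => M.ordOut hmono hspread hij s hs)

/-- A robot that started in direction `+1` and is alive is strictly to the right of its home base
and less than a full turn away. -/
theorem pos_of_dir_one {i : Fin n} (hd : dir i = 1) :
    ∀ t, 0 ≤ t → Alive home x i t → 0 < t → home i < x i t ∧ x i t < home i + 1 := by
  apply real_induction
  · intro _ h; exact absurd h (lt_irrefl _)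
  · intro t ht hP
    by_cases hi : Alive home x i t
    swap
    · filter_upwards [dead_after_ev hi] with s hs hs'
      exact absurd hs' hs
    rcases ht.eq_or_lt with h0 | h0
    · subst h0
      have h5 : ∀ᶠ s in 𝓝[>] (0:ℝ), s < 1 :=
        eventually_nhdsWithin_of_eventually_nhds (gt_mem_nhds one_pos)
      filter_upwards [M.after_ev le_rfl hi, h5, self_mem_nhdsWithin] with s hs hs5 hs6 _ _
      rw [hs.2.1, M.start_pos, M.start_vel, hd]
      simp only [Set.mem_Ioi] at hs6
      constructor <;> linarith
    · obtain ⟨h1, h2⟩ := hP t ht le_rfl hi h0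
      have h5 : ∀ᶠ s in 𝓝[>] t, s < t + min (x i t - home i) (home i + 1 - x i t) :=
        eventually_nhdsWithin_of_eventually_nhds (gt_mem_nhds (by
          have : 0 < min (x i t - home i) (home i + 1 - x i t) :=
            lt_min (by linarith) (by linarith)
          linarith))
      filter_upwards [M.after_ev ht hi, h5, self_mem_nhdsWithin] with s hs hs5 hs6 _ _
      simp only [Set.mem_Ioi] at hs6
      have m1 := min_le_left (x i t - home i) (home i + 1 - x i t)
      have m2 := min_le_right (x i t - home i) (home i + 1 - x i t)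
      rw [hs.2.1]
      rcases M.speed_out i t with a | a <;> rw [a] <;> constructor <;> linarith
  · intro t ht hP hi _
    have hna : ¬ AtHome home x i t := hi t ht le_rfl
    have hev : ∀ᶠ s in 𝓝[<] t, 0 < s ∧ s < t ∧ x i s = x i t + vin i t * (s - t) := by
      have h0 : ∀ᶠ s in 𝓝[<] t, (0 : ℝ) < s :=
        eventually_nhdsWithin_of_eventually_nhds (lt_mem_nhds ht)
      filter_upwards [M.before_ev ht hi.before, h0, self_mem_nhdsWithin] with s h1 h3 h4
      exact ⟨h3, h4, h1.2.1⟩
    have hlow : home i ≤ x i t := by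
      by_contra hneg
      push Not at hneg
      have h5 : ∀ᶠ s in 𝓝[<] t, t - (home i - x i t) < s :=
        eventually_nhdsWithin_of_eventually_nhds (lt_mem_nhds (by linarith))
      obtain ⟨s, ⟨hs0, hst, e1⟩, h6⟩ := (hev.and h5).exists
      have h7 := (hP s hs0.le hst (hi.mono hst.le) hs0).1
      rw [e1] at h7
      rcases M.speed_in i t with a | a <;> rw [a] at h7 <;> linarith
    have hhigh : x i t ≤ home i + 1 := by
      by_contra hneg
      push Not at hneg
      have h5 : ∀ᶠ s in 𝓝[<] t, t - (x i t - home i - 1) < s :=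
        eventually_nhdsWithin_of_eventually_nhds (lt_mem_nhds (by linarith))
      obtain ⟨s, ⟨hs0, hst, e1⟩, h6⟩ := (hev.and h5).exists
      have h7 := (hP s hs0.le hst (hi.mono hst.le) hs0).2
      rw [e1] at h7
      rcases M.speed_in i t with a | a <;> rw [a] at h7 <;> linarith
    constructor
    · rcases hlow.eq_or_lt with h | h
      · exact absurd ⟨0, by push_cast; linarith⟩ hna
      · exact h
    · rcases hhigh.eq_or_lt with h | h
      · exact absurd ⟨1, by push_cast; linarith⟩ hna
      · exact h

end IsMotion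

/-! ### Reflection -/

theorem samePoint_neg {a b : ℝ} : SamePoint (-a) (-b) ↔ SamePoint a b := by
  constructor
  · rintro ⟨m, hm⟩; exact ⟨-m, by push_cast; linarith⟩
  · rintro ⟨m, hm⟩; exact ⟨-m, by push_cast; linarith⟩

/-- The reflection of a family of functions indexed by robots. -/
def refl (f : Fin n → ℝ → ℝ) : Fin n → ℝ → ℝ := fun i t => - f (Fin.rev i) t

def refl₀ (f : Fin n → ℝ) : Fin n → ℝ := fun i => - f (Fin.rev i)

theorem atHome_refl {i : Fin n} {s : ℝ} :
    AtHome (refl₀ home) (refl x) i s ↔ AtHome home x (Fin.rev i) s := by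
  unfold AtHome refl refl₀; exact samePoint_neg

theorem alive_refl {i : Fin n} {s : ℝ} :
    Alive (refl₀ home) (refl x) i s ↔ Alive home x (Fin.rev i) s := by
  unfold Alive
  simp only [atHome_refl]

theorem aliveBefore_refl {i : Fin n} {s : ℝ} :
    AliveBefore (refl₀ home) (refl x) i s ↔ AliveBefore home x (Fin.rev i) s := by
  unfold AliveBefore
  simp only [atHome_refl]

theorem survives_refl {i : Fin n} :
    Survives (refl₀ home) (refl x) i ↔ Survives home x (Fin.rev i) := by
  unfold Survives
  simp only [atHome_refl]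

theorem IsMotion.reflect (M : IsMotion home dir x vin vout) :
    IsMotion (refl₀ home) (refl₀ dir) (refl x) (refl vin) (refl vout) where
  start_pos i := by simp [refl, refl₀, M.start_pos]
  start_vel i := by simp [refl, refl₀, M.start_vel]
  speed_in i t := by
    unfold refl
    rcases M.speed_in (Fin.rev i) t with h | h <;> rw [h] <;> simp
  speed_out i t := by
    unfold refl
    rcases M.speed_out (Fin.rev i) t with h | h <;> rw [h] <;> simp
  before i t ht hb := by
    obtain ⟨ε, hε, h⟩ := M.before (Fin.rev i) t ht (aliveBefore_refl.mp hb)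
    refine ⟨ε, hε, fun s h1 h2 => ?_⟩
    unfold refl
    rw [h s h1 h2]; ring
  after i t ht hb := by
    obtain ⟨ε, hε, h⟩ := M.after (Fin.rev i) t ht (alive_refl.mp hb)
    refine ⟨ε, hε, fun s h1 h2 => ?_⟩
    unfold refl
    rw [h s h1 h2]; ring
  keep i t ht ha h := by
    unfold refl
    rw [M.keep (Fin.rev i) t ht (alive_refl.mp ha)]
    intro j hj hja hsp
    apply h (Fin.rev j) (by intro h'; apply hj; rw [← h', Fin.rev_rev])
      (alive_refl.mpr (by rw [Fin.rev_rev]; exact hja))
    unfold refl
    rw [Fin.rev_rev]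
    exact samePoint_neg.mpr hsp
  exchange i j t ht hij hi hj hsp := by
    unfold refl at hsp ⊢
    rw [M.exchange (Fin.rev i) (Fin.rev j) t ht (by
      intro h; exact hij (Fin.rev_injective h)) (alive_refl.mp hi) (alive_refl.mp hj)
      (samePoint_neg.mp hsp)]

theorem IsMotion.pos_of_dir_neg (M : IsMotion home dir x vin vout) {i : Fin n}
    (hd : dir i = -1) (t : ℝ) (ht : 0 ≤ t) (ha : Alive home x i t) (ht' : 0 < t) :
    home i - 1 < x i t ∧ x i t < home i := by
  have h := M.reflect.pos_of_dir_one (i := Fin.rev i) (by simp [refl₀, hd]) t ht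
    (alive_refl.mpr (by rw [Fin.rev_rev]; exact ha)) ht'
  simp only [refl, refl₀, Fin.rev_rev] at h
  constructor <;> linarith [h.1, h.2]

end Pool.Agent.Helper74.Robots
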