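import Pool.Agent.Helper74.Robots.Basic

/-!
Ideal systems (no deaths): `p` lines moving right, `q` lines moving left on the circle, and the
order statistics of their positions.
-/

namespace Pool.Agent.Helper74.Robots

open Filter Topology

structure Sys where
  p : ℕ
  q : ℕ
  hp : 0 < p
  hq : 0 < q
  α : ℤ → ℝ
  β : ℤ → ℝ
  hα : StrictMono α
  hβ : StrictMono β
  hαp : ∀ a, α (a + p) = α a + 1
  hβq : ∀ b, β (b + q) = β b + 1

namespace Sys

variable (S : Sys)

theorem α_nat (m : ℕ) (a : ℤ) : S.α (a + S.p * m) = S.α a + m := by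
  induction m with
  | zero => simp
  | succ m ih =>
    have : a + (S.p : ℤ) * ((m + 1 : ℕ) : ℤ) = (a + S.p * m) + S.p := by push_cast; ring
    rw [this, S.hαp, ih]; push_cast; ring

theorem α_sub (m : ℕ) (a : ℤ) : S.α (a - S.p * m) = S.α a - m := by
  have := S.α_nat m (a - S.p * m)
  rw [sub_add_cancel] at this
  linarith

theorem exists_cut (r : ℤ) (y : ℝ) (R : ℝ → ℝ → Prop) (hR1 : ∀ a b : ℝ, a < b → R a b)
    (hR2 : ∀ a b : ℝ, R a b → a ≤ b) :
    ∃ a : ℤ, R (S.α a + y) (S.β (r + 1 - a) - y) ∧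
      ∀ z : ℤ, R (S.α z + y) (S.β (r + 1 - z) - y) → z ≤ a := by
  apply Int.exists_greatest_of_bdd
  · obtain ⟨m, hm⟩ := exists_nat_gt (S.β (r + 1) - y - (S.α 0 + y))
    refine ⟨S.p * m, fun z hz => ?_⟩
    by_contra hcon
    push Not at hcon
    have hz0 : 0 ≤ z := by
      have : (0:ℤ) ≤ S.p * m := by positivity
      linarith
    have h1 : S.α 0 + m ≤ S.α z := by
      have := S.α_nat m 0
      rw [zero_add] at this
      rw [← this]
      exact S.hα.monotone hcon.le
    have h2 : S.β (r + 1 - z) ≤ S.β (r + 1) := S.hβ.monotone (by linarith)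
    have h3 := hR2 _ _ hz
    linarith
  · obtain ⟨m, hm⟩ := exists_nat_gt (S.α 0 + y - (S.β (r + 1) - y))
    refine ⟨0 - S.p * m, hR1 _ _ ?_⟩
    rw [S.α_sub]
    have h2 : S.β (r + 1) ≤ S.β (r + 1 - (0 - S.p * m)) := by
      apply S.hβ.monotone
      have : (0:ℤ) ≤ S.p * m := by positivity
      linarith
    linarith

/-- Cut used for the motion before time `t` (ties count the `+` line as lying on the left). -/
noncomputable def c (r : ℤ) (t : ℝ) : ℤ :=
  (S.exists_cut r t (· ≤ ·) (fun _ _ h => h.le) (fun _ _ h => h)).choose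

/-- Cut used for the motion after time `t`. -/
noncomputable def c' (r : ℤ) (t : ℝ) : ℤ :=
  (S.exists_cut r t (· < ·) (fun _ _ h => h) (fun _ _ h => h.le)).choose

theorem c_spec (r : ℤ) (t : ℝ) : S.α (S.c r t) + t ≤ S.β (r + 1 - S.c r t) - t :=
  (S.exists_cut r t (· ≤ ·) (fun _ _ h => h.le) (fun _ _ h => h)).choose_spec.1

theorem c_max (r : ℤ) (t : ℝ) (z : ℤ) (h : S.α z + t ≤ S.β (r + 1 - z) - t) : z ≤ S.c r t :=
  (S.exists_cut r t (· ≤ ·) (fun _ _ h => h.le) (fun _ _ h => h)).choose_spec.2 z h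

theorem c'_spec (r : ℤ) (t : ℝ) : S.α (S.c' r t) + t < S.β (r + 1 - S.c' r t) - t :=
  (S.exists_cut r t (· < ·) (fun _ _ h => h) (fun _ _ h => h.le)).choose_spec.1

theorem c'_max (r : ℤ) (t : ℝ) (z : ℤ) (h : S.α z + t < S.β (r + 1 - z) - t) : z ≤ S.c' r t :=
  (S.exists_cut r t (· < ·) (fun _ _ h => h) (fun _ _ h => h.le)).choose_spec.2 z h

theorem c_next (r : ℤ) (t : ℝ) : S.β (r - S.c r t) - t < S.α (S.c r t + 1) + t := by
  by_contra h
  push Not at h
  have := S.c_max r t (S.c r t + 1) (by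
    have e : r + 1 - (S.c r t + 1) = r - S.c r t := by ring
    rw [e]; exact h)
  omega

theorem c'_next (r : ℤ) (t : ℝ) : S.β (r - S.c' r t) - t ≤ S.α (S.c' r t + 1) + t := by
  by_contra h
  push Not at h
  have := S.c'_max r t (S.c' r t + 1) (by
    have e : r + 1 - (S.c' r t + 1) = r - S.c' r t := by ring
    rw [e]; exact h)
  omega

theorem c_eq {r : ℤ} {t : ℝ} {a : ℤ} (h1 : S.α a + t ≤ S.β (r + 1 - a) - t)
    (h2 : S.β (r - a) - t < S.α (a + 1) + t) : S.c r t = a := by
  apply le_antisymm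
  · by_contra hcon
    push Not at hcon
    have h3 := S.c_spec r t
    have h4 : S.α (a + 1) ≤ S.α (S.c r t) := S.hα.monotone (by omega)
    have h5 : S.β (r + 1 - S.c r t) ≤ S.β (r - a) := S.hβ.monotone (by omega)
    linarith
  · exact S.c_max r t a h1

theorem c'_eq {r : ℤ} {t : ℝ} {a : ℤ} (h1 : S.α a + t < S.β (r + 1 - a) - t)
    (h2 : S.β (r - a) - t ≤ S.α (a + 1) + t) : S.c' r t = a := by
  apply le_antisymm
  · by_contra hcon
    push Not at hcon
    have h3 := S.c'_spec r t
    have h4 : S.α (a + 1) ≤ S.α (S.c' r t) := S.hα.monotone (by omega)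
    have h5 : S.β (r + 1 - S.c' r t) ≤ S.β (r - a) := S.hβ.monotone (by omega)
    linarith
  · exact S.c'_max r t a h1

/-- Position of the `r`-th particle. -/
noncomputable def F (r : ℤ) (t : ℝ) : ℝ := max (S.α (S.c r t) + t) (S.β (r - S.c r t) - t)

open Classical in
/-- Incoming velocity. -/
noncomputable def vi (r : ℤ) (t : ℝ) : ℝ :=
  if S.β (r - S.c r t) - t < S.α (S.c r t) + t then 1 else -1

open Classical in
/-- Outgoing velocity. -/
noncomputable def vo (r : ℤ) (t : ℝ) : ℝ :=
  if S.β (r - S.c' r t) - t ≤ S.α (S.c' r t) + t then 1 else -1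

theorem F_le (r : ℤ) (t : ℝ) (a : ℤ) : S.F r t ≤ max (S.α a + t) (S.β (r - a) - t) := by
  unfold F
  rcases le_or_gt a (S.c r t) with h | h
  · rcases h.eq_or_lt with h | h
    · rw [h]
    · have h1 := S.c_spec r t
      have h2 : S.β (r + 1 - S.c r t) ≤ S.β (r - a) := S.hβ.monotone (by omega)
      have h3 : S.β (r - S.c r t) ≤ S.β (r - a) := S.hβ.monotone (by omega)
      apply max_le
      · exact le_max_of_le_right (by linarith)
      · exact le_max_of_le_right (by linarith)
  · have h1 := S.c_next r t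
    have h2 : S.α (S.c r t + 1) ≤ S.α a := S.hα.monotone (by omega)
    have h3 : S.α (S.c r t) ≤ S.α a := S.hα.monotone (by omega)
    apply max_le
    · exact le_max_of_le_left (by linarith)
    · exact le_max_of_le_left (by linarith)

theorem lt_F {r : ℤ} {t y : ℝ} (h : ∀ a, y < max (S.α a + t) (S.β (r - a) - t)) :
    y < S.F r t := h _

theorem F_eq_of_cut {r : ℤ} {t : ℝ} {a : ℤ} (h1 : S.α a + t ≤ S.β (r + 1 - a) - t)
    (h2 : S.β (r - a) - t ≤ S.α (a + 1) + t) :
    S.F r t = max (S.α a + t) (S.β (r - a) - t) := by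
  apply le_antisymm (S.F_le r t a)
  unfold F
  rcases lt_trichotomy a (S.c r t) with h | h | h
  · have h3 : S.α (a + 1) ≤ S.α (S.c r t) := S.hα.monotone (by omega)
    have h4 : S.α a ≤ S.α (S.c r t) := S.hα.monotone (by omega)
    apply max_le
    · exact le_max_of_le_left (by linarith)
    · exact le_max_of_le_left (by linarith)
  · rw [h]
  · have := S.c_max r t a h1
    omega

theorem F_le_avg {r : ℤ} {t y : ℝ} (h : ∀ a, (S.α a + S.β (r + 1 - a)) / 2 < y) :
    S.F r t < y := by
  unfold F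
  apply max_lt
  · have h1 := S.c_spec r t
    have h2 := h (S.c r t)
    linarith
  · have h1 := S.c_next r t
    have h2 := h (S.c r t + 1)
    have e : r + 1 - (S.c r t + 1) = r - S.c r t := by ring
    rw [e] at h2
    linarith

theorem lt_F_avg {r : ℤ} {t y : ℝ} (h : ∀ a, y < (S.α a + S.β (r - a)) / 2) :
    y < S.F r t := by
  apply S.lt_F
  intro a
  have := h a
  rw [lt_max_iff]
  by_contra hcon
  push Not at hcon
  linarith [hcon.1, hcon.2]

theorem F_before (r : ℤ) (t : ℝ) :
    ∃ ε > 0, ∀ s, t - ε < s → s ≤ t → S.F r s = S.F r t + S.vi r t * (s - t) := by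
  set a := S.c r t with ha
  have h1 := S.c_spec r t
  have h2 := S.c_next r t
  rw [← ha] at h1 h2
  have hFt : S.F r t = max (S.α a + t) (S.β (r - a) - t) := rfl
  by_cases hc : S.β (r - a) - t < S.α a + t
  · have hvi : S.vi r t = 1 := by unfold vi; rw [← ha, if_pos hc]
    refine ⟨min ((S.α (a + 1) + t - (S.β (r - a) - t)) / 2) ((S.α a + t - (S.β (r - a) - t)) / 2),
      lt_min (by linarith) (by linarith), fun s hs hst => ?_⟩
    have m1 := min_le_left ((S.α (a + 1) + t - (S.β (r - a) - t)) / 2)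
      ((S.α a + t - (S.β (r - a) - t)) / 2)
    have m2 := min_le_right ((S.α (a + 1) + t - (S.β (r - a) - t)) / 2)
      ((S.α a + t - (S.β (r - a) - t)) / 2)
    rw [S.F_eq_of_cut (a := a) (t := s) (by linarith) (by linarith), hFt, hvi,
      max_eq_left (by linarith), max_eq_left hc.le]
    ring
  · have hvi : S.vi r t = -1 := by unfold vi; rw [← ha, if_neg hc]
    push Not at hc
    refine ⟨(S.α (a + 1) + t - (S.β (r - a) - t)) / 2, by linarith, fun s hs hst => ?_⟩
    rw [S.F_eq_of_cut (a := a) (t := s) (by linarith) (by linarith), hFt, hvi,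
      max_eq_right (by linarith), max_eq_right hc]
    ring

theorem F_after (r : ℤ) (t : ℝ) :
    ∃ ε > 0, ∀ s, t ≤ s → s < t + ε → S.F r s = S.F r t + S.vo r t * (s - t) := by
  set a := S.c' r t with ha
  have h1 := S.c'_spec r t
  have h2 := S.c'_next r t
  rw [← ha] at h1 h2
  have hFt : S.F r t = max (S.α a + t) (S.β (r - a) - t) := S.F_eq_of_cut h1.le h2
  by_cases hc : S.β (r - a) - t ≤ S.α a + t
  · have hvi : S.vo r t = 1 := by unfold vo; rw [← ha, if_pos hc]
    refine ⟨(S.β (r + 1 - a) - t - (S.α a + t)) / 2, by linarith, fun s hs hst => ?_⟩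
    rw [S.F_eq_of_cut (a := a) (t := s) (by linarith) (by linarith), hFt, hvi,
      max_eq_left (by linarith), max_eq_left hc]
    ring
  · have hvi : S.vo r t = -1 := by unfold vo; rw [← ha, if_neg hc]
    push Not at hc
    refine ⟨min ((S.β (r + 1 - a) - t - (S.α a + t)) / 2) ((S.β (r - a) - t - (S.α a + t)) / 2),
      lt_min (by linarith) (by linarith), fun s hs hst => ?_⟩
    have m1 := min_le_left ((S.β (r + 1 - a) - t - (S.α a + t)) / 2)
      ((S.β (r - a) - t - (S.α a + t)) / 2)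
    have m2 := min_le_right ((S.β (r + 1 - a) - t - (S.α a + t)) / 2)
      ((S.β (r - a) - t - (S.α a + t)) / 2)
    rw [S.F_eq_of_cut (a := a) (t := s) (by linarith) (by linarith), hFt, hvi,
      max_eq_right (by linarith), max_eq_right hc.le]
    ring

theorem vi_pm (r : ℤ) (t : ℝ) : S.vi r t = 1 ∨ S.vi r t = -1 := by
  unfold vi; split_ifs <;> simp

theorem vo_pm (r : ℤ) (t : ℝ) : S.vo r t = 1 ∨ S.vo r t = -1 := by
  unfold vo; split_ifs <;> simp

/-- A particle strictly between two neighbouring left movers sits on a right mover. -/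
theorem on_α {a b : ℤ} {t : ℝ} (h1 : S.β b - t < S.α a + t) (h2 : S.α a + t < S.β (b + 1) - t) :
    S.F (a + b) t = S.α a + t ∧ S.vi (a + b) t = 1 ∧ S.vo (a + b) t = 1 := by
  have e1 : a + b + 1 - a = b + 1 := by ring
  have e2 : a + b - a = b := by ring
  have hm : S.α a < S.α (a + 1) := S.hα (by omega)
  have hc : S.c (a + b) t = a := S.c_eq (by rw [e1]; exact h2.le) (by rw [e2]; linarith)
  have hc' : S.c' (a + b) t = a := S.c'_eq (by rw [e1]; exact h2) (by rw [e2]; linarith)
  refine ⟨?_, ?_, ?_⟩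
  · unfold F; rw [hc, e2, max_eq_left h1.le]
  · unfold vi; rw [hc, e2, if_pos h1]
  · unfold vo; rw [hc', e2, if_pos h1.le]

theorem on_β {a b : ℤ} {t : ℝ} (h1 : S.α a + t < S.β b - t) (h2 : S.β b - t < S.α (a + 1) + t) :
    S.F (a + b) t = S.β b - t ∧ S.vi (a + b) t = -1 ∧ S.vo (a + b) t = -1 := by
  have e1 : a + b + 1 - a = b + 1 := by ring
  have e2 : a + b - a = b := by ring
  have hm : S.β b < S.β (b + 1) := S.hβ (by omega)
  have hc : S.c (a + b) t = a := S.c_eq (by rw [e1]; linarith) (by rw [e2]; linarith)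
  have hc' : S.c' (a + b) t = a := S.c'_eq (by rw [e1]; linarith) (by rw [e2]; linarith)
  refine ⟨?_, ?_, ?_⟩
  · unfold F; rw [hc, e2, max_eq_right h1.le]
  · unfold vi; rw [hc, e2, if_neg (not_lt.mpr h1.le)]
  · unfold vo; rw [hc', e2, if_neg (not_le.mpr h1)]

theorem F_mono (r : ℤ) (t : ℝ) : S.F r t ≤ S.F (r + 1) t := by
  have h1 := S.c_spec r t
  have h2 := S.c_next r t
  have h3 := S.c_spec (r + 1) t
  have h4 := S.c_next (r + 1) t
  unfold F
  rcases le_or_gt (S.c (r + 1) t) (S.c r t) with h | h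
  · have h5 : S.β (r + 1 - S.c r t) ≤ S.β (r + 1 - S.c (r + 1) t) := S.hβ.monotone (by omega)
    have h6 : S.β (r - S.c r t) ≤ S.β (r + 1 - S.c (r + 1) t) := S.hβ.monotone (by omega)
    apply max_le
    · exact le_max_of_le_right (by linarith)
    · exact le_max_of_le_right (by linarith)
  · have h5 : S.α (S.c r t + 1) ≤ S.α (S.c (r + 1) t) := S.hα.monotone (by omega)
    have h6 : S.α (S.c r t) ≤ S.α (S.c (r + 1) t) := S.hα.monotone (by omega)
    apply max_le
    · exact le_max_of_le_left (by linarith)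
    · exact le_max_of_le_left (by linarith)

theorem tie {r : ℤ} {t : ℝ} (h : S.F r t = S.F (r + 1) t) :
    S.vi r t = 1 ∧ S.vo r t = -1 ∧ S.vi (r + 1) t = -1 ∧ S.vo (r + 1) t = 1 := by
  set a := S.c r t with ha
  have h1 := S.c_spec r t
  have h2 := S.c_next r t
  rw [← ha] at h1 h2
  have hb1 : S.β (r - a) < S.β (r + 1 - a) := S.hβ (by omega)
  have hb2 : S.β (r + 1 - a) < S.β (r + 1 + 1 - a) := S.hβ (by omega)
  have ha1 : S.α a < S.α (a + 1) := S.hα (by omega)
  have ha0 : S.α (a - 1) < S.α a := S.hα (by omega)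
  have hFr : S.F r t = max (S.α a + t) (S.β (r - a) - t) := rfl
  -- the next cut
  have hlow : a ≤ S.c (r + 1) t := S.c_max _ _ _ (by linarith)
  have hup : S.c (r + 1) t ≤ a + 1 := by
    by_contra hcon
    push Not at hcon
    have h3 := S.c_spec (r + 1) t
    have h4 : S.α (a + 1) ≤ S.α (S.c (r + 1) t) := S.hα.monotone (by omega)
    have h5 : S.β (r + 1 + 1 - S.c (r + 1) t) ≤ S.β (r - a) := S.hβ.monotone (by omega)
    linarith
  have hcase : S.c (r + 1) t = a ∨ S.c (r + 1) t = a + 1 := by omega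
  rcases hcase with hc | hc
  · have hF1 : S.F (r + 1) t = S.β (r + 1 - a) - t := by
      unfold F; rw [hc, max_eq_right h1]
    have htie : S.α a + t = S.β (r + 1 - a) - t := by
      rw [hF1, hFr] at h
      rcases max_choice (S.α a + t) (S.β (r - a) - t) with hm | hm
      · rw [hm] at h; exact h
      · rw [hm] at h; linarith
    refine ⟨?_, ?_, ?_, ?_⟩
    · unfold vi; rw [← ha, if_pos (by linarith)]
    · have hc' : S.c' r t = a - 1 := by
        apply S.c'_eq
        · have e : r + 1 - (a - 1) = r + 1 + 1 - a := by ring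
          rw [e]; linarith
        · have e : r - (a - 1) = r + 1 - a := by ring
          rw [e, sub_add_cancel]; linarith
      unfold vo
      have e : r - (a - 1) = r + 1 - a := by ring
      rw [hc', e, if_neg (by push Not; linarith)]
    · unfold vi; rw [hc, if_neg (by push Not; linarith)]
    · have hc' : S.c' (r + 1) t = a := by
        apply S.c'_eq
        · linarith
        · linarith
      unfold vo; rw [hc', if_pos (by linarith)]
  · exfalso
    have e : r + 1 - (a + 1) = r - a := by ring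
    have hF1 : S.F (r + 1) t = S.α (a + 1) + t := by
      unfold F; rw [hc, e, max_eq_left h2.le]
    rw [hF1, hFr] at h
    rcases max_choice (S.α a + t) (S.β (r - a) - t) with hm | hm
    · rw [hm] at h; linarith
    · rw [hm] at h; linarith

/-- If a particle turns at time `t` then it meets a neighbour at that time. -/
theorem turn {r : ℤ} {t : ℝ} (h : S.vo r t ≠ S.vi r t) :
    S.F r t = S.F (r + 1) t ∨ S.F (r - 1) t = S.F r t := by
  by_contra hcon
  push Not at hcon
  obtain ⟨hn1, hn2⟩ := hcon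
  set a := S.c r t with ha
  have h1 := S.c_spec r t
  have h2 := S.c_next r t
  rw [← ha] at h1 h2
  have hb1 : S.β (r - a) < S.β (r + 1 - a) := S.hβ (by omega)
  have hb2 : S.β (r + 1 - a) < S.β (r + 1 + 1 - a) := S.hβ (by omega)
  have hb0 : S.β (r - 1 - a) < S.β (r - a) := S.hβ (by omega)
  have ha1 : S.α a < S.α (a + 1) := S.hα (by omega)
  have hFr : S.F r t = max (S.α a + t) (S.β (r - a) - t) := rfl
  rcases h1.eq_or_lt with htie | hlt
  · apply hn1
    rw [hFr, S.F_eq_of_cut (r := r + 1) (a := a) (by linarith) (by linarith),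
      max_eq_left (by linarith), max_eq_left (by linarith)]
  · have hc' : S.c' r t = a := S.c'_eq hlt h2.le
    have hvi : S.vi r t = if S.β (r - a) - t < S.α a + t then 1 else -1 := by
      unfold vi; rw [← ha]
    have hvo : S.vo r t = if S.β (r - a) - t ≤ S.α a + t then 1 else -1 := by
      unfold vo; rw [hc']
    rcases lt_trichotomy (S.β (r - a) - t) (S.α a + t) with h3 | h3 | h3
    · apply h; rw [hvi, hvo, if_pos h3, if_pos h3.le]
    · apply hn2
      have e : r - 1 + 1 - a = r - a := by ring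
      rw [S.F_eq_of_cut (r := r - 1) (a := a) (by rw [e]; linarith) (by linarith), hFr,
        max_eq_left (by linarith), max_eq_left (by linarith)]
    · apply h; rw [hvi, hvo, if_neg (by push Not; linarith), if_neg (by push Not; linarith)]

theorem c_period (r : ℤ) (t : ℝ) : S.c (r + (S.p + S.q : ℕ)) t = S.c r t + S.p := by
  have h1 := S.c_spec r t
  have h2 := S.c_next r t
  apply S.c_eq
  · have e : r + ((S.p + S.q : ℕ) : ℤ) + 1 - (S.c r t + S.p) = (r + 1 - S.c r t) + S.q := by
      push_cast; ring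
    rw [e, S.hαp, S.hβq]; linarith
  · have e : r + ((S.p + S.q : ℕ) : ℤ) - (S.c r t + S.p) = (r - S.c r t) + S.q := by
      push_cast; ring
    have e2 : S.c r t + (S.p : ℤ) + 1 = S.c r t + 1 + S.p := by ring
    rw [e, e2, S.hαp, S.hβq]; linarith

theorem c'_period (r : ℤ) (t : ℝ) : S.c' (r + (S.p + S.q : ℕ)) t = S.c' r t + S.p := by
  have h1 := S.c'_spec r t
  have h2 := S.c'_next r t
  apply S.c'_eq
  · have e : r + ((S.p + S.q : ℕ) : ℤ) + 1 - (S.c' r t + S.p) = (r + 1 - S.c' r t) + S.q := by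
      push_cast; ring
    rw [e, S.hαp, S.hβq]; linarith
  · have e : r + ((S.p + S.q : ℕ) : ℤ) - (S.c' r t + S.p) = (r - S.c' r t) + S.q := by
      push_cast; ring
    have e2 : S.c' r t + (S.p : ℤ) + 1 = S.c' r t + 1 + S.p := by ring
    rw [e, e2, S.hαp, S.hβq]; linarith

theorem F_period (r : ℤ) (t : ℝ) : S.F (r + (S.p + S.q : ℕ)) t = S.F r t + 1 := by
  unfold F
  have e : r + ((S.p + S.q : ℕ) : ℤ) - (S.c r t + S.p) = (r - S.c r t) + S.q := by
    push_cast; ring
  rw [S.c_period, e, S.hαp, S.hβq, ← max_add_add_right]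
  congr 1 <;> ring

theorem vi_period (r : ℤ) (t : ℝ) : S.vi (r + (S.p + S.q : ℕ)) t = S.vi r t := by
  unfold vi
  have e : r + ((S.p + S.q : ℕ) : ℤ) - (S.c r t + S.p) = (r - S.c r t) + S.q := by
    push_cast; ring
  rw [S.c_period, e, S.hαp, S.hβq]
  by_cases h : S.β (r - S.c r t) - t < S.α (S.c r t) + t
  · rw [if_pos h, if_pos (by linarith)]
  · rw [if_neg h, if_neg (by push Not at h ⊢; linarith)]

theorem vo_period (r : ℤ) (t : ℝ) : S.vo (r + (S.p + S.q : ℕ)) t = S.vo r t := by
  unfold vo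
  have e : r + ((S.p + S.q : ℕ) : ℤ) - (S.c' r t + S.p) = (r - S.c' r t) + S.q := by
    push_cast; ring
  rw [S.c'_period, e, S.hαp, S.hβq]
  by_cases h : S.β (r - S.c' r t) - t ≤ S.α (S.c' r t) + t
  · rw [if_pos h, if_pos (by linarith)]
  · rw [if_neg h, if_neg (by push Not at h ⊢; linarith)]

theorem F_monotone (t : ℝ) : Monotone (fun r => S.F r t) :=
  monotone_int_of_le_succ (fun r => S.F_mono r t)

theorem eq_of_F_eq {r r' : ℤ} {t : ℝ} (h : r < r') (hF : S.F r t = S.F r' t) : r' = r + 1 := by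
  by_contra hcon
  have h1 : r + 2 ≤ r' := by omega
  have m1 := S.F_mono r t
  have m2 := S.F_mono (r + 1) t
  have m3 := S.F_monotone t h1
  simp only at m3
  have e : r + 1 + 1 = r + 2 := by ring
  rw [e] at m2
  have t1 : S.F r t = S.F (r + 1) t := by linarith
  have t2 : S.F (r + 1) t = S.F (r + 1 + 1) t := by rw [e]; linarith
  have := (S.tie t1).2.2.1
  rw [(S.tie t2).1] at this
  norm_num at this

/-- Two particles at the same point of the circle exchange their velocities. -/
theorem exch {r r' : ℤ} {t : ℝ} (h : r < r') (h' : r' < r + (S.p + S.q : ℕ))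
    (hsp : SamePoint (S.F r t) (S.F r' t)) : S.vo r t = S.vi r' t ∧ S.vo r' t = S.vi r t := by
  have m1 := S.F_monotone t h.le
  have m2 := S.F_monotone t h'.le
  simp only [S.F_period] at m1 m2
  obtain ⟨m, hm⟩ := hsp
  have h3 : m = 0 ∨ m = -1 := by
    have h4 : (m : ℝ) ≤ 0 := by linarith
    have h5 : (-1 : ℝ) ≤ m := by linarith
    have h4' : m ≤ 0 := by exact_mod_cast h4
    have h5' : -1 ≤ m := by exact_mod_cast h5
    omega
  rcases h3 with h3 | h3
  · have hF : S.F r t = S.F r' t := by rw [h3] at hm; push_cast at hm; linarith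
    have := S.eq_of_F_eq h hF
    subst this
    obtain ⟨a, b, c, d⟩ := S.tie hF
    rw [a, b, c, d]; exact ⟨rfl, rfl⟩
  · have hF : S.F r' t = S.F (r + (S.p + S.q : ℕ)) t := by
      rw [S.F_period]; rw [h3] at hm; push_cast at hm; linarith
    have h6 := S.eq_of_F_eq h' hF
    rw [h6] at hF
    obtain ⟨a, b, c, d⟩ := S.tie hF
    rw [← h6] at c d
    rw [S.vi_period] at c
    rw [S.vo_period] at d
    rw [a, b, c, d]; exact ⟨rfl, rfl⟩

/-- If particle `r ∈ [0,N)` turns, it meets another particle of `[0,N)`, where `N = p+q`. -/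
theorem turn_partner {r : ℤ} {t : ℝ} (h0 : 0 ≤ r) (hN : r < (S.p + S.q : ℕ))
    (h : S.vo r t ≠ S.vi r t) :
    ∃ r' : ℤ, 0 ≤ r' ∧ r' < (S.p + S.q : ℕ) ∧ r' ≠ r ∧ SamePoint (S.F r t) (S.F r' t) := by
  have hp := S.hp
  have hq := S.hq
  rcases S.turn h with h1 | h1
  · by_cases hr : r + 1 = (S.p + S.q : ℕ)
    · refine ⟨0, le_rfl, by omega, by omega, ⟨1, ?_⟩⟩
      have := S.F_period 0 t
      rw [zero_add, ← hr] at this
      push_cast
      linarith
    · exact ⟨r + 1, by omega, by omega, by omega, ⟨0, by push_cast; linarith⟩⟩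
  · by_cases hr : r = 0
    · refine ⟨(S.p + S.q : ℕ) - 1, by omega, by omega, by omega, ⟨-1, ?_⟩⟩
      have := S.F_period (-1) t
      have e : (-1 : ℤ) + (S.p + S.q : ℕ) = (S.p + S.q : ℕ) - 1 := by ring
      rw [e] at this
      rw [hr] at h1 ⊢
      rw [zero_sub] at h1
      push_cast at this ⊢
      linarith
    · exact ⟨r - 1, by omega, by omega, by omega, ⟨0, by push_cast; linarith⟩⟩

/-- Every particle is on a line. -/
theorem F_on_line (r : ℤ) (t : ℝ) : (∃ a, S.F r t = S.α a + t) ∨ (∃ b, S.F r t = S.β b - t) := by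
  unfold F
  rcases max_choice (S.α (S.c r t) + t) (S.β (r - S.c r t) - t) with h | h
  · exact Or.inl ⟨_, h⟩
  · exact Or.inr ⟨_, h⟩

end Sys

end Pool.Agent.Helper74.Robots
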