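import Pool.Agent.Helper74.Robots.Count

namespace Pool.Agent.Helper74.Robots

open Filter Topology Finset

variable {n : ℕ} {home dir : Fin n → ℝ} {x vin vout : Fin n → ℝ → ℝ}

theorem floor_right (d : ℝ) : ∃ ε > 0, ∀ u : ℝ, 0 ≤ u → u < ε → ⌊d + u⌋ = ⌊d⌋ := by
  refine ⟨1 - Int.fract d, by have := Int.fract_lt_one d; linarith, fun u h0 h1 => ?_⟩
  rw [Int.floor_eq_iff]
  have := Int.floor_add_fract d
  have := Int.fract_nonneg d
  constructor <;> linarith

open Classical in
theorem floor_left (d : ℝ) : ∃ ε > 0, ∀ u : ℝ, 0 < u → u < ε →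
    ⌊d - u⌋ = ⌊d⌋ - (if ∃ m : ℤ, d = m then 1 else 0) := by
  by_cases hd : ∃ m : ℤ, d = m
  · refine ⟨1, one_pos, fun u h0 h1 => ?_⟩
    rw [if_pos hd]
    obtain ⟨m, hm⟩ := hd
    rw [hm, Int.floor_intCast, Int.floor_eq_iff]
    push_cast
    constructor <;> linarith
  · have h1 : 0 < Int.fract d := by
      rcases (Int.fract_nonneg d).eq_or_lt with h | h
      · exfalso
        exact hd ⟨⌊d⌋, by have := Int.floor_add_fract d; linarith⟩
      · exact h
    refine ⟨Int.fract d, h1, fun u h0 h1 => ?_⟩
    rw [if_neg hd, sub_zero, Int.floor_eq_iff]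
    have := Int.floor_add_fract d
    have := Int.fract_lt_one d
    constructor <;> linarith

theorem floor_right_ev (d c t : ℝ) (hc : 0 ≤ c) :
    ∀ᶠ s in 𝓝[>] t, ⌊d + c * (s - t)⌋ = ⌊d⌋ := by
  obtain ⟨ε, hε, h⟩ := floor_right d
  have h5 : ∀ᶠ s in 𝓝[>] t, s < t + ε / (c + 1) :=
    eventually_nhdsWithin_of_eventually_nhds (gt_mem_nhds (by
      have : 0 < ε / (c + 1) := by positivity
      linarith))
  filter_upwards [h5, self_mem_nhdsWithin] with s hs hs1
  replace hs1 : t < s := hs1
  apply h
  · exact mul_nonneg hc (by linarith)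
  · have h1 : (s - t) < ε / (c + 1) := by linarith
    rw [lt_div_iff₀ (by linarith)] at h1
    nlinarith

open Classical in
theorem floor_left_ev (d t : ℝ) :
    ∀ᶠ s in 𝓝[<] t, ⌊d + 2 * (s - t)⌋ = ⌊d⌋ - (if ∃ m : ℤ, d = m then 1 else 0) := by
  obtain ⟨ε, hε, h⟩ := floor_left d
  have h5 : ∀ᶠ s in 𝓝[<] t, t - ε / 2 < s :=
    eventually_nhdsWithin_of_eventually_nhds (lt_mem_nhds (by linarith))
  filter_upwards [h5, self_mem_nhdsWithin] with s hs hs1
  replace hs1 : s < t := hs1
  have := h (2 * (t - s)) (by linarith) (by linarith)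
  rw [← this]
  congr 1
  ring

namespace IsMotion

variable (M : IsMotion home dir x vin vout)
include M

open Classical in
/-- The key counting identity along a `+` line that is always carried by `+` robots. -/
theorem key_identity (hmono : StrictMono home) (hspread : ∀ i j, home j < home i + 1)
    (hall : ∀ i, dir i = 1 → Survives home x i) (i0 : Fin n)
    (hneg : ∀ j, dir j = -1 → ∀ s, 0 ≤ s → s ≤ 1 → ∃ i', Alive home x i' s ∧ vout i' s = -1 ∧
      SamePoint (x i' s + s) (home j))
    (hA : ∀ s, 0 ≤ s → s ≤ 1 → ∃ i', Alive home x i' s ∧ vout i' s = 1 ∧ dir i' = 1 ∧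
      SamePoint (x i' s - s) (home i0)) :
    ∀ t, 0 ≤ t → t ≤ 1 →
      (∑ i ∈ Finset.univ.filter (fun i => dir i = 1), ⌊home i0 + t - x i t⌋) -
        ∑ j ∈ Finset.univ.filter (fun j => dir j = -1), ⌊home i0 + 2 * t - home j⌋ =
      (∑ i ∈ Finset.univ.filter (fun i => dir i = 1), ⌊home i0 - home i⌋) -
        ∑ j ∈ Finset.univ.filter (fun j => dir j = -1), ⌊home i0 - home j⌋ := by
  set P := Finset.univ.filter (fun i : Fin n => dir i = 1) with hP
  set N := Finset.univ.filter (fun j : Fin n => dir j = -1) with hN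
  have memP : ∀ i, i ∈ P ↔ dir i = 1 := fun i => by simp [hP]
  have memN : ∀ i, i ∈ N ↔ dir i = -1 := fun i => by simp [hN]
  apply real_induction_Icc (a := 0) (b := 1)
    (P := fun t => (∑ i ∈ P, ⌊home i0 + t - x i t⌋) - ∑ j ∈ N, ⌊home i0 + 2 * t - home j⌋ =
      (∑ i ∈ P, ⌊home i0 - home i⌋) - ∑ j ∈ N, ⌊home i0 - home j⌋)
  · simp [M.start_pos]
  · intro t ht ht1 hQ
    have h1 : ∀ᶠ s in 𝓝[>] t, ∀ i ∈ P, ⌊home i0 + s - x i s⌋ = ⌊home i0 + t - x i t⌋ := by
      rw [Finset.eventually_all]
      intro i hi
      have hal : Alive home x i t := (hall i ((memP i).mp hi)).alive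
      filter_upwards [M.after_ev ht hal,
        floor_right_ev (home i0 + t - x i t) (1 - vout i t) t
          (by rcases M.speed_out i t with a | a <;> rw [a] <;> norm_num)] with s hs hs1
      rw [← hs1, hs.2.1]
      congr 1
      ring
    have h2 : ∀ᶠ s in 𝓝[>] t, ∀ j ∈ N,
        ⌊home i0 + 2 * s - home j⌋ = ⌊home i0 + 2 * t - home j⌋ := by
      rw [Finset.eventually_all]
      intro j _
      filter_upwards [floor_right_ev (home i0 + 2 * t - home j) 2 t (by norm_num)] with s hs
      rw [← hs]
      congr 1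
      ring
    filter_upwards [h1, h2] with s hs1 hs2
    rw [Finset.sum_congr rfl hs1, Finset.sum_congr rfl hs2]
    exact hQ t ht le_rfl
  · intro t ht ht1 hQ
    have h0 : ∀ᶠ s in 𝓝[<] t, (0 : ℝ) < s :=
      eventually_nhdsWithin_of_eventually_nhds (lt_mem_nhds ht)
    have h1 : ∀ᶠ s in 𝓝[<] t, ∀ i ∈ P, ⌊home i0 + s - x i s⌋ = ⌊home i0 + t - x i t⌋ -
        (if vin i t = -1 ∧ ∃ m : ℤ, home i0 + t - x i t = m then 1 else 0) := by
      rw [Finset.eventually_all]
      intro i hi
      have hal : Alive home x i t := (hall i ((memP i).mp hi)).alive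
      filter_upwards [M.before_ev ht hal.before,
        floor_left_ev (home i0 + t - x i t) t] with s hs hs1
      rcases M.speed_in i t with a | a
      · rw [if_neg (by rw [a]; norm_num), sub_zero, hs.2.1, a]
        congr 1
        ring
      · have e : home i0 + s - x i s = home i0 + t - x i t + 2 * (s - t) := by
          rw [hs.2.1, a]; ring
        rw [e, hs1]
        by_cases hc : ∃ m : ℤ, home i0 + t - x i t = m
        · rw [if_pos hc, if_pos ⟨a, hc⟩]
        · rw [if_neg hc, if_neg (fun h => hc h.2)]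
    have h2 : ∀ᶠ s in 𝓝[<] t, ∀ j ∈ N,
        ⌊home i0 + 2 * s - home j⌋ = ⌊home i0 + 2 * t - home j⌋ -
          (if ∃ m : ℤ, home i0 + 2 * t - home j = m then 1 else 0) := by
      rw [Finset.eventually_all]
      intro j _
      filter_upwards [floor_left_ev (home i0 + 2 * t - home j) t] with s hs
      rw [← hs]
      congr 1
      ring
    obtain ⟨s, hs, hsN, hs1, hs2⟩ := ((h1.and h2).and (h0.and self_mem_nhdsWithin)).exists.imp
      (fun s h => (⟨h.1.1, h.1.2, h.2.1, h.2.2⟩ : _ ∧ _ ∧ _ ∧ _))
    replace hs2 : s < t := hs2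
    have hq := hQ s hs1.le hs2
    rw [Finset.sum_congr rfl hs, Finset.sum_congr rfl hsN, Finset.sum_sub_distrib,
      Finset.sum_sub_distrib, Finset.sum_boole, Finset.sum_boole] at hq
    -- compare the two cardinalities
    have hcard : (P.filter fun i => vin i t = -1 ∧ ∃ m : ℤ, home i0 + t - x i t = m).card =
        (N.filter fun j => ∃ m : ℤ, home i0 + 2 * t - home j = m).card := by
      set I := P.filter fun i => vin i t = -1 ∧ ∃ m : ℤ, home i0 + t - x i t = m with hI
      set J := N.filter fun j => ∃ m : ℤ, home i0 + 2 * t - home j = m with hJ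
      have hI1 : I.card ≤ 1 := by
        rw [Finset.card_le_one]
        intro a ha b hb
        simp only [hI, Finset.mem_filter] at ha hb
        obtain ⟨ha1, ha2, ha3⟩ := ha
        obtain ⟨hb1, hb2, hb3⟩ := hb
        have hala : Alive home x a t := (hall a ((memP a).mp ha1)).alive
        have halb : Alive home x b t := (hall b ((memP b).mp hb1)).alive
        apply M.vin_inj hmono hspread ht hala.before halb.before ?_ (by rw [ha2, hb2])
        obtain ⟨m1, hm1⟩ := ha3
        obtain ⟨m2, hm2⟩ := hb3
        exact ⟨m2 - m1, by push_cast; linarith⟩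
      have hJ1 : J.card ≤ 1 := by
        rw [Finset.card_le_one]
        intro a ha b hb
        simp only [hJ, Finset.mem_filter] at ha hb
        obtain ⟨m1, hm1⟩ := ha.2
        obtain ⟨m2, hm2⟩ := hb.2
        exact home_inj hmono hspread ⟨m2 - m1, by push_cast; linarith⟩
      have hIJ : I.Nonempty → J.Nonempty := by
        rintro ⟨i, hi⟩
        simp only [hI, Finset.mem_filter] at hi
        obtain ⟨hi1, hi2, m, hm⟩ := hi
        have hal : Alive home x i t := (hall i ((memP i).mp hi1)).alive
        obtain ⟨u, hu, hu1, hu2⟩ := ((M.before_ev ht hal.before).and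
          (h0.and self_mem_nhdsWithin)).exists
        obtain ⟨j, hj1, hj2, hj3⟩ := M.trace_neg hu.1 (by rw [hu.2.2.1, hi2]) le_rfl hu1.le
        refine ⟨j, ?_⟩
        simp only [hJ, Finset.mem_filter]
        refine ⟨(memN j).mpr (by rw [← M.start_vel j]; exact hj2), ?_⟩
        obtain ⟨m', hm'⟩ := hj3
        rw [M.start_pos, hu.2.1, hi2] at hm'
        refine ⟨m - m', ?_⟩
        push_cast
        linarith
      have hJI : J.Nonempty → I.Nonempty := by
        rintro ⟨j, hj⟩
        simp only [hJ, Finset.mem_filter] at hj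
        obtain ⟨hj1, m, hm⟩ := hj
        obtain ⟨a, ha1, ha2, ha3, m1, hm1⟩ := hA t ht.le ht1
        obtain ⟨b, hb1, hb2, m2, hm2⟩ := hneg j ((memN j).mp hj1) t ht.le ht1
        have hab : a ≠ b := by
          intro h; rw [h, hb2] at ha2; norm_num at ha2
        have hsp : SamePoint (x a t) (x b t) := by
          refine ⟨m + m1 - m2, ?_⟩
          push_cast
          linarith
        refine ⟨a, ?_⟩
        simp only [hI, Finset.mem_filter]
        refine ⟨(memP a).mpr ha3, ?_, -m1, by push_cast; linarith⟩
        rw [← M.exchange b a t ht hab.symm hb1 ha1 hsp.symm, hb2]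
      rcases Finset.eq_empty_or_nonempty I with hIe | hIn
      · rcases Finset.eq_empty_or_nonempty J with hJe | hJn
        · rw [hIe, hJe]
        · have := hJI hJn
          rw [hIe] at this
          exact absurd this Finset.not_nonempty_empty
      · have h3 := hIJ hIn
        have h4 := Finset.card_pos.mpr hIn
        have h5 := Finset.card_pos.mpr h3
        omega
    rw [hcard] at hq
    linarith

open Classical in
/-- The extremal case is impossible. -/
theorem extremal_false (hmono : StrictMono home) (hspread : ∀ i j, home j < home i + 1)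
    (hall : ∀ i, dir i = 1 → Survives home x i) (i0 : Fin n) (hi0 : dir i0 = 1)
    (hneg : ∀ j, dir j = -1 → ∀ s, 0 ≤ s → s ≤ 1 → ∃ i', Alive home x i' s ∧ vout i' s = -1 ∧
      SamePoint (x i' s + s) (home j))
    (hA : ∀ s, 0 ≤ s → s ≤ 1 → ∃ i', Alive home x i' s ∧ vout i' s = 1 ∧ dir i' = 1 ∧
      SamePoint (x i' s - s) (home i0))
    (hcard : (Finset.univ.filter (fun i => dir i = 1)).card =
      2 * (Finset.univ.filter (fun j => dir j = -1)).card) : False := by
  have key := M.key_identity hmono hspread hall i0 hneg hA 1 zero_le_one le_rfl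
  set P := Finset.univ.filter (fun i : Fin n => dir i = 1) with hP
  set N := Finset.univ.filter (fun j : Fin n => dir j = -1) with hN
  have memP : ∀ i, i ∈ P ↔ dir i = 1 := fun i => by simp [hP]
  have e1 : ∑ j ∈ N, ⌊home i0 + 2 * 1 - home j⌋ = ∑ j ∈ N, ⌊home i0 - home j⌋ + 2 * N.card := by
    have : ∀ j ∈ N, ⌊home i0 + 2 * 1 - home j⌋ = ⌊home i0 - home j⌋ + 2 := by
      intro j _
      rw [← Int.floor_add_intCast]
      congr 1
      push_cast
      ring
    rw [Finset.sum_congr rfl this, Finset.sum_add_distrib]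
    simp [mul_comm]
  rw [e1] at key
  have e2 : ∑ i ∈ P, (⌊home i0 + 1 - x i 1⌋ - ⌊home i0 - home i⌋) = 2 * N.card := by
    rw [Finset.sum_sub_distrib]
    linarith
  have hi0P : i0 ∈ P := (memP i0).mpr hi0
  have hpos0 := M.pos_of_dir_one hi0 1 zero_le_one (hall i0 hi0).alive one_pos
  have e3 : ⌊home i0 + 1 - x i0 1⌋ - ⌊home i0 - home i0⌋ ≤ 0 := by
    have h1 : ⌊home i0 + 1 - x i0 1⌋ < 1 := by
      rw [Int.floor_lt]; push_cast; linarith [hpos0.1]
    simp only [sub_self, Int.floor_zero]
    omega
  have e4 : ∀ i ∈ P.erase i0, ⌊home i0 + 1 - x i 1⌋ - ⌊home i0 - home i⌋ ≤ 1 := by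
    intro i hi
    rw [Finset.mem_erase] at hi
    obtain ⟨hne, hi⟩ := hi
    have hal := (hall i ((memP i).mp hi)).alive (t := 1)
    have hal0 := (hall i0 hi0).alive (t := 1)
    rcases lt_or_gt_of_ne hne with h | h
    · obtain ⟨o1, o2, -, -⟩ := M.ordOut hmono hspread h 1 zero_le_one hal hal0
      have h1 : ⌊home i0 + 1 - x i 1⌋ < 2 := by
        rw [Int.floor_lt]; push_cast; linarith [hpos0.1]
      have h2 : 0 ≤ ⌊home i0 - home i⌋ := by
        rw [Int.floor_nonneg]; linarith [hmono h]
      omega
    · obtain ⟨o1, o2, -, -⟩ := M.ordOut hmono hspread h 1 zero_le_one hal0 hal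
      have h1 : ⌊home i0 + 1 - x i 1⌋ < 1 := by
        rw [Int.floor_lt]; push_cast; linarith [hpos0.1]
      have h2 : -1 ≤ ⌊home i0 - home i⌋ := by
        rw [Int.le_floor]; push_cast; linarith [hspread i0 i]
      omega
  have e5 : ∑ i ∈ P, (⌊home i0 + 1 - x i 1⌋ - ⌊home i0 - home i⌋) ≤ (P.card : ℤ) - 1 := by
    rw [← Finset.add_sum_erase P _ hi0P]
    have := Finset.sum_le_sum e4
    rw [Finset.sum_const, Finset.card_erase_of_mem hi0P, nsmul_eq_mul, mul_one] at this
    have hpos := Finset.card_pos.mpr ⟨i0, hi0P⟩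
    have h7 : ((P.card - 1 : ℕ) : ℤ) = (P.card : ℤ) - 1 := by omega
    rw [h7] at this
    linarith
  rw [e2, hcard] at e5
  push_cast at e5
  linarith

open Classical in
/-- Upper bound when at least as many robots start in direction `+1` as in direction `-1`. -/
theorem upper_of_nonneg (hmono : StrictMono home) (hspread : ∀ i j, home j < home i + 1)
    (hdir : 0 ≤ ∑ i, dir i) :
    (Finset.univ.filter fun i => Survives home x i).card ≤ 2 * ((n - 1) / 3) := by
  set P := Finset.univ.filter (fun i : Fin n => dir i = 1) with hP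
  set N := Finset.univ.filter (fun j : Fin n => dir j = -1) with hN
  have memP : ∀ i, i ∈ P ↔ dir i = 1 := fun i => by simp [hP]
  have memN : ∀ i, i ∈ N ↔ dir i = -1 := fun i => by simp [hN]
  have hPN : P.card + N.card = n := by
    have hdisj : Disjoint P N := by
      rw [Finset.disjoint_left]
      intro i hi hi'
      rw [memP] at hi
      rw [memN, hi] at hi'
      norm_num at hi'
    have hun : P ∪ N = Finset.univ := by
      ext i
      simp only [Finset.mem_union, Finset.mem_univ, iff_true, memP, memN]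
      exact M.dir_eq i
    rw [← Finset.card_union_of_disjoint hdisj, hun]
    simp
  obtain ⟨T, hT2, hfin⟩ := exists_final (home := home) (x := x)
  set S := aliveSet home x T with hS
  have hSsurv : (Finset.univ.filter fun i => Survives home x i) = S := by
    ext i
    simp only [Finset.mem_filter, Finset.mem_univ, true_and, hS, mem_aliveSet]
    exact ⟨fun h => h.alive, fun h => hfin i h⟩
  rw [hSsurv]
  have hSdir : ∀ i ∈ S, dir i = 1 := by
    intro i hi
    rcases M.dir_eq i with h | h
    · exact h
    · exact absurd ((mem_aliveSet.mp hi).mono hT2) (M.neg_dies hmono hspread hdir h)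
  have hSP : S ⊆ P := fun i hi => (memP i).mpr (hSdir i hi)
  set S1 := S.filter (fun i => vout i T = 1) with hS1
  set S2 := S.filter (fun i => vout i T = -1) with hS2
  have hS12 : S1.card + S2.card = S.card := by
    have hdisj : Disjoint S1 S2 := by
      rw [Finset.disjoint_left]
      intro i hi hi'
      simp only [hS1, hS2, Finset.mem_filter] at hi hi'
      rw [hi.2] at hi'
      norm_num at hi'
    have hun : S1 ∪ S2 = S := by
      ext i
      simp only [hS1, hS2, Finset.mem_union, Finset.mem_filter]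
      constructor
      · rintro (h | h) <;> exact h.1
      · intro h
        rcases M.speed_out i T with a | a
        · exact Or.inl ⟨h, a⟩
        · exact Or.inr ⟨h, a⟩
    rw [← Finset.card_union_of_disjoint hdisj, hun]
  have hbal : S1.card = S2.card := by
    have h0 := M.balanced hmono hspread (by linarith : 0 < T) hfin
    have h1 : ∑ i ∈ S, vout i T = (S1.card : ℝ) - S2.card := by
      have h2 : ∀ i ∈ S, vout i T = (if vout i T = 1 then (1:ℝ) else 0) -
          (if vout i T = -1 then (1:ℝ) else 0) := by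
        intro i _
        rcases M.speed_out i T with a | a <;> rw [a] <;> norm_num
      rw [Finset.sum_congr rfl h2, Finset.sum_sub_distrib, Finset.sum_boole, Finset.sum_boole]
    rw [h1] at h0
    have : (S1.card : ℝ) = S2.card := by linarith
    exact_mod_cast this
  -- the minus lines inject into the robots of type minus
  have htr : ∀ i ∈ S2, ∃ j ∈ N, ∀ s, 0 ≤ s → s ≤ T → ∃ i', Alive home x i' s ∧ vout i' s = -1 ∧
      SamePoint (x i' s + s) (home j) ∧ SamePoint (x i T + T) (home j) := by
    intro i hi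
    simp only [hS2, Finset.mem_filter] at hi
    have hal := mem_aliveSet.mp hi.1
    obtain ⟨j, hj1, hj2, hj3⟩ := M.trace_neg hal hi.2 le_rfl (by linarith : (0:ℝ) ≤ T)
    rw [M.start_pos, add_zero] at hj3
    refine ⟨j, (memN j).mpr (by rw [← M.start_vel j]; exact hj2), fun s hs hsT => ?_⟩
    obtain ⟨i', h1, h2, h3⟩ := M.trace_neg hal hi.2 hs hsT
    exact ⟨i', h1, h2, h3.trans hj3.symm, hj3.symm⟩
  choose! f hfN hf using htr
  have hfinj : Set.InjOn f S2 := by
    intro a ha b hb hab
    have ha' := ha
    have hb' := hb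
    simp only [hS2, Finset.coe_filter, Set.mem_ofPred_eq] at ha' hb'
    obtain ⟨-, -, -, -, h1⟩ := hf a ha 0 le_rfl (by linarith)
    obtain ⟨-, -, -, -, h2⟩ := hf b hb 0 le_rfl (by linarith)
    rw [← hab] at h2
    apply M.vout_inj hmono hspread (by linarith : (0:ℝ) ≤ T) (mem_aliveSet.mp ha'.1)
      (mem_aliveSet.mp hb'.1) ?_ (by rw [ha'.2, hb'.2])
    have := (h1.trans h2.symm).sub_right (-T)
    simpa using this
  have hS2N : S2.card ≤ N.card := Finset.card_le_card_of_injOn f (fun i hi => hfN i hi) hfinj
  have hSPc : S.card ≤ P.card := Finset.card_le_card hSP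
  by_contra hcon
  push Not at hcon
  -- then we are in the extremal case
  have hc2 : S2.card = N.card := by omega
  have hc3 : S.card = P.card := by omega
  have hpos : 0 < S2.card := by omega
  have hSeq : S = P := Finset.eq_of_subset_of_card_le hSP hc3.ge
  have hall : ∀ i, dir i = 1 → Survives home x i := by
    intro i hi
    have : i ∈ S := by rw [hSeq]; exact (memP i).mpr hi
    exact hfin i (mem_aliveSet.mp this)
  have himg : S2.image f = N := by
    apply Finset.eq_of_subset_of_card_le
    · intro j hj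
      rw [Finset.mem_image] at hj
      obtain ⟨i, hi, rfl⟩ := hj
      exact hfN i hi
    · rw [Finset.card_image_of_injOn hfinj]; exact hc2.ge
  have hneg : ∀ j, dir j = -1 → ∀ s, 0 ≤ s → s ≤ 1 → ∃ i', Alive home x i' s ∧
      vout i' s = -1 ∧ SamePoint (x i' s + s) (home j) := by
    intro j hj s hs hs1
    have : j ∈ S2.image f := by rw [himg]; exact (memN j).mpr hj
    rw [Finset.mem_image] at this
    obtain ⟨i, hi, rfl⟩ := this
    obtain ⟨i', h1, h2, h3, -⟩ := hf i hi s hs (by linarith)
    exact ⟨i', h1, h2, h3⟩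
  -- pick a plus line
  obtain ⟨i1, hi1⟩ := Finset.card_pos.mp (by rw [hbal]; exact hpos : 0 < S1.card)
  simp only [hS1, Finset.mem_filter] at hi1
  have hal1 := mem_aliveSet.mp hi1.1
  have hd1 := hSdir i1 hi1.1
  obtain ⟨i0, h1, h2, h3, h4⟩ := M.trace_A hmono hspread hal1 hi1.2 hd1 le_rfl
    (by linarith : (0:ℝ) ≤ T)
  rw [M.start_pos, sub_zero] at h4
  refine M.extremal_false hmono hspread hall i0 h3 hneg ?_ ?_
  · intro s hs hs1
    obtain ⟨i', g1, g2, g3, g4⟩ := M.trace_A hmono hspread hal1 hi1.2 hd1 hs
      (by linarith : s ≤ T)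
    exact ⟨i', g1, g2, g3, g4.trans h4.symm⟩
  · rw [← hP, ← hN]
    omega

open Classical in
/-- The upper bound in general. -/
theorem upper (hmono : StrictMono home) (hspread : ∀ i j, home j < home i + 1) :
    (Finset.univ.filter fun i => Survives home x i).card ≤ 2 * ((n - 1) / 3) := by
  rcases le_total 0 (∑ i, dir i) with h | h
  · exact M.upper_of_nonneg hmono hspread h
  · have h1 := M.reflect.upper_of_nonneg
      (by
        intro i j hij
        unfold refl₀
        have := hmono (Fin.rev_lt_rev.mpr hij)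
        linarith)
      (by
        intro i j
        unfold refl₀
        have := hspread (Fin.rev j) (Fin.rev i)
        linarith)
      (by
        unfold refl₀
        rw [Finset.sum_neg_distrib]
        have : ∑ i : Fin n, dir (Fin.rev i) = ∑ i, dir i :=
          Equiv.sum_comp Fin.revPerm dir
        rw [this]
        linarith)
    have h2 : (Finset.univ.filter fun i => Survives home x i).card =
        (Finset.univ.filter fun i => Survives (refl₀ home) (refl x) i).card := by
      apply Finset.card_bij (fun i _ => Fin.rev i)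
      · intro i hi
        simp only [Finset.mem_filter, Finset.mem_univ, true_and] at hi ⊢
        rw [survives_refl, Fin.rev_rev]
        exact hi
      · intro a _ b _ hab
        exact Fin.rev_injective hab
      · intro b hb
        simp only [Finset.mem_filter, Finset.mem_univ, true_and] at hb
        refine ⟨Fin.rev b, ?_, Fin.rev_rev b⟩
        simp only [Finset.mem_filter, Finset.mem_univ, true_and]
        exact survives_refl.mp hb
    rw [h2]
    exact h1

end IsMotion

end Pool.Agent.Helper74.Robots
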